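import Pool.Agent.Q24.CappittDefs

/-!
# Pro-`p` Cappitt groups are abelian or periodic, and their derived subgroup is finite cyclic
-/

set_option autoImplicit false

namespace Q24.Cappitt

universe u

variable {G : Type u} [Group G] [TopologicalSpace G] [IsTopologicalGroup G]

theorem normal_of_mem {x : G} (hx : x ∉ STilde G) {L : Subgroup G} (hL : IsClosed (L : Set G))
    (hxL : x ∈ L) : L.Normal := by
  by_contra h
  have h1 : L ≤ sSup {L : Subgroup G | IsClosed (L : Set G) ∧ ¬ L.Normal} := le_sSup ⟨hL, h⟩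
  exact hx (Subgroup.le_topologicalClosure _ (h1 hxL))

/-- the closed subgroup generated by an element -/
def cl (x : G) : Subgroup G := (Subgroup.zpowers x).topologicalClosure

theorem isClosed_cl (x : G) : IsClosed (cl x : Set G) := Subgroup.isClosed_topologicalClosure _

theorem mem_cl (x : G) : x ∈ cl x :=
  Subgroup.le_topologicalClosure _ (Subgroup.mem_zpowers x)

theorem cl_comm [T2Space G] {x g : G} (h : x * g = g * x) {y : G} (hy : y ∈ cl x) :
    y * g = g * y := by
  have h1 : cl x ≤ Subgroup.centralizer {g} := by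
    apply Subgroup.topologicalClosure_minimal
    · rw [Subgroup.zpowers_le, Subgroup.mem_centralizer_iff]
      intro z hz
      rw [Set.mem_singleton_iff] at hz
      subst hz
      exact h.symm
    · exact Set.isClosed_centralizer _
  have h2 := h1 hy
  rw [Subgroup.mem_centralizer_iff] at h2
  exact (h2 g rfl).symm

section profinite

variable [CompactSpace G] [T2Space G] [TotallyDisconnectedSpace G]

omit [T2Space G] in
theorem exists_open {O : Set G} (hO : IsOpen O) (h1 : (1 : G) ∈ O) :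
    ∃ V : Subgroup G, V.Normal ∧ IsOpen (V : Set G) ∧ (V : Set G) ⊆ O := by
  obtain ⟨H, hH⟩ := ProfiniteGrp.exist_openNormalSubgroup_sub_open_nhds_of_one hO h1
  exact ⟨H.toSubgroup, H.isNormal', H.isOpen', hH⟩

theorem pow_mem_cl {p : ℕ} [Fact p.Prime] (hp : IsProP p G) {x c : G} (hc : c ∈ cl x)
    (h1 : c ≠ 1) : ∃ n : ℕ, x ^ (p ^ n) ∈ cl c := by
  obtain ⟨U, hUn, hUo, hU⟩ := exists_open (O := {c}ᶜ) isOpen_compl_singleton h1.symm
  have hcU : c ∉ U := fun h => hU h rfl
  obtain ⟨n, hn⟩ := hp U hUn hUo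
  refine ⟨n, ?_⟩
  have hxU : x ^ (p ^ n) ∈ U := hn ▸ U.pow_index_mem x
  change x ^ (p ^ n) ∈ closure ((Subgroup.zpowers c : Subgroup G) : Set G)
  rw [mem_closure_iff]
  intro O hO hxO
  -- an open normal subgroup `V` contained in `U` with `x ^ p ^ n * V ⊆ O`
  obtain ⟨V, hVn, hVo, hV⟩ := exists_open
    (O := (fun v => x ^ (p ^ n) * v) ⁻¹' O ∩ (U : Set G))
    ((hO.preimage (continuous_const_mul _)).inter hUo) ⟨by simpa using hxO, U.one_mem⟩
  obtain ⟨m, hm⟩ := hp V hVn hVo
  have hxV : x ^ (p ^ m) ∈ V := hm ▸ V.pow_index_mem x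
  have hVU : V ≤ U := fun v hv => (hV hv).2
  -- `c` is congruent to a power of `x` modulo `V`
  have hc' : c ∈ closure ((Subgroup.zpowers x : Subgroup G) : Set G) := hc
  rw [mem_closure_iff] at hc'
  obtain ⟨w, hw1, hw2⟩ := hc' ((fun v => c⁻¹ * v) ⁻¹' (V : Set G))
    (hVo.preimage (continuous_const_mul _)) (by simp)
  obtain ⟨k, rfl⟩ := Subgroup.mem_zpowers_iff.1 hw2
  have hk : c⁻¹ * x ^ k ∈ V := hw1
  have hg : (Int.gcd k (p ^ m : ℕ)) ∣ p ^ m := by
    have := Int.gcd_dvd_right k (p ^ m : ℕ)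
    exact_mod_cast this
  obtain ⟨j, hj, hj'⟩ := (Nat.dvd_prime_pow (Fact.out : p.Prime)).1 hg
  have hjn : j < n ∨ j = n ∨ n < j := lt_trichotomy j n
  have hjn' : j ≤ n := by
    by_contra hcon
    push Not at hcon
    have h2 : ((p ^ n : ℕ) : ℤ) ∣ k := by
      have h3 : ((Int.gcd k (p ^ m : ℕ) : ℕ) : ℤ) ∣ k := Int.gcd_dvd_left k _
      rw [hj'] at h3
      refine dvd_trans ?_ h3
      exact_mod_cast pow_dvd_pow p hcon.le
    obtain ⟨t, ht⟩ := h2
    have h4 : x ^ k ∈ U := by
      rw [ht, zpow_mul, zpow_natCast]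
      exact U.zpow_mem hxU t
    have h5 : c⁻¹ ∈ U := by
      have := U.mul_mem (hVU hk) (U.inv_mem h4)
      simpa using this
    exact hcU (by simpa using U.inv_mem h5)
  -- Bezout
  have hb := Int.gcd_eq_gcd_ab k (p ^ m : ℕ)
  rw [hj'] at hb
  set u := Int.gcdA k (p ^ m : ℕ)
  set v := Int.gcdB k (p ^ m : ℕ)
  set π := QuotientGroup.mk' V
  have e1 : π c = π x ^ k := by
    rw [← map_zpow]
    exact (QuotientGroup.eq (s := V)).2 hk
  have e2 : π x ^ (p ^ m) = 1 := by
    rw [← map_pow]
    exact (QuotientGroup.eq_one_iff _).2 hxV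
  have e3 : π x ^ (p ^ j) = π c ^ u := by
    have : π x ^ ((p ^ j : ℕ) : ℤ) = π c ^ u := by
      rw [hb, zpow_add, zpow_mul, zpow_mul, ← e1, zpow_natCast, e2, one_zpow, mul_one]
    rwa [zpow_natCast] at this
  have e4 : π (x ^ (p ^ n)) = π (c ^ (u * (p ^ (n - j) : ℕ))) := by
    rw [map_pow, map_zpow, zpow_mul, ← e3, zpow_natCast, ← pow_mul, ← pow_add]
    congr 2
    omega
  have e5 : (x ^ (p ^ n))⁻¹ * c ^ (u * (p ^ (n - j) : ℕ)) ∈ V := (QuotientGroup.eq (s := V)).1 e4
  refine ⟨c ^ (u * (p ^ (n - j) : ℕ)), ?_, Subgroup.zpow_mem_zpowers _ _⟩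
  have := (hV e5).1
  simpa using this

omit [CompactSpace G] [TotallyDisconnectedSpace G] in
theorem cl_of_finite {c : G} (hc : IsOfFinOrder c) : cl c = Subgroup.zpowers c := by
  apply le_antisymm
  · apply Subgroup.topologicalClosure_minimal _ le_rfl
    exact (finite_zpowers.2 hc).isClosed
  · exact Subgroup.le_topologicalClosure _

theorem comm_aux {p : ℕ} [Fact p.Prime] (hp : IsProP p G) {x g : G} (hx : x ∉ STilde G)
    (hg : g ∉ STilde G) (hinf : ¬ IsOfFinOrder x) : x * g = g * x := by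
  by_contra hne
  have hnx := normal_of_mem hx (isClosed_cl x) (mem_cl x)
  have hng := normal_of_mem hg (isClosed_cl g) (mem_cl g)
  set c := x * g * x⁻¹ * g⁻¹ with hcdef
  have hcx : c ∈ cl x := by
    have h1 := hnx.conj_mem _ ((cl x).inv_mem (mem_cl x)) g
    have : c = x * (g * x⁻¹ * g⁻¹) := by rw [hcdef]; group
    rw [this]
    exact (cl x).mul_mem (mem_cl x) h1
  have hcg : c ∈ cl g := by
    have h1 := hng.conj_mem _ (mem_cl g) x
    rw [hcdef]
    exact (cl g).mul_mem h1 ((cl g).inv_mem (mem_cl g))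
  have hc1 : c ≠ 1 := by
    intro h
    apply hne
    have : c * (g * x) = x * g := by rw [hcdef]; group
    rw [← this, h, one_mul]
  have ccx : c * x = x * c := cl_comm rfl hcx
  have ccg : c * g = g * c := cl_comm rfl hcg
  have hxg : x * g = c * g * x := by rw [hcdef]; group
  have hpow : ∀ k : ℕ, x ^ k * g = c ^ k * g * x ^ k := by
    intro k
    induction k with
    | zero => simp
    | succ k ih =>
      have e : x * c ^ k = c ^ k * x := by
        have : Commute x (c ^ k) := (show Commute x c from ccx.symm).pow_right k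
        exact this
      calc x ^ (k + 1) * g = x * (x ^ k * g) := by rw [pow_succ']; group
        _ = x * c ^ k * g * x ^ k := by rw [ih]; group
        _ = c ^ k * (x * g) * x ^ k := by rw [e]; group
        _ = c ^ (k + 1) * g * x ^ (k + 1) := by rw [hxg, pow_succ, pow_succ']; group
  obtain ⟨n, hn⟩ := pow_mem_cl hp hcx hc1
  have h1 : x ^ (p ^ n) * g = g * x ^ (p ^ n) := cl_comm ccg hn
  have h2 : c ^ (p ^ n) = 1 := by
    have h3 := hpow (p ^ n)
    rw [h1, mul_assoc] at h3
    exact (mul_eq_right.1 h3.symm)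
  have hcf : IsOfFinOrder c :=
    isOfFinOrder_iff_pow_eq_one.2 ⟨p ^ n, pow_pos (Fact.out : p.Prime).pos n, h2⟩
  rw [cl_of_finite hcf] at hn
  have h3 : IsOfFinOrder (x ^ (p ^ n)) := by
    obtain ⟨k, hk⟩ := Subgroup.mem_zpowers_iff.1 hn
    rw [← hk]
    exact hcf.zpow
  rw [isOfFinOrder_pow] at h3
  rcases h3 with h3 | h3
  · exact hinf h3
  · exact absurd h3 (pow_pos (Fact.out : p.Prime).pos n).ne'

theorem central_of_infinite {p : ℕ} [Fact p.Prime] (hp : IsProP p G) {x : G} (hx : x ∉ STilde G)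
    (hinf : ¬ IsOfFinOrder x) (g : G) : x * g = g * x := by
  by_cases hg : g ∈ STilde G
  · have h1 : g * x ∉ STilde G := fun h => hx (by
      have := (STilde G).mul_mem ((STilde G).inv_mem hg) h
      simpa using this)
    have h2 := comm_aux hp hx h1 hinf
    rw [← mul_assoc] at h2
    exact mul_right_cancel h2
  · exact comm_aux hp hx hg hinf

end profinite

theorem exists_noncentral (hS : STilde G ≠ ⊤) (hna : ∃ a b : G, a * b ≠ b * a) :
    ∃ x : G, x ∉ STilde G ∧ ∃ g : G, x * g ≠ g * x := by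
  by_contra hcon
  push Not at hcon
  obtain ⟨x, hx⟩ : ∃ x : G, x ∉ STilde G := by
    by_contra h
    push Not at h
    exact hS (top_unique fun y _ => h y)
  obtain ⟨a, b, hab⟩ := hna
  apply hab
  by_cases ha : a ∈ STilde G
  · have h1 : a * x ∉ STilde G := fun h => hx (by
      have := (STilde G).mul_mem ((STilde G).inv_mem ha) h
      simpa using this)
    have h2 : Commute (a * x) b := hcon _ h1 b
    have h3 : Commute x b := hcon _ hx b
    have h4 := h2.mul_left h3.inv_left
    rw [mul_inv_cancel_right] at h4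
    exact h4
  · exact hcon a ha b

theorem periodic [CompactSpace G] [T2Space G] [TotallyDisconnectedSpace G] {p : ℕ} [Fact p.Prime]
    (hp : IsProP p G) (hS : STilde G ≠ ⊤) (hna : ∃ a b : G, a * b ≠ b * a) (y : G) :
    IsOfFinOrder y := by
  by_contra hy
  obtain ⟨x, hx, g, hxg⟩ := exists_noncentral hS hna
  have hxf : IsOfFinOrder x := by
    by_contra h
    exact hxg (central_of_infinite hp hx h g)
  have hnx := normal_of_mem hx (isClosed_cl x) (mem_cl x)
  rw [cl_of_finite hxf] at hnx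
  have hfin : Finite (Subgroup.zpowers x) := (finite_zpowers.2 hxf).to_subtype
  -- some positive power of `y` commutes with `x`
  obtain ⟨i, j, hij, heq⟩ : ∃ i j : ℕ, i < j ∧ y ^ i * x * (y ^ i)⁻¹ = y ^ j * x * (y ^ j)⁻¹ := by
    have h1 : ∀ i : ℕ, y ^ i * x * (y ^ i)⁻¹ ∈ Subgroup.zpowers x := fun i =>
      hnx.conj_mem _ (Subgroup.mem_zpowers x) _
    obtain ⟨i, j, hne, he⟩ := Finite.exists_ne_map_eq_of_infinite
      (fun i : ℕ => (⟨_, h1 i⟩ : Subgroup.zpowers x))
    have he' := congrArg Subtype.val he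
    rcases lt_or_gt_of_ne hne with h | h
    · exact ⟨i, j, h, he'⟩
    · exact ⟨j, i, h, he'.symm⟩
  set w := y ^ (j - i) with hw
  have hwx : Commute w x := by
    have hj : y ^ j = y ^ i * w := by rw [hw, ← pow_add]; congr 1; omega
    rw [hj] at heq
    have h2 : x = w * x * w⁻¹ := by
      have h3 : y ^ i * x * (y ^ i)⁻¹ = y ^ i * (w * x * w⁻¹) * (y ^ i)⁻¹ := by
        rw [heq]; group
      exact mul_left_cancel (mul_right_cancel h3)
    change w * x = x * w
    exact (eq_mul_inv_iff_mul_eq.1 h2).symm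
  have hwinf : ¬ IsOfFinOrder w := by
    rw [hw, isOfFinOrder_pow]
    push Not
    exact ⟨hy, by omega⟩
  have hxw : ∀ t : ℕ, t ≠ 0 → ¬ IsOfFinOrder (x * w ^ t) := by
    intro t ht h
    have h1 : IsOfFinOrder (x⁻¹ * (x * w ^ t)) := by
      have hc : Commute x⁻¹ (x * w ^ t) := by
        apply Commute.inv_left
        exact (Commute.refl x).mul_right (hwx.symm.pow_right t)
      exact hc.isOfFinOrder_mul hxf.inv h
    rw [inv_mul_cancel_left, isOfFinOrder_pow] at h1
    rcases h1 with h1 | h1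
    · exact hwinf h1
    · exact ht h1
  have hcent : ∀ t : ℕ, t ≠ 0 → x * w ^ t ∉ STilde G → Commute (x * w ^ t) g := fun t ht h =>
    central_of_infinite hp h (hxw t ht) g
  by_cases hwS : w ∈ STilde G
  · have h1 : x * w ^ 1 ∉ STilde G := fun h => hx (by
      have := (STilde G).mul_mem h ((STilde G).inv_mem ((STilde G).pow_mem hwS 1))
      simpa using this)
    have h2 : x * w ^ 2 ∉ STilde G := fun h => hx (by
      have := (STilde G).mul_mem h ((STilde G).inv_mem ((STilde G).pow_mem hwS 2))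
      simpa using this)
    have c1 := hcent 1 one_ne_zero h1
    have c2 := hcent 2 two_ne_zero h2
    have c3 : Commute w g := by
      have h4 := c1.inv_left.mul_left c2
      have h5 : (x * w ^ 1)⁻¹ * (x * w ^ 2) = w := by group
      rwa [h5] at h4
    have c4 := c1.mul_left c3.inv_left
    rw [pow_one, mul_inv_cancel_right] at c4
    exact hxg c4
  · have c0 : Commute w g := central_of_infinite hp hwS hwinf g
    have hor : x * w ^ 1 ∉ STilde G ∨ x * w ^ 2 ∉ STilde G := by
      by_contra hcon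
      push Not at hcon
      apply hwS
      have h4 := (STilde G).mul_mem ((STilde G).inv_mem hcon.1) hcon.2
      have h5 : (x * w ^ 1)⁻¹ * (x * w ^ 2) = w := by group
      rwa [h5] at h4
    rcases hor with h | h
    · have c4 := (hcent 1 one_ne_zero h).mul_left (c0.pow_left 1).inv_left
      rw [mul_inv_cancel_right] at c4
      exact hxg c4
    · have c4 := (hcent 2 two_ne_zero h).mul_left (c0.pow_left 2).inv_left
      rw [mul_inv_cancel_right] at c4
      exact hxg c4

end Q24.Cappitt
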