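import Pool.Agent.Q24.Cappitt

/-!
# Pro-`p` Cappitt groups: the derived subgroup is finite cyclic
-/

set_option autoImplicit false

namespace Q24.Cappitt

universe u

section dedekind

variable {H : Type u} [Group H]

theorem mem_zpowers_of_coprime {g : H} {k : ℤ} {n : ℕ} (hg : g ^ n = 1) (h : Int.gcd k n = 1) :
    g ∈ Subgroup.zpowers (g ^ k) := by
  have hb := Int.gcd_eq_gcd_ab k n
  rw [h] at hb
  refine Subgroup.mem_zpowers_iff.2 ⟨Int.gcdA k n, ?_⟩
  have e : g = g ^ ((1 : ℕ) : ℤ) := by simp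
  conv_rhs => rw [e, hb, zpow_add, zpow_mul, zpow_mul, zpow_natCast, hg, one_zpow, mul_one]

theorem pow_swap {y z c : H} (h : y * z = c * z * y) (hcy : Commute c y) (k : ℕ) :
    y ^ k * z = c ^ k * z * y ^ k := by
  induction k with
  | zero => simp
  | succ k ih =>
    have e : y * c ^ k = c ^ k * y := (hcy.symm.pow_right k)
    calc y ^ (k + 1) * z = y * (y ^ k * z) := by rw [pow_succ']; group
      _ = y * c ^ k * z * y ^ k := by rw [ih]; group
      _ = c ^ k * (y * z) * y ^ k := by rw [e]; group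
      _ = c ^ (k + 1) * z * y ^ (k + 1) := by rw [h, pow_succ, pow_succ']; group

theorem mul_pow_class_two {u z d : H} (h : u * z = d * z * u) (hdu : Commute d u)
    (hdz : Commute d z) (m : ℕ) : (z * u) ^ m = d ^ (m.choose 2) * z ^ m * u ^ m := by
  induction m with
  | zero => simp
  | succ m ih =>
    have e : z ^ m * d ^ m = d ^ m * z ^ m := ((hdz.symm.pow_left m).pow_right m)
    calc (z * u) ^ (m + 1) = (z * u) ^ m * (z * u) := pow_succ _ _
      _ = d ^ (m.choose 2) * z ^ m * (u ^ m * z) * u := by rw [ih]; group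
      _ = d ^ (m.choose 2) * (z ^ m * d ^ m) * z * u ^ m * u := by
        rw [pow_swap h hdu m]; group
      _ = d ^ (m.choose 2 + m) * (z ^ m * z) * (u ^ m * u) := by rw [e, pow_add]; group
      _ = d ^ ((m + 1).choose 2) * z ^ (m + 1) * u ^ (m + 1) := by
        rw [← pow_succ, ← pow_succ, Nat.choose_succ_succ' m 1, Nat.choose_one_right, add_comm]

theorem prime_not_dvd_choose {p : ℕ} (hp : p.Prime) {e : ℕ} (h : ¬ p ∣ (p ^ e).choose 2) :
    p = 2 ∧ e = 1 := by
  have h2 : (p ^ e).choose 2 * 2 = p ^ e * (p ^ e - 1) := by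
    rw [Nat.choose_two_right, Nat.div_mul_cancel]
    exact (Nat.even_mul_pred_self _).two_dvd
  rcases e with _ | e
  · simp at h
  by_cases hp2 : p = 2
  · refine ⟨hp2, ?_⟩
    subst hp2
    rcases e with _ | e
    · rfl
    · exfalso
      apply h
      have h3 : (2 ^ (e + 1 + 1)).choose 2 = 2 * (2 ^ e * (2 ^ (e + 1 + 1) - 1)) := by
        have h4 : 2 ^ (e + 1 + 1) = 2 * (2 * 2 ^ e) := by ring
        have h5 : (2 ^ (e + 1 + 1)).choose 2 * 2 = 2 * (2 ^ e * (2 ^ (e + 1 + 1) - 1)) * 2 := by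
          rw [h2]
          generalize hw : 2 ^ (e + 1 + 1) - 1 = w
          rw [h4]; ring
        omega
      exact ⟨_, h3⟩
  · exfalso
    have h3 : p ∣ (p ^ (e + 1)).choose 2 * 2 := by
      rw [h2]
      exact Dvd.dvd.mul_right (dvd_pow_self p (by omega)) _
    rcases (Nat.Prime.dvd_mul hp).1 h3 with h4 | h4
    · exact h h4
    · exact hp2 ((Nat.prime_dvd_prime_iff_eq hp Nat.prime_two).1 h4)

/-- A torsion `p`-group all of whose cyclic subgroups are normal and which is not abelian contains a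
quaternion group of order eight. -/
theorem dedekind {p : ℕ} [hp : Fact p.Prime]
    (htor : ∀ h : H, ∃ n, orderOf h = p ^ n)
    (hnorm : ∀ h : H, (Subgroup.zpowers h).Normal)
    (hna : ∃ a b : H, a * b ≠ b * a) :
    p = 2 ∧ ∃ y z : H, y ^ 4 = 1 ∧ y ^ 2 ≠ 1 ∧ z ^ 2 = y ^ 2 ∧ y * z * y⁻¹ * z⁻¹ = y ^ 2 := by
  classical
  have hex : ∃ n : ℕ, ∃ y z : H, y * z ≠ z * y ∧ orderOf y + orderOf z = n := by
    obtain ⟨a, b, hab⟩ := hna
    exact ⟨_, a, b, hab, rfl⟩
  obtain ⟨y₀, z₀, hne₀, hsum₀⟩ := Nat.find_spec hex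
  have hmin₀ : ∀ y' z' : H, y' * z' ≠ z' * y' → orderOf y₀ + orderOf z₀ ≤ orderOf y' + orderOf z' := by
    intro y' z' h
    rw [hsum₀]
    exact Nat.find_min' hex ⟨y', z', h, rfl⟩
  obtain ⟨y, z, hne, hmin, hle⟩ : ∃ y z : H, y * z ≠ z * y ∧
      (∀ y' z' : H, y' * z' ≠ z' * y' → orderOf y + orderOf z ≤ orderOf y' + orderOf z') ∧
      orderOf z ≤ orderOf y := by
    rcases le_total (orderOf z₀) (orderOf y₀) with h | h
    · exact ⟨y₀, z₀, hne₀, hmin₀, h⟩
    · exact ⟨z₀, y₀, hne₀.symm, fun y' z' h' => by rw [add_comm]; exact hmin₀ y' z' h', h⟩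
  obtain ⟨a, ha⟩ := htor y
  obtain ⟨b, hb⟩ := htor z
  have hp1 : 1 < p := hp.out.one_lt
  have hab : b ≤ a := by
    rw [ha, hb] at hle
    exact (Nat.pow_le_pow_iff_right hp1).1 hle
  have hb0 : b ≠ 0 := by
    rintro rfl
    rw [pow_zero, orderOf_eq_one_iff] at hb
    exact hne (by rw [hb]; simp)
  have ha0 : a ≠ 0 := by omega
  set c := y * z * y⁻¹ * z⁻¹ with hc
  have hcy : c ∈ Subgroup.zpowers y := by
    have h1 := (hnorm y).conj_mem _ (Subgroup.inv_mem _ (Subgroup.mem_zpowers y)) z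
    have h2 : c = y * (z * y⁻¹ * z⁻¹) := by rw [hc]; group
    rw [h2]
    exact Subgroup.mul_mem _ (Subgroup.mem_zpowers y) h1
  have hcz : c ∈ Subgroup.zpowers z := by
    have h1 := (hnorm z).conj_mem _ (Subgroup.mem_zpowers z) y
    rw [hc]
    exact Subgroup.mul_mem _ h1 (Subgroup.inv_mem _ (Subgroup.mem_zpowers z))
  obtain ⟨k, hk⟩ := Subgroup.mem_zpowers_iff.1 hcy
  obtain ⟨l, hl⟩ := Subgroup.mem_zpowers_iff.1 hcz
  have ccy : Commute c y := by rw [← hk]; exact (Commute.refl y).zpow_left k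
  have ccz : Commute c z := by rw [← hl]; exact (Commute.refl z).zpow_left l
  have hyz : y * z = c * z * y := by rw [hc]; group
  have hc1 : c ≠ 1 := by
    intro h
    rw [h, one_mul] at hyz
    exact hne hyz
  -- `c ^ p = 1`
  have hcp : c ^ p = 1 := by
    have h1 : y ^ p * z = z * y ^ p := by
      by_contra hcon
      have h2 := hmin _ _ hcon
      have h3 : orderOf (y ^ p) < orderOf y := by
        rw [orderOf_pow_of_dvd hp.out.ne_zero (by rw [ha]; exact dvd_pow_self p ha0)]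
        exact Nat.div_lt_self (by rw [ha]; exact pow_pos hp.out.pos _) hp1
      omega
    have h4 := pow_swap hyz ccy p
    rw [h1, mul_assoc] at h4
    exact mul_eq_right.1 h4.symm
  -- `c` is a power of `y ^ p ^ (a - 1)` and of `z ^ p ^ (b - 1)`
  have key : ∀ (w : H) (e : ℕ) (j : ℤ), e ≠ 0 → orderOf w = p ^ e → w ^ j = c →
      ∃ j' : ℤ, (w ^ (p ^ (e - 1))) ^ j' = c := by
    intro w e j he hw hj
    have h1 : w ^ (j * p) = 1 := by
      rw [zpow_mul, hj, zpow_natCast, hcp]
    have h2 : ((p ^ e : ℕ) : ℤ) ∣ j * p := by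
      rw [← hw]
      exact orderOf_dvd_iff_zpow_eq_one.2 h1
    obtain ⟨f, rfl⟩ : ∃ f, e = f + 1 := ⟨e - 1, by omega⟩
    have h3 : ((p ^ f : ℕ) : ℤ) ∣ j := by
      obtain ⟨t, ht⟩ := h2
      refine ⟨t, ?_⟩
      have hp0 : (p : ℤ) ≠ 0 := by exact_mod_cast hp.out.ne_zero
      apply mul_right_cancel₀ hp0
      rw [ht]
      push_cast
      ring
    obtain ⟨t, ht⟩ := h3
    refine ⟨t, ?_⟩
    rw [add_tsub_cancel_right, ← hj, ht, zpow_mul, zpow_natCast]
  obtain ⟨k', hk'⟩ := key y a k ha0 ha hk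
  obtain ⟨l', hl'⟩ := key z b l hb0 hb hl
  have hgy : (y ^ (p ^ (a - 1))) ^ p = 1 := by
    rw [← pow_mul, ← pow_succ, Nat.sub_add_cancel (by omega), ← ha]
    exact pow_orderOf_eq_one y
  have hgz : (z ^ (p ^ (b - 1))) ^ p = 1 := by
    rw [← pow_mul, ← pow_succ, Nat.sub_add_cancel (by omega), ← hb]
    exact pow_orderOf_eq_one z
  -- `z ^ p ^ (b - 1)` is a power of `c`
  have hmemz : z ^ (p ^ (b - 1)) ∈ Subgroup.zpowers c := by
    rw [← hl']
    apply mem_zpowers_of_coprime hgz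
    have h1 : ¬ (p : ℤ) ∣ l' := by
      rintro ⟨t, rfl⟩
      rw [zpow_mul, zpow_natCast, hgz, one_zpow] at hl'
      exact hc1 hl'.symm
    rw [Int.gcd_comm]
    rcases (Nat.dvd_prime hp.out).1 (by
      have := Int.gcd_dvd_left (p : ℤ) l'
      exact_mod_cast this : Int.gcd (p : ℤ) l' ∣ p) with h | h
    · exact h
    · exfalso
      apply h1
      have h2 := Int.gcd_dvd_right (p : ℤ) l'
      rw [h] at h2
      exact h2
  obtain ⟨r, hr⟩ : ∃ r : ℕ, (z ^ (p ^ (b - 1)))⁻¹ = (y ^ (p ^ (a - 1))) ^ r := by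
    have h1 : (z ^ (p ^ (b - 1)))⁻¹ ∈ Subgroup.zpowers (y ^ (p ^ (a - 1))) := by
      apply Subgroup.inv_mem
      have h2 : Subgroup.zpowers c ≤ Subgroup.zpowers (y ^ (p ^ (a - 1))) := by
        rw [Subgroup.zpowers_le, ← hk']
        exact Subgroup.zpow_mem_zpowers _ _
      exact h2 hmemz
    have h3 : IsOfFinOrder (y ^ (p ^ (a - 1))) :=
      isOfFinOrder_iff_pow_eq_one.2 ⟨p, hp.out.pos, hgy⟩
    rw [← h3.mem_powers_iff_mem_zpowers] at h1
    obtain ⟨r, hr⟩ := h1
    exact ⟨r, hr.symm⟩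
  -- the modified element
  set u := y ^ (p ^ (a - b) * r) with hu
  have huz := pow_swap hyz ccy (p ^ (a - b) * r)
  rw [← hu] at huz
  set d := c ^ (p ^ (a - b) * r) with hd
  have hdu : Commute d u := (ccy.pow_left _).pow_right _
  have hdz : Commute d z := ccz.pow_left _
  have hm := mul_pow_class_two huz hdu hdz (p ^ (b - 1))
  have h1 : z ^ (p ^ (b - 1)) * u ^ (p ^ (b - 1)) = 1 := by
    have h2 : u ^ (p ^ (b - 1)) = (y ^ (p ^ (a - 1))) ^ r := by
      rw [hu, ← pow_mul, ← pow_mul]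
      congr 1
      have h3 : p ^ (a - 1) = p ^ (a - b) * p ^ (b - 1) := by
        rw [← pow_add]; congr 1; omega
      rw [h3]; ring
    rw [h2, ← hr, mul_inv_cancel]
  rw [mul_assoc, h1, mul_one, hd, ← pow_mul] at hm
  have hnc : y * (z * u) ≠ (z * u) * y := by
    intro h
    apply hne
    have hyu : Commute y u := (Commute.refl y).pow_right _
    have h2 : Commute y (z * u * u⁻¹) := (show Commute y (z * u) from h).mul_right hyu.inv_right
    rw [mul_inv_cancel_right] at h2
    exact h2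
  have hnd : ¬ p ∣ (p ^ (a - b) * r) * (p ^ (b - 1)).choose 2 := by
    rintro ⟨t, ht⟩
    rw [ht, pow_mul, hcp, one_pow] at hm
    have h2 := hmin _ _ hnc
    have h3 : orderOf (z * u) ≤ p ^ (b - 1) :=
      orderOf_le_of_pow_eq_one (pow_pos hp.out.pos _) hm
    have h4 : p ^ (b - 1) < p ^ b := Nat.pow_lt_pow_right hp1 (by omega)
    omega
  have hab2 : a = b := by
    by_contra hcon
    apply hnd
    have : p ∣ p ^ (a - b) := dvd_pow_self p (by omega)
    exact (this.mul_right _).mul_right _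
  obtain ⟨hp2, hb2⟩ := prime_not_dvd_choose hp.out (fun h => hnd (h.mul_left _))
  have hb3 : b = 2 := by omega
  subst hab2 hp2 hb3
  simp only [show (2 : ℕ) - 1 = 1 from rfl, pow_one] at hk' hl' hgy hgz
  -- `c = y ^ 2` and `c = z ^ 2`
  have two : ∀ (g : H) (j : ℤ), g ^ 2 = 1 → g ^ j = c → g = c := by
    intro g j hg hj
    rcases Int.even_or_odd' j with ⟨i, hi | hi⟩
    · rw [hi, zpow_mul] at hj
      have : g ^ (2 : ℤ) = 1 := by exact_mod_cast hg
      rw [this, one_zpow] at hj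
      exact absurd hj.symm hc1
    · rw [hi, zpow_add, zpow_mul] at hj
      have : g ^ (2 : ℤ) = 1 := by exact_mod_cast hg
      rw [this, one_zpow, one_mul, zpow_one] at hj
      exact hj
  have hy2 := two _ _ hgy hk'
  have hz2 := two _ _ hgz hl'
  refine ⟨rfl, y, z, ?_, ?_, ?_, ?_⟩
  · rw [show (4 : ℕ) = 2 * 2 from rfl, pow_mul, hgy]
  · rw [hy2]; exact hc1
  · rw [hy2, hz2]
  · rw [← hc, hy2]

end dedekind

variable {G : Type u} [Group G] [TopologicalSpace G] [IsTopologicalGroup G]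

section profinite

variable [CompactSpace G] [T2Space G] [TotallyDisconnectedSpace G]

theorem exists_pow_eq_one {p : ℕ} [Fact p.Prime] (hp : IsProP p G) {g : G}
    (hg : IsOfFinOrder g) : ∃ e : ℕ, g ^ (p ^ e) = 1 := by
  obtain ⟨e, k, hk, hek⟩ := Nat.exists_eq_pow_mul_and_not_dvd (n := orderOf g)
    (orderOf_ne_zero_iff.2 hg) p (Fact.out : p.Prime).ne_one
  refine ⟨e, ?_⟩
  by_contra hne
  obtain ⟨V, hVn, hVo, hV⟩ := exists_open (O := {g ^ (p ^ e)}ᶜ) isOpen_compl_singleton
    (Ne.symm hne)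
  obtain ⟨m, hm⟩ := hp V hVn hVo
  have h1 : (g ^ (p ^ e)) ^ (p ^ m) ∈ V := hm ▸ V.pow_index_mem _
  have h2 : (g ^ (p ^ e)) ^ k = 1 := by
    rw [← pow_mul, ← hek]
    exact pow_orderOf_eq_one g
  have h3 : Int.gcd (p ^ m : ℕ) k = 1 := by
    rw [Int.gcd_natCast_natCast]
    exact Nat.Coprime.pow_left m (((Fact.out : p.Prime).coprime_iff_not_dvd).2 hk)
  have h4 := mem_zpowers_of_coprime h2 h3
  have h5 : Subgroup.zpowers ((g ^ (p ^ e)) ^ ((p ^ m : ℕ) : ℤ)) ≤ V := by
    rw [Subgroup.zpowers_le, zpow_natCast]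
    exact h1
  exact hV (h5 h4) rfl

omit [CompactSpace G] [TotallyDisconnectedSpace G] in
theorem isClosed_zpowers {g : G} (hg : IsOfFinOrder g) :
    IsClosed ((Subgroup.zpowers g : Subgroup G) : Set G) := (finite_zpowers.2 hg).isClosed

omit [TopologicalSpace G] [IsTopologicalGroup G] [CompactSpace G] [T2Space G]
  [TotallyDisconnectedSpace G] in
/-- An element `v` with `v ^ 4 = 1` whose square is nontrivial modulo `N`: if a power of `v` lies
in `N` then it is trivial. -/
theorem zpow_eq_one_of_mem {N : Subgroup G} {v : G} (h4 : v ^ 4 = 1) (h2 : v ^ 2 ∉ N) {k : ℤ}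
    (hk : v ^ k ∈ N) : v ^ k = 1 := by
  have e4 : v ^ (4 : ℤ) = 1 := by exact_mod_cast h4
  have h0 : k % 4 = 0 ∨ k % 4 = 1 ∨ k % 4 = 2 ∨ k % 4 = 3 := by omega
  have hdiv := Int.emod_add_mul_ediv k 4
  have hred : v ^ k = v ^ (k % 4) := by
    conv_lhs => rw [← hdiv]
    rw [zpow_add, zpow_mul, e4, one_zpow, mul_one]
  rcases h0 with h | h | h | h
  · rw [hred, h, zpow_zero]
  · exfalso
    rw [hred, h, zpow_one] at hk
    exact h2 (N.pow_mem hk 2)
  · exfalso
    rw [hred, h] at hk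
    exact h2 (by exact_mod_cast hk)
  · exfalso
    rw [hred, h] at hk
    have h5 : v ^ (3 : ℤ) * v ^ (3 : ℤ) = v ^ 2 := by
      rw [← zpow_add, show (3 : ℤ) + 3 = 4 + 2 by norm_num, zpow_add, e4, one_mul]
      norm_cast
    exact h2 (h5 ▸ N.mul_mem hk hk)

omit [CompactSpace G] [TotallyDisconnectedSpace G] in
/-- The final contradiction: if `x ∉ STilde G` commutes with `u` and `z`, `u ^ 2 = c` is a
nontrivial involution modulo `⟨x⟩`, `u z = c z u`, and `x u ∉ STilde G`, then `x` is central. -/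
theorem final {x u z c : G} (hper : ∀ g : G, IsOfFinOrder g) (hx : x ∉ STilde G) {e : ℕ}
    (hxe : x ^ (2 ^ e) = 1) (hxu : Commute x u) (hxz : Commute x z) (hu : u ^ 2 = c)
    (hc2 : c ^ 2 = 1) (hcN : c ∉ Subgroup.zpowers x) (huz : u * z = c * z * u)
    (hS : x * u ∉ STilde G) (g : G) : x * g = g * x := by
  have hn := normal_of_mem hS (isClosed_zpowers (hper _)) (Subgroup.mem_zpowers _)
  have hcx : Commute x c := hu ▸ hxu.pow_right 2
  have h1 : c ∈ Subgroup.zpowers (x * u) := by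
    have h2 := hn.conj_mem _ (Subgroup.inv_mem _ (Subgroup.mem_zpowers (x * u))) z
    have h3 := Subgroup.mul_mem _ (Subgroup.mem_zpowers (x * u)) h2
    have h4 : x * u * (z * (x * u)⁻¹ * z⁻¹) = c := by
      have h5 : x * u * z = c * (z * (x * u)) := by
        calc x * u * z = x * (u * z) := by group
          _ = x * c * z * u := by rw [huz]; group
          _ = c * (x * z) * u := by rw [hcx.eq]; group
          _ = c * (z * (x * u)) := by rw [hxz.eq]; group
      calc x * u * (z * (x * u)⁻¹ * z⁻¹) = (x * u * z) * (z * (x * u))⁻¹ := by group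
        _ = c := by rw [h5]; group
    rw [h4] at h3
    exact h3
  obtain ⟨k, hk⟩ := Subgroup.mem_zpowers_iff.1 h1
  rw [hxu.mul_zpow] at hk
  have u4 : u ^ 4 = 1 := by rw [show (4 : ℕ) = 2 * 2 from rfl, pow_mul, hu, hc2]
  have h6 : u ^ (k - 2) ∈ Subgroup.zpowers x := by
    have h7 : u ^ (k - 2) = (x ^ k)⁻¹ * (c * (u ^ 2)⁻¹) := by
      rw [← hk, zpow_sub]
      have : u ^ (2 : ℤ) = u ^ 2 := by norm_cast
      rw [this]; group
    rw [h7, hu, mul_inv_cancel, mul_one]
    exact Subgroup.inv_mem _ (Subgroup.zpow_mem_zpowers _ _)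
  have h8 := zpow_eq_one_of_mem u4 (by rw [hu]; exact hcN) h6
  have h9 : u ^ k = c := by
    rw [zpow_sub, mul_inv_eq_one] at h8
    rw [h8, ← hu]
    norm_cast
  have h10 : x ^ k = 1 := by
    rw [h9] at hk
    exact mul_eq_right.1 hk
  -- `k` is twice an odd number
  have h11 : k % 4 = 2 := by
    have hdiv := Int.emod_add_mul_ediv (k - 2) 4
    have e4 : u ^ (4 : ℤ) = 1 := by exact_mod_cast u4
    have hred : u ^ ((k - 2) % 4) = 1 := by
      rw [← h8]
      conv_rhs => rw [← hdiv]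
      rw [zpow_add, zpow_mul, e4, one_zpow, mul_one]
    have h0 : (k - 2) % 4 = 0 ∨ (k - 2) % 4 = 1 ∨ (k - 2) % 4 = 2 ∨ (k - 2) % 4 = 3 := by omega
    have hu2 : u ^ 2 ≠ 1 := by
      rw [hu]; intro h; exact hcN (h ▸ Subgroup.one_mem _)
    rcases h0 with h | h | h | h
    · omega
    · exfalso
      rw [h, zpow_one] at hred
      exact hu2 (by rw [hred, one_pow])
    · exfalso
      rw [h] at hred
      exact hu2 (by exact_mod_cast hred)
    · exfalso
      rw [h] at hred
      have : u = 1 := by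
        have h5 : u ^ (3 : ℤ) * u = 1 := by
          rw [← e4, show (4 : ℤ) = 3 + 1 by norm_num, zpow_add, zpow_one]
        rw [hred, one_mul] at h5
        exact h5
      exact hu2 (by rw [this, one_pow])
  have hx2 : x ^ 2 = 1 := by
    obtain ⟨i, hi⟩ : ∃ i, k = 2 * (2 * i + 1) := ⟨k / 4, by omega⟩
    have h12 : (x ^ 2) ^ (2 ^ e) = 1 := by
      rw [← pow_mul, mul_comm, pow_mul, hxe, one_pow]
    have h13 : Int.gcd (2 * i + 1) (2 ^ e : ℕ) = 1 := by
      have : IsCoprime (2 * i + 1) ((2 ^ e : ℕ) : ℤ) := by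
        push_cast
        apply IsCoprime.pow_right
        exact ⟨1, -i, by ring⟩
      exact Int.isCoprime_iff_gcd_eq_one.1 this
    have h14 := mem_zpowers_of_coprime h12 h13
    have h15 : (x ^ 2) ^ (2 * i + 1) = 1 := by
      rw [← h10, hi, zpow_mul]
      norm_cast
    rw [h15, Subgroup.zpowers_one_eq_bot, Subgroup.mem_bot] at h14
    exact h14
  -- so `x` is central
  have hnx := normal_of_mem hx (isClosed_zpowers (hper _)) (Subgroup.mem_zpowers _)
  have h16 := hnx.conj_mem _ (Subgroup.mem_zpowers x) g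
  obtain ⟨j, hj⟩ := Subgroup.mem_zpowers_iff.1 h16
  have x2 : x ^ (2 : ℤ) = 1 := by exact_mod_cast hx2
  rcases Int.even_or_odd' j with ⟨i, hi | hi⟩
  · rw [hi, zpow_mul, x2, one_zpow] at hj
    have h17 : x = 1 := by
      have : g * x = g := by
        have h18 : g * x * g⁻¹ * g = g := by rw [← hj, one_mul]
        simpa using h18
      exact mul_eq_left.1 this
    rw [h17]; simp
  · rw [hi, zpow_add, zpow_mul, x2, one_zpow, one_mul, zpow_one] at hj
    have h18 : x * g = g * x * g⁻¹ * g := by rw [← hj]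
    rw [h18]; group

theorem quotient_comm {p : ℕ} [hpp : Fact p.Prime] (hp : IsProP p G)
    (hper : ∀ g : G, IsOfFinOrder g) {x : G} (hx : x ∉ STilde G) (hxg : ∃ g : G, x * g ≠ g * x)
    (N : Subgroup G) (hNdef : N = Subgroup.zpowers x)
    [hN : N.Normal] (a b : G ⧸ N) : a * b = b * a := by
  by_contra hab
  set π := QuotientGroup.mk' N with hπ
  have hπs : Function.Surjective π := QuotientGroup.mk'_surjective N
  have hπx : π x = 1 := (QuotientGroup.eq_one_iff x).2 (hNdef ▸ Subgroup.mem_zpowers x)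
  have hπN : ∀ g : G, π g = 1 ↔ g ∈ N := fun g => QuotientGroup.eq_one_iff g
  have htor : ∀ h : G ⧸ N, ∃ n, orderOf h = p ^ n := by
    intro h
    obtain ⟨g, rfl⟩ := hπs h
    obtain ⟨e, he⟩ := exists_pow_eq_one hp (hper g)
    have h1 : orderOf (π g) ∣ p ^ e := by
      apply orderOf_dvd_of_pow_eq_one
      rw [← map_pow, he, map_one]
    obtain ⟨n, -, hn⟩ := (Nat.dvd_prime_pow hpp.out).1 h1
    exact ⟨n, hn⟩
  have hnorm : ∀ h : G ⧸ N, (Subgroup.zpowers h).Normal := by
    intro h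
    obtain ⟨g, rfl⟩ := hπs h
    have hL : (Subgroup.zpowers g ⊔ N).Normal := by
      apply normal_of_mem hx
      · rw [Subgroup.mul_normal, hNdef]
        exact ((finite_zpowers.2 (hper g)).mul (finite_zpowers.2 (hper x))).isClosed
      · exact (le_sup_right : N ≤ _) (hNdef ▸ Subgroup.mem_zpowers x)
    have hmap : (Subgroup.zpowers g ⊔ N).map π = Subgroup.zpowers (π g) := by
      rw [Subgroup.map_sup, MonoidHom.map_zpowers, (Subgroup.map_eq_bot_iff N).2, sup_bot_eq]
      rw [hπ, QuotientGroup.ker_mk']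
    rw [← hmap]
    exact hL.map π hπs
  obtain ⟨hp2, y₁, z₁, hy4, hy2, hz2, hyz⟩ := dedekind (p := p) htor hnorm ⟨a, b, hab⟩
  subst hp2
  -- lifts outside `STilde G`
  have lift : ∀ h : G ⧸ N, ∃ g : G, π g = h ∧ g ∉ STilde G := by
    intro h
    obtain ⟨g, rfl⟩ := hπs h
    by_cases hg : g ∈ STilde G
    · refine ⟨g * x, by rw [map_mul, hπx, mul_one], fun h => hx ?_⟩
      have := (STilde G).mul_mem ((STilde G).inv_mem hg) h
      simpa using this
    · exact ⟨g, rfl, hg⟩
  obtain ⟨y, hy, hyS⟩ := lift y₁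
  obtain ⟨z, hz, hzS⟩ := lift z₁
  have hny := normal_of_mem hyS (isClosed_zpowers (hper _)) (Subgroup.mem_zpowers _)
  have hnz := normal_of_mem hzS (isClosed_zpowers (hper _)) (Subgroup.mem_zpowers _)
  set c := y * z * y⁻¹ * z⁻¹ with hc
  have hcy : c ∈ Subgroup.zpowers y := by
    have h1 := hny.conj_mem _ (Subgroup.inv_mem _ (Subgroup.mem_zpowers y)) z
    have h2 : c = y * (z * y⁻¹ * z⁻¹) := by rw [hc]; group
    rw [h2]
    exact Subgroup.mul_mem _ (Subgroup.mem_zpowers y) h1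
  have hcz : c ∈ Subgroup.zpowers z := by
    have h1 := hnz.conj_mem _ (Subgroup.mem_zpowers z) y
    rw [hc]
    exact Subgroup.mul_mem _ h1 (Subgroup.inv_mem _ (Subgroup.mem_zpowers z))
  have hπc : π c = y₁ ^ 2 := by
    rw [hc, map_mul, map_mul, map_mul, map_inv, map_inv, hy, hz, hyz]
  have hcN : c ∉ N := by
    rw [← hπN, hπc]; exact hy2
  have ccy : Commute c y := by
    obtain ⟨k, hk⟩ := Subgroup.mem_zpowers_iff.1 hcy
    rw [← hk]; exact (Commute.refl y).zpow_left k
  have ccz : Commute c z := by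
    obtain ⟨k, hk⟩ := Subgroup.mem_zpowers_iff.1 hcz
    rw [← hk]; exact (Commute.refl z).zpow_left k
  have hyz' : y * z = c * z * y := by rw [hc]; group
  have hzy' : z * y = c⁻¹ * y * z := by
    have h1 : c⁻¹ * (y * z) = z * y := by rw [hyz']; group
    rw [← h1]; group
  -- the square of `y` and of `z` is a power of `c`
  have sq : ∀ w : G, c ∈ Subgroup.zpowers w → (π w) ^ 4 = 1 → (π w) ^ 2 = π c →
      w ^ 2 ∈ Subgroup.zpowers c := by
    intro w hw h4 h2
    obtain ⟨k, hk⟩ := Subgroup.mem_zpowers_iff.1 hw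
    have e4 : (π w) ^ (4 : ℤ) = 1 := by exact_mod_cast h4
    have hne : (π w) ^ 2 ≠ 1 := by rw [h2, hπc]; exact hy2
    have h5 : (π w) ^ k = (π w) ^ 2 := by rw [h2, ← hk, map_zpow]
    have h6 : k % 4 = 2 := by
      have hdiv := Int.emod_add_mul_ediv k 4
      have hred : (π w) ^ k = (π w) ^ (k % 4) := by
        conv_lhs => rw [← hdiv]
        rw [zpow_add, zpow_mul, e4, one_zpow, mul_one]
      have h0 : k % 4 = 0 ∨ k % 4 = 1 ∨ k % 4 = 2 ∨ k % 4 = 3 := by omega
      rw [hred] at h5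
      rcases h0 with h | h | h | h
      · rw [h, zpow_zero] at h5
        exact absurd h5.symm hne
      · rw [h, zpow_one, pow_two] at h5
        have h7 : π w = 1 := (mul_eq_left.1 h5.symm)
        exact absurd (by rw [h7, one_pow]) hne
      · exact h
      · rw [h] at h5
        have h7 : π w = 1 := by
          have h8 : (π w) ^ (3 : ℤ) = (π w) ^ 2 * π w := by
            rw [show (3 : ℤ) = 2 + 1 by norm_num, zpow_add, zpow_one]; norm_cast
          rw [h8] at h5
          exact mul_eq_left.1 h5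
        exact absurd (by rw [h7, one_pow]) hne
    obtain ⟨i, hi⟩ : ∃ i, k = 2 * (2 * i + 1) := ⟨k / 4, by omega⟩
    obtain ⟨e, he⟩ := exists_pow_eq_one hp (hper w)
    have h12 : (w ^ 2) ^ (2 ^ e) = 1 := by
      rw [← pow_mul, mul_comm, pow_mul, he, one_pow]
    have h13 : Int.gcd (2 * i + 1) (2 ^ e : ℕ) = 1 := by
      have : IsCoprime (2 * i + 1) ((2 ^ e : ℕ) : ℤ) := by
        push_cast
        apply IsCoprime.pow_right
        exact ⟨1, -i, by ring⟩
      exact Int.isCoprime_iff_gcd_eq_one.1 this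
    have h14 := mem_zpowers_of_coprime h12 h13
    have h15 : (w ^ 2) ^ (2 * i + 1) = c := by
      rw [← hk, hi, zpow_mul]
      norm_cast
    rw [h15] at h14
    exact h14
  have hy2c : y ^ 2 ∈ Subgroup.zpowers c := sq y hcy (by rw [hy]; exact hy4) (by rw [hy, hπc])
  have hz2c : z ^ 2 ∈ Subgroup.zpowers c := sq z hcz
    (by rw [hz, show (4 : ℕ) = 2 * 2 from rfl, pow_mul, hz2, ← pow_mul]; exact hy4)
    (by rw [hz, hπc, hz2])
  have hc2 : c ^ 2 = 1 := by
    have h1 := pow_swap hyz' ccy 2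
    have h2 : Commute (y ^ 2) z := by
      obtain ⟨k, hk⟩ := Subgroup.mem_zpowers_iff.1 hy2c
      rw [← hk]; exact ccz.zpow_left k
    rw [h2.eq, mul_assoc] at h1
    exact mul_eq_right.1 h1.symm
  have c2 : c ^ (2 : ℤ) = 1 := by exact_mod_cast hc2
  have sq2 : ∀ w : G, w ^ 2 ∈ Subgroup.zpowers c → w ^ 2 ∉ N → w ^ 2 = c := by
    intro w hw hwN
    obtain ⟨j, hj⟩ := Subgroup.mem_zpowers_iff.1 hw
    rcases Int.even_or_odd' j with ⟨i, hi | hi⟩
    · rw [hi, zpow_mul, c2, one_zpow] at hj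
      exact absurd (hj ▸ Subgroup.one_mem _) hwN
    · rw [hi, zpow_add, zpow_mul, c2, one_zpow, one_mul, zpow_one] at hj
      exact hj.symm
  have hy2' : y ^ 2 = c := sq2 y hy2c (by rw [← hπN, map_pow, hy]; exact hy2)
  have hz2' : z ^ 2 = c := sq2 z hz2c (by rw [← hπN, map_pow, hz, hz2]; exact hy2)
  -- `x` commutes with `y` and `z`
  have comm : ∀ w : G, w ^ 2 = c → (Subgroup.zpowers w).Normal → Commute x w := by
    intro w hw hnw
    have h4 : w ^ 4 = 1 := by rw [show (4 : ℕ) = 2 * 2 from rfl, pow_mul, hw, hc2]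
    have h1 : x * w * x⁻¹ * w⁻¹ ∈ Subgroup.zpowers w :=
      Subgroup.mul_mem _ (hnw.conj_mem _ (Subgroup.mem_zpowers w) x)
        (Subgroup.inv_mem _ (Subgroup.mem_zpowers w))
    have h2 : x * w * x⁻¹ * w⁻¹ ∈ N := by
      have hxN : x ∈ N := hNdef ▸ Subgroup.mem_zpowers x
      have h3 := hN.conj_mem _ (Subgroup.inv_mem _ hxN) w
      have h5 : x * w * x⁻¹ * w⁻¹ = x * (w * x⁻¹ * w⁻¹) := by group
      rw [h5]
      exact Subgroup.mul_mem _ hxN h3
    obtain ⟨k, hk⟩ := Subgroup.mem_zpowers_iff.1 h1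
    rw [← hk] at h2
    have h6 := zpow_eq_one_of_mem h4 (by rw [hw]; exact hcN) h2
    rw [h6] at hk
    have h7 : x * w * x⁻¹ * w⁻¹ * (w * x) = x * w := by group
    rw [← hk, one_mul] at h7
    exact h7.symm
  have hxy := comm y hy2' hny
  have hxz := comm z hz2' hnz
  rw [hNdef] at hcN
  obtain ⟨e, he⟩ := exists_pow_eq_one hp (hper x)
  obtain ⟨g, hg⟩ := hxg
  apply hg
  by_cases h1 : x * y ∈ STilde G
  · by_cases h2 : x * z ∈ STilde G
    · have h3 : y⁻¹ * z ∈ STilde G := by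
        have h4 := (STilde G).mul_mem ((STilde G).inv_mem h1) h2
        have h5 : (x * y)⁻¹ * (x * z) = y⁻¹ * z := by group
        rwa [h5] at h4
      have h4 : x * (y⁻¹ * z) ∉ STilde G := fun h => hx (by
        have := (STilde G).mul_mem h ((STilde G).inv_mem h3)
        rwa [mul_inv_cancel_right] at this)
      have cinv : c⁻¹ = c := by
        rw [inv_eq_iff_mul_eq_one, ← pow_two, hc2]
      have hyinv : y⁻¹ = c * y := by
        rw [inv_eq_iff_mul_eq_one, ← mul_assoc, ← ccy.eq, mul_assoc, ← pow_two, hy2', ← pow_two,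
          hc2]
      rw [cinv] at hzy'
      refine final hper hx he (hxy.inv_right.mul_right hxz) hxz ?_ hc2 hcN (z := z) ?_ h4 g
      · rw [hyinv]
        have h5 : (c * (y * z)) ^ 2 = c ^ 2 * (y * z) ^ 2 := (ccy.mul_right ccz).mul_pow 2
        calc (c * y * z) ^ 2 = (c * (y * z)) ^ 2 := by rw [mul_assoc]
          _ = y * (z * y) * z := by rw [h5, hc2, one_mul, pow_two]; group
          _ = (y * c) * y * z * z := by rw [hzy']; group
          _ = c * y ^ 2 * z ^ 2 := by rw [← ccy.eq, pow_two, pow_two]; group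
          _ = c := by rw [hy2', hz2', ← pow_two, hc2, one_mul]
      · rw [hyinv]
        calc c * y * z * z = c * c * c * y * z * z := by
              rw [← pow_two c, hc2, one_mul]
          _ = c * (c * (c * y * z)) * z := by group
          _ = c * (c * (z * y)) * z := by rw [hzy']
          _ = c * (z * c) * y * z := by rw [← ccz.eq]; group
          _ = c * z * (c * y * z) := by group
    · refine final hper hx he hxz hxy hz2' hc2 hcN (z := y) ?_ h2 g
      have cinv : c⁻¹ = c := by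
        rw [inv_eq_iff_mul_eq_one, ← pow_two, hc2]
      rw [hzy', cinv]
  · exact final hper hx he hxy hxz hy2' hc2 hcN hyz' h1 g

theorem derived {p : ℕ} [hpp : Fact p.Prime] (hp : IsProP p G) (h1 : STilde G ≠ ⊥)
    (h2 : STilde G ≠ ⊤) : ∃ n : ℕ, 1 ≤ n ∧
      Nonempty ((commutator G).topologicalClosure ≃* Multiplicative (ZMod (p ^ n))) := by
  have hna : ∃ a b : G, a * b ≠ b * a := by
    by_contra hcon
    push Not at hcon
    apply h1
    have h3 : {L : Subgroup G | IsClosed (L : Set G) ∧ ¬ L.Normal} = ∅ := by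
      ext L
      simp only [Set.mem_ofPred_eq, Set.mem_empty_iff_false, iff_false, not_and, not_not]
      intro _
      exact ⟨fun n hn g => by rw [hcon g n, mul_inv_cancel_right]; exact hn⟩
    rw [STilde, h3, sSup_empty, eq_bot_iff]
    exact Subgroup.topologicalClosure_minimal _ le_rfl isClosed_singleton
  have hper := periodic hp h2 hna
  obtain ⟨x, hx, hxg⟩ := exists_noncentral h2 hna
  have hnx := normal_of_mem hx (isClosed_zpowers (hper _)) (Subgroup.mem_zpowers _)
  have hle : commutator G ≤ Subgroup.zpowers x := by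
    letI : CommGroup (G ⧸ Subgroup.zpowers x) :=
      { mul_comm := quotient_comm hp hper hx hxg (Subgroup.zpowers x) rfl }
    have h3 := Abelianization.commutator_subset_ker (QuotientGroup.mk' (Subgroup.zpowers x))
    rwa [QuotientGroup.ker_mk'] at h3
  have hfin : ((Subgroup.zpowers x : Subgroup G) : Set G).Finite := finite_zpowers.2 (hper x)
  have hcl : (commutator G).topologicalClosure = commutator G := by
    apply le_antisymm
    · exact Subgroup.topologicalClosure_minimal _ le_rfl (hfin.subset hle).isClosed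
    · exact Subgroup.le_topologicalClosure _
  rw [hcl]
  have hf : Finite (Subgroup.zpowers x) := hfin.to_subtype
  have hf' : Finite (commutator G) := (hfin.subset hle).to_subtype
  have hcyc : IsCyclic (commutator G) :=
    isCyclic_of_injective (Subgroup.inclusion hle) (Subgroup.inclusion_injective hle)
  obtain ⟨e, he⟩ := exists_pow_eq_one hp (hper x)
  have hcard : Nat.card (commutator G) ∣ p ^ e := by
    have h3 : Nat.card (commutator G) ∣ Nat.card (Subgroup.zpowers x) :=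
      Subgroup.card_dvd_of_le hle
    rw [Nat.card_zpowers] at h3
    exact h3.trans (orderOf_dvd_of_pow_eq_one he)
  obtain ⟨n, -, hn⟩ := (Nat.dvd_prime_pow hpp.out).1 hcard
  refine ⟨n, ?_, ?_⟩
  · by_contra hcon
    have hn0 : n = 0 := by omega
    rw [hn0, pow_zero] at hn
    have h3 : commutator G = ⊥ := (Subgroup.card_eq_one).1 hn
    obtain ⟨a, b, hab⟩ := hna
    apply hab
    rw [commutator_eq_bot_iff_center_eq_top] at h3
    have h4 : a ∈ Subgroup.center G := h3 ▸ Subgroup.mem_top a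
    exact ((Subgroup.mem_center_iff.1 h4) b).symm
  · rw [← hn]
    exact ⟨(zmodCyclicMulEquiv hcyc).symm⟩

end profinite

end Q24.Cappitt
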