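import Mathlib

/-!
# Pro-`p` Cappitt groups: definitions
-/

set_option autoImplicit false

namespace Q24.Cappitt

universe u

/-- A profinite topological group is pro-`p` if every open normal subgroup of it has index a power
of `p`. -/
def IsProP (p : ℕ) (G : Type u) [Group G] [TopologicalSpace G] : Prop :=
  ∀ U : Subgroup G, U.Normal → IsOpen (U : Set G) → ∃ n : ℕ, U.index = p ^ n

/-- The closure of the subgroup generated by all closed subgroups of `G` that are not normal
in `G`. -/
def STilde (G : Type u) [Group G] [TopologicalSpace G] [IsTopologicalGroup G] : Subgroup G :=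
  (sSup {L : Subgroup G | IsClosed (L : Set G) ∧ ¬ L.Normal}).topologicalClosure

end Q24.Cappitt
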