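import Mathlib

/-!
# The chain of Demushkin groups: the finite group and the combinatorial identity
-/

set_option autoImplicit false

namespace Q24.Chain

open Finset

section Comb

variable {q : ℕ} {M : Type} [AddCommGroup M]

/-- the sum over an antidiagonal -/
def D (h : ZMod q × ZMod q → M) (n : ℕ) (z : ZMod q × ZMod q) : M :=
  ∑ a ∈ antidiagonal n, h (z + ((a.1 : ZMod q), (a.2 : ZMod q)))

/-- the sum over a triangle -/
def S (h : ZMod q × ZMod q → M) (z : ZMod q × ZMod q) : M :=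
  ∑ n ∈ range (q - 1), D h n z

theorem D_right (h : ZMod q × ZMod q → M) (n : ℕ) (z : ZMod q × ZMod q) :
    D h n (z + (1, 0)) = D h (n + 1) z - h (z + (0, ((n + 1 : ℕ) : ZMod q))) := by
  unfold D
  rw [Finset.Nat.sum_antidiagonal_succ]
  simp only [Nat.cast_zero, add_sub_cancel_left]
  refine Finset.sum_congr rfl fun a _ => ?_
  congr 1
  ext
  · simp; ring
  · simp

theorem D_up (h : ZMod q × ZMod q → M) (n : ℕ) (z : ZMod q × ZMod q) :
    D h n (z + (0, 1)) = D h (n + 1) z - h (z + (((n + 1 : ℕ) : ZMod q), 0)) := by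
  unfold D
  rw [Finset.Nat.sum_antidiagonal_succ']
  simp only [Nat.cast_zero, add_sub_cancel_left]
  refine Finset.sum_congr rfl fun a _ => ?_
  congr 1
  ext
  · simp
  · simp; ring

theorem S_shift (hq : 1 ≤ q) (h : ZMod q × ZMod q → M)
    (h1 : ∀ z, ∑ k ∈ range q, h (z + ((k : ZMod q), 0)) = 0)
    (h2 : ∀ z, ∑ k ∈ range q, h (z + (0, (k : ZMod q))) = 0) (z : ZMod q × ZMod q) :
    S h (z + (1, 0)) = S h (z + (0, 1)) := by
  unfold S
  simp only [D_right, D_up, Finset.sum_sub_distrib]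
  have e1 := h1 z
  have e2 := h2 z
  obtain ⟨m, rfl⟩ : ∃ m, q = m + 1 := ⟨q - 1, by omega⟩
  rw [Finset.sum_range_succ'] at e1 e2
  simp only [Nat.cast_zero] at e1 e2
  have e3 : ∑ k ∈ range m, h (z + (((k + 1 : ℕ) : ZMod (m + 1)), 0)) = - h (z + (0, 0)) :=
    eq_neg_of_add_eq_zero_left e1
  have e4 : ∑ k ∈ range m, h (z + (0, ((k + 1 : ℕ) : ZMod (m + 1)))) = - h (z + (0, 0)) :=
    eq_neg_of_add_eq_zero_left e2
  simp only [Nat.add_sub_cancel]
  rw [e3, e4]

theorem S_const (hq : 1 ≤ q) (h : ZMod q × ZMod q → M)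
    (h1 : ∀ z, ∑ k ∈ range q, h (z + ((k : ZMod q), 0)) = 0)
    (h2 : ∀ z, ∑ k ∈ range q, h (z + (0, (k : ZMod q))) = 0) (z : ZMod q × ZMod q) (k : ℕ) :
    S h (z + (-(k : ZMod q), (k : ZMod q))) = S h z := by
  induction k with
  | zero =>
    have : z + (-((0 : ℕ) : ZMod q), ((0 : ℕ) : ZMod q)) = z := by
      ext <;> simp
    rw [this]
  | succ k ih =>
    have := S_shift hq h h1 h2 (z + (-((k + 1 : ℕ) : ZMod q), (k : ZMod q)))
    rw [← ih]
    have e1 : z + (-((k + 1 : ℕ) : ZMod q), (k : ZMod q)) + (1, 0) =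
        z + (-(k : ZMod q), (k : ZMod q)) := by
      ext
      · simp; ring
      · simp
    have e2 : z + (-((k + 1 : ℕ) : ZMod q), (k : ZMod q)) + (0, 1) =
        z + (-((k + 1 : ℕ) : ZMod q), ((k + 1 : ℕ) : ZMod q)) := by
      ext
      · simp
      · simp; ring
    rw [e1, e2] at this
    exact this.symm

theorem smul_S (hq : 1 ≤ q) (h : ZMod q × ZMod q → M)
    (h1 : ∀ z, ∑ k ∈ range q, h (z + ((k : ZMod q), 0)) = 0)
    (h2 : ∀ z, ∑ k ∈ range q, h (z + (0, (k : ZMod q))) = 0)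
    (h3 : ∀ z, ∑ k ∈ range q, h (z + (-(k : ZMod q), (k : ZMod q))) = 0) (z : ZMod q × ZMod q) :
    q • S h z = 0 := by
  have e : ∑ k ∈ range q, S h (z + (-(k : ZMod q), (k : ZMod q))) = q • S h z := by
    rw [Finset.sum_congr rfl (fun k _ => S_const hq h h1 h2 z k)]
    simp
  rw [← e]
  unfold S D
  rw [Finset.sum_comm]
  refine Finset.sum_eq_zero fun n _ => ?_
  rw [Finset.sum_comm]
  refine Finset.sum_eq_zero fun a _ => ?_
  have := h3 (z + ((a.1 : ZMod q), (a.2 : ZMod q)))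
  rw [← this]
  refine Finset.sum_congr rfl fun k _ => ?_
  congr 1
  abel

/-- the function with value one at the last residue -/
def G0 (q : ℕ) (v : ZMod q) : ZMod q := if v = -1 then 1 else 0

/-- the value of the commutator -/
def g0 (q : ℕ) (v : ZMod q) : ZMod q := G0 q (v + 1) - G0 q v

theorem D_g0 (n : ℕ) (hq : 2 ≤ q) :
    D (fun z : ZMod q × ZMod q => g0 q z.2) n 0 = G0 q ((n + 1 : ℕ) : ZMod q) := by
  have h0 : G0 q 0 = 0 := by
    unfold G0
    rw [if_neg]
    intro h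
    have h' : (1 : ZMod q) = 0 := by
      have := congrArg Neg.neg h
      simpa using this.symm
    have : Fact (1 < q) := ⟨hq⟩
    exact one_ne_zero h'
  unfold D
  simp only [zero_add]
  have e : ∑ a ∈ antidiagonal n, g0 q ((a.2 : ℕ) : ZMod q) =
      ∑ k ∈ range (n + 1), (G0 q ((k + 1 : ℕ) : ZMod q) - G0 q ((k : ℕ) : ZMod q)) := by
    rw [Finset.Nat.sum_antidiagonal_eq_sum_range_succ_mk]
    rw [← Finset.sum_range_reflect]
    refine Finset.sum_congr rfl fun k hk => ?_
    have hk' : k ≤ n := Nat.lt_succ_iff.mp (Finset.mem_range.mp hk)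
    have : n - (n + 1 - 1 - k) = k := by omega
    simp only [this]
    unfold g0
    push_cast
    rfl
  rw [e, Finset.sum_range_sub (fun k : ℕ => G0 q (k : ZMod q))]
  simp [h0]

theorem S_g0 (hq : 2 ≤ q) : S (fun z : ZMod q × ZMod q => g0 q z.2) 0 = 1 := by
  unfold S
  simp only [D_g0 _ hq]
  have key : ∀ n ∈ range (q - 1), G0 q ((n + 1 : ℕ) : ZMod q) = if n = q - 2 then 1 else 0 := by
    intro n hn
    have hn' := Finset.mem_range.mp hn
    unfold G0
    have : (((n + 1 : ℕ) : ZMod q) = -1) ↔ n = q - 2 := by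
      rw [eq_neg_iff_add_eq_zero]
      have e : ((n + 1 : ℕ) : ZMod q) + 1 = ((n + 2 : ℕ) : ZMod q) := by push_cast; ring
      rw [e, ZMod.natCast_eq_zero_iff]
      constructor
      · intro h
        have := Nat.le_of_dvd (by omega) h
        omega
      · rintro rfl
        rw [show q - 2 + 2 = q by omega]
    by_cases hc : n = q - 2
    · rw [if_pos hc, if_pos (this.mpr hc)]
    · rw [if_neg hc, if_neg (fun h => hc (this.mp h))]
  rw [Finset.sum_congr rfl key]
  rw [Finset.sum_ite_eq' (range (q - 1)) (q - 2) (fun _ => (1 : ZMod q))]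
  rw [if_pos (Finset.mem_range.mpr (by omega))]

end Comb

section Grp

/-- The semidirect product of the functions on `(ℤ/q)²` and `(ℤ/q)²`. -/
@[ext]
structure E (q : ℕ) where
  /-- function part -/
  w : ZMod q × ZMod q → ZMod q
  /-- translation part -/
  t : ZMod q × ZMod q

variable {q : ℕ}

instance : Mul (E q) := ⟨fun a b => ⟨fun z => a.w z + b.w (z + a.t), a.t + b.t⟩⟩
instance : One (E q) := ⟨⟨fun _ => 0, 0⟩⟩
instance : Inv (E q) := ⟨fun a => ⟨fun z => - a.w (z - a.t), -a.t⟩⟩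

theorem mul_def (a b : E q) : a * b = ⟨fun z => a.w z + b.w (z + a.t), a.t + b.t⟩ := rfl
theorem one_def : (1 : E q) = ⟨fun _ => 0, 0⟩ := rfl
theorem inv_def (a : E q) : a⁻¹ = ⟨fun z => - a.w (z - a.t), -a.t⟩ := rfl

instance : Group (E q) where
  mul_assoc a b c := by
    simp only [mul_def, E.mk.injEq]
    refine ⟨?_, add_assoc _ _ _⟩
    funext z
    rw [add_assoc, add_assoc]
  one_mul a := by
    simp only [mul_def, one_def]
    ext z
    · simp
    · simp
    · simp
  mul_one a := by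
    simp only [mul_def, one_def]
    ext z
    · simp
    · simp
    · simp
  inv_mul_cancel a := by
    simp only [mul_def, one_def, inv_def, E.mk.injEq]
    refine ⟨?_, by simp⟩
    funext z
    rw [← sub_eq_add_neg]
    simp

/-- `E q` as a product -/
def eEquiv (q : ℕ) : E q ≃ (ZMod q × ZMod q → ZMod q) × (ZMod q × ZMod q) where
  toFun a := (a.w, a.t)
  invFun b := ⟨b.1, b.2⟩
  left_inv _ := rfl
  right_inv _ := rfl

instance [NeZero q] : Finite (E q) := Finite.of_equiv _ (eEquiv q).symm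

theorem isPGroup (p : ℕ) [hp : Fact p.Prime] : IsPGroup p (E (p ^ 1)) := by
  have : NeZero (p ^ 1) := ⟨by simpa using hp.out.ne_zero⟩
  refine IsPGroup.of_card (n := (p ^ 1 * p ^ 1) + 2) ?_
  rw [Nat.card_congr (eEquiv _)]
  simp [Nat.card_eq_fintype_card, ZMod.card]
  ring

/-- the commutator of `(u, e)` and `(v, 0)` -/
theorem comm_def (u v : ZMod q × ZMod q → ZMod q) (e : ZMod q × ZMod q) :
    (⟨u, e⟩ : E q) * ⟨v, 0⟩ * (⟨u, e⟩ : E q)⁻¹ * (⟨v, 0⟩ : E q)⁻¹ =
      ⟨fun z => v (z + e) - v z, 0⟩ := by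
  simp only [mul_def, inv_def, E.mk.injEq]
  refine ⟨?_, by simp⟩
  funext z
  simp
  ring

/-- conjugation of an element of the function part -/
theorem conj_def (a : E q) (w : ZMod q × ZMod q → ZMod q) :
    a * ⟨w, 0⟩ * a⁻¹ = ⟨fun z => w (z + a.t), 0⟩ := by
  simp only [mul_def, inv_def, E.mk.injEq]
  refine ⟨?_, by simp⟩
  funext z
  simp

/-- the translation part is a homomorphism -/
def tHom (q : ℕ) : E q →* Multiplicative (ZMod q × ZMod q) where
  toFun a := Multiplicative.ofAdd a.t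
  map_one' := rfl
  map_mul' _ _ := rfl

end Grp

end Q24.Chain
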