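import Mathlib

/-!
# The chain of Demushkin groups and 1-cyclotomic pro-`p` groups: definitions
-/

set_option autoImplicit false

namespace Q24.Chain

universe u v

/-- A topological group is pro-`p` if it is a compact, Hausdorff and totally disconnected
topological group in which every open normal subgroup has index a power of `p`. -/
structure IsProP (p : ℕ) (G : Type u) [Group G] [TopologicalSpace G] : Prop where
  topGroup : IsTopologicalGroup G
  compact : CompactSpace G
  t2 : T2Space G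
  td : TotallyDisconnectedSpace G
  index : ∀ N : Subgroup G, N.Normal → IsOpen (N : Set G) → ∃ k : ℕ, N.index = p ^ k

/-- The relations `[x_i, y_i] = [x_{i+1}, y_{i+1}]` for consecutive indices below `d`. -/
def Rel (d : ℕ) {P : Type u} [Group P] (a b : Fin d → P) : Prop :=
  ∀ (i : ℕ) (h : i + 1 < d),
    a ⟨i, Nat.lt_of_succ_lt h⟩ * b ⟨i, Nat.lt_of_succ_lt h⟩ *
        (a ⟨i, Nat.lt_of_succ_lt h⟩)⁻¹ * (b ⟨i, Nat.lt_of_succ_lt h⟩)⁻¹ =
      a ⟨i + 1, h⟩ * b ⟨i + 1, h⟩ * (a ⟨i + 1, h⟩)⁻¹ * (b ⟨i + 1, h⟩)⁻¹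

/-- `G` is the pro-`p` group presented by the generators `x_i, y_i` (`i < d`) and the relations
`[x_i, y_i] = [x_{i+1}, y_{i+1}]`: it is a pro-`p` group in which these relations hold, and for
every pro-`p` group `P` with elements `a_i, b_i` satisfying the relations there is exactly one
continuous homomorphism `G → P` sending each `x_i` to `a_i` and each `y_i` to `b_i`. -/
structure IsPresented (p d : ℕ) (G : Type) [Group G] [TopologicalSpace G] (x y : Fin d → G) :
    Prop where
  proP : IsProP p G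
  rel : Rel d x y
  universal : ∀ (P : Type) [Group P] [TopologicalSpace P], IsProP p P →
    ∀ a b : Fin d → P, Rel d a b →
      ∃! φ : G →* P, Continuous φ ∧ (∀ i, φ (x i) = a i) ∧ (∀ i, φ (y i) = b i)

variable (p : ℕ) [Fact p.Prime] {G : Type u} [Group G] [TopologicalSpace G]

/-- The continuous `1`-cocycles `U → ℤ_p(1)/p^n` of a subgroup `U` of `G`, for the orientation `θ`:
locally constant functions `f` with `f (g h) = f g + θ(g) f h`. -/
def IsCocycle (θ : G →* ℤ_[p]ˣ) (U : Subgroup G) (n : ℕ) (f : U → ZMod (p ^ n)) : Prop :=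
  IsLocallyConstant f ∧
    ∀ g h : U, f (g * h) = f g + PadicInt.toZModPow n (θ (g : G) : ℤ_[p]) * f h

/-- The pair `(G, θ)` is `1`-cyclotomic: for every open subgroup `U` and every `n ≥ 1` the
reduction `H¹(U, ℤ_p(1)/p^n) → H¹(U, ℤ_p(1)/p)` is surjective, that is every continuous cocycle
`f : U → ℤ_p(1)/p` is the sum of the reduction of a continuous cocycle `F : U → ℤ_p(1)/p^n` and of
a coboundary `g ↦ g a - a`. -/
def IsOneCyclotomicPair (θ : G →* ℤ_[p]ˣ) : Prop :=
  ∀ U : Subgroup G, IsOpen (U : Set G) → ∀ (n : ℕ) (hn : 1 ≤ n) (f : U → ZMod (p ^ 1)),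
    IsCocycle p θ U 1 f → ∃ F : U → ZMod (p ^ n), IsCocycle p θ U n F ∧ ∃ a : ZMod (p ^ 1),
      ∀ g : U, f g = ZMod.castHom (pow_dvd_pow p hn) (ZMod (p ^ 1)) (F g) +
        (PadicInt.toZModPow 1 (θ (g : G) : ℤ_[p]) * a - a)

/-- `G` is `1`-cyclotomic: it admits an orientation `θ`, that is a continuous homomorphism
`G → ℤ_pˣ`, for which `(G, θ)` is `1`-cyclotomic. -/
def IsOneCyclotomic (G : Type u) [Group G] [TopologicalSpace G] : Prop :=
  ∃ θ : G →* ℤ_[p]ˣ, Continuous θ ∧ IsOneCyclotomicPair p θ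

end Q24.Chain
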