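import Mathlib
import Pool.Agent.Q24.ChainDefs
import Pool.Agent.Q24.ChainComb

/-!
# The chain of Demushkin groups is not 1-cyclotomic
-/

set_option autoImplicit false

namespace Q24.Chain

open Finset

section Basic

variable {p : ℕ} [hp : Fact p.Prime]

theorem isProP_of_finite {P : Type*} [Group P] [TopologicalSpace P] [DiscreteTopology P]
    [Finite P] (h : IsPGroup p P) : IsProP p P where
  topGroup := inferInstance
  compact := inferInstance
  t2 := inferInstance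
  td := inferInstance
  index N _ _ := by
    obtain ⟨n, hn⟩ := IsPGroup.iff_card.mp h
    have : N.index ∣ p ^ n := hn ▸ N.index_dvd_card
    obtain ⟨k, _, hk⟩ := (Nat.dvd_prime_pow hp.out).mp this
    exact ⟨k, hk⟩

theorem rel_all {d : ℕ} {P : Type*} [Group P] {a b : Fin d → P} (h : Rel d a b) (i j : Fin d) :
    a i * b i * (a i)⁻¹ * (b i)⁻¹ = a j * b j * (a j)⁻¹ * (b j)⁻¹ := by
  have key : ∀ n : ℕ, ∀ hn : n < d, a ⟨n, hn⟩ * b ⟨n, hn⟩ * (a ⟨n, hn⟩)⁻¹ * (b ⟨n, hn⟩)⁻¹ =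
      a ⟨0, by omega⟩ * b ⟨0, by omega⟩ * (a ⟨0, by omega⟩)⁻¹ * (b ⟨0, by omega⟩)⁻¹ := by
    intro n
    induction n with
    | zero => intro _; rfl
    | succ n ih =>
      intro hn
      rw [← h n hn]
      exact ih (by omega)
  rw [key i.1 i.2, key j.1 j.2]

theorem rel_of_all {d : ℕ} {P : Type*} [Group P] {a b : Fin d → P} {c : P}
    (h : ∀ i, a i * b i * (a i)⁻¹ * (b i)⁻¹ = c) : Rel d a b := fun _ _ => (h _).trans (h _).symm

variable {d : ℕ} {G : Type} [Group G] [TopologicalSpace G] {x y : Fin d → G}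

theorem top_of_mem (hG : IsPresented p d G x y) {K : Subgroup G} [K.Normal]
    (hK : IsOpen (K : Set G)) (hx : ∀ i, x i ∈ K) (hy : ∀ i, y i ∈ K) : K = ⊤ := by
  have := hG.proP.topGroup
  have := hG.proP.compact
  have : DiscreteTopology (G ⧸ K) := QuotientGroup.discreteTopology hK
  have : Finite (G ⧸ K) := Subgroup.quotient_finite_of_isOpen K hK
  obtain ⟨k, hk⟩ := hG.proP.index K inferInstance hK
  have hP : IsProP p (G ⧸ K) := isProP_of_finite (IsPGroup.of_card (n := k) (by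
    rw [← hk]; rfl))
  have h1 : Rel d (fun _ => (1 : G ⧸ K)) (fun _ => (1 : G ⧸ K)) :=
    rel_of_all (c := 1) (fun i => by simp)
  obtain ⟨φ, _, hφ⟩ := hG.universal (G ⧸ K) hP _ _ h1
  have e1 := hφ (QuotientGroup.mk' K) ⟨continuous_quotient_mk', fun i => by
    simpa using hx i, fun i => by simpa using hy i⟩
  have e2 := hφ 1 ⟨continuous_const, fun i => rfl, fun i => rfl⟩
  rw [eq_top_iff]
  intro g _
  have : QuotientGroup.mk' K g = 1 := by rw [e1, ← e2]; rfl
  simpa using this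

theorem exists_hom (hG : IsPresented p d G x y) {P : Type} [Group P] [Finite P]
    (hP : IsPGroup p P) {a b : Fin d → P} (hab : Rel d a b) :
    ∃ φ : G →* P, (∀ s : Set P, IsOpen (φ ⁻¹' s)) ∧ (∀ i, φ (x i) = a i) ∧
      ∀ i, φ (y i) = b i := by
  let τ : TopologicalSpace P := ⊥
  have : DiscreteTopology P := ⟨rfl⟩
  obtain ⟨φ, ⟨h1, h2, h3⟩, _⟩ := hG.universal P (isProP_of_finite hP) a b hab
  exact ⟨φ, fun s => (isOpen_discrete s).preimage h1, h2, h3⟩

/-- homomorphisms to a finite group of order prime to `p` are trivial -/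
theorem hom_coprime (hG : IsProP p G) {A : Type} [Group A] [Finite A]
    (hA : ¬ p ∣ Nat.card A) (ψ : G →* A) (hψ : IsOpen (ψ.ker : Set G)) (g : G) : ψ g = 1 := by
  obtain ⟨k, hk⟩ := hG.index ψ.ker inferInstance hψ
  have h1 : ψ.ker.index ∣ Nat.card A := by
    rw [Subgroup.index_ker]
    exact Subgroup.card_subgroup_dvd_card _
  have h2 : k = 0 := by
    by_contra hk0
    exact hA ((dvd_pow_self p hk0).trans (hk ▸ h1))
  have h3 : ψ.ker = ⊤ := by
    rw [← Subgroup.index_eq_one, hk, h2, pow_zero]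
  have : g ∈ ψ.ker := h3 ▸ Subgroup.mem_top g
  exact this

/-- the reduction of the orientation -/
noncomputable def red (θ : G →* ℤ_[p]ˣ) (n : ℕ) : G →* (ZMod (p ^ n))ˣ :=
  (Units.map (PadicInt.toZModPow (p := p) n : ℤ_[p] →* ZMod (p ^ n))).comp θ

theorem red_coe (θ : G →* ℤ_[p]ˣ) (n : ℕ) (g : G) :
    (red θ n g : ZMod (p ^ n)) = PadicInt.toZModPow n (θ g : ℤ_[p]) := rfl

theorem isOpen_toZModPow (n : ℕ) (c : ZMod (p ^ n)) :
    IsOpen {u : ℤ_[p] | PadicInt.toZModPow n u = c} := by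
  rw [Metric.isOpen_iff]
  intro u hu
  refine ⟨(p : ℝ) ^ (-(n : ℤ)), by
    have : (0 : ℝ) < p := by exact_mod_cast hp.out.pos
    positivity, ?_⟩
  intro v hv
  rw [Metric.mem_ball, dist_eq_norm] at hv
  have h1 : v - u ∈ Ideal.span {(p : ℤ_[p]) ^ n} :=
    (PadicInt.norm_le_pow_iff_mem_span_pow _ _).mp hv.le
  rw [← PadicInt.ker_toZModPow, RingHom.mem_ker, map_sub, sub_eq_zero] at h1
  change PadicInt.toZModPow n v = c
  rw [h1]
  exact hu

theorem isOpen_red {θ : G →* ℤ_[p]ˣ} (hθ : Continuous θ) (n : ℕ) :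
    IsOpen ((red θ n).ker : Set G) := by
  have : ((red θ n).ker : Set G) =
      (fun g => ((θ g : ℤ_[p]ˣ) : ℤ_[p])) ⁻¹' {u : ℤ_[p] | PadicInt.toZModPow n u = 1} := by
    ext g
    simp only [SetLike.mem_coe, MonoidHom.mem_ker, Set.mem_preimage, Set.mem_ofPred_eq]
    rw [← Units.val_inj, red_coe]
    rfl
  rw [this]
  exact (isOpen_toZModPow n 1).preimage (Units.continuous_val.comp hθ)

theorem red_one (hG : IsProP p G) {θ : G →* ℤ_[p]ˣ} (hθ : Continuous θ) (g : G) :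
    PadicInt.toZModPow 1 (θ g : ℤ_[p]) = 1 := by
  have : NeZero (p ^ 1) := ⟨by simpa using hp.out.ne_zero⟩
  rw [← red_coe, hom_coprime hG ?_ (red θ 1) (isOpen_red hθ 1) g]
  · rfl
  · rw [Nat.card_eq_fintype_card, ZMod.card_units_eq_totient, pow_one,
      Nat.totient_prime hp.out]
    intro h
    have := Nat.le_of_dvd (by have := hp.out.two_le; omega) h
    have := hp.out.two_le
    omega

theorem lift_hom (hG : IsProP p G) {θ : G →* ℤ_[p]ˣ} (hθ : Continuous θ)
    (hc : IsOneCyclotomicPair p θ) {U : Subgroup G} (hU : IsOpen (U : Set G))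
    (f : G → ZMod (p ^ 1)) (hf : ∀ c, IsOpen ((U : Set G) ∩ f ⁻¹' {c}))
    (hfm : ∀ g ∈ U, ∀ h ∈ U, f (g * h) = f g + f h) :
    ∃ F : G → ZMod (p ^ 2),
      (∀ g ∈ U, ∀ h ∈ U, F (g * h) = F g + (red θ 2 g : ZMod (p ^ 2)) * F h) ∧
      ∀ g ∈ U, f g = ZMod.castHom (pow_dvd_pow p one_le_two) (ZMod (p ^ 1)) (F g) := by
  obtain ⟨F, hF, a, ha⟩ := hc U hU 2 one_le_two (fun g : U => f g) ⟨by
    intro s
    have : (fun g : U => f g) ⁻¹' s = ⋃ c ∈ s, Subtype.val ⁻¹' ((U : Set G) ∩ f ⁻¹' {c}) := by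
      ext g
      simp
    rw [this]
    exact isOpen_biUnion fun c _ => (hf c).preimage continuous_subtype_val, fun g h => by
      simp only [red_one hG hθ, one_mul]
      exact hfm _ g.2 _ h.2⟩
  classical
  refine ⟨fun g => if h : g ∈ U then F ⟨g, h⟩ else 0, ?_, ?_⟩
  · intro g hg h hh
    have := hF.2 ⟨g, hg⟩ ⟨h, hh⟩
    simp only [dif_pos hg, dif_pos hh, dif_pos (U.mul_mem hg hh)]
    exact this
  · intro g hg
    have := ha ⟨g, hg⟩
    simp only [red_one hG hθ, one_mul, sub_self, add_zero] at this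
    simp only [dif_pos hg]
    exact this

theorem mul_eq_of_cast {p : ℕ} [hp : Fact p.Prime] {u a b : ZMod (p ^ 2)}
    (hu : ZMod.castHom (pow_dvd_pow p one_le_two) (ZMod (p ^ 1)) u = 0)
    (hab : ZMod.castHom (pow_dvd_pow p one_le_two) (ZMod (p ^ 1)) a =
      ZMod.castHom (pow_dvd_pow p one_le_two) (ZMod (p ^ 1)) b) : u * a = u * b := by
  have hdiv : ∀ v : ZMod (p ^ 2),
      ZMod.castHom (pow_dvd_pow p one_le_two) (ZMod (p ^ 1)) v = 0 → ∃ w, v = p * w := by
    intro v hv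
    have : NeZero (p ^ 2) := ⟨pow_ne_zero _ hp.out.ne_zero⟩
    obtain ⟨n, rfl⟩ := ZMod.natCast_zmod_surjective v
    rw [map_natCast, ZMod.natCast_eq_zero_iff] at hv
    obtain ⟨m, rfl⟩ := hv
    exact ⟨m, by push_cast; ring⟩
  obtain ⟨w, rfl⟩ := hdiv u hu
  obtain ⟨w', hw'⟩ := hdiv (a - b) (by rw [map_sub, hab, sub_self])
  have hpp : (p : ZMod (p ^ 2)) * p = 0 := by
    have : ((p ^ 2 : ℕ) : ZMod (p ^ 2)) = 0 := ZMod.natCast_self _
    rw [← this]; push_cast; ring
  have : a = b + p * w' := by rw [← hw']; ring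
  rw [this]
  linear_combination w * w' * hpp

/-- the commutator value of a cocycle -/
theorem comm_value {θ : G →* ℤ_[p]ˣ} {F : G → ZMod (p ^ 2)}
    (hF : ∀ g h, F (g * h) = F g + (red θ 2 g : ZMod (p ^ 2)) * F h) (x y : G) :
    F (x * y * x⁻¹ * y⁻¹) = (1 - (red θ 2 y : ZMod (p ^ 2))) * F x -
      (1 - (red θ 2 x : ZMod (p ^ 2))) * F y := by
  have h1 : F (x * y * x⁻¹ * y⁻¹ * (y * x)) = F (x * y) := by congr 1; group
  have h2 : red θ 2 (x * y * x⁻¹ * y⁻¹) = 1 := by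
    simp only [map_mul, map_inv]
    rw [mul_comm (red θ 2 x) (red θ 2 y)]
    group
  rw [hF, h2, hF y x, hF x y] at h1
  rw [Units.val_one, one_mul] at h1
  linear_combination h1

theorem red_trivial (hG : IsPresented p d G x y) (hd : 2 ≤ d) {θ : G →* ℤ_[p]ˣ}
    (hθ : Continuous θ) (hc : IsOneCyclotomicPair p θ) (g : G) : red θ 2 g = 1 := by
  have hp1 : NeZero (p ^ 1) := ⟨by simpa using hp.out.ne_zero⟩
  have key : ∀ s : Fin d → Multiplicative (ZMod (p ^ 1)),
      ∀ t : Fin d → Multiplicative (ZMod (p ^ 1)), ∃ F : G → ZMod (p ^ 2),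
      (∀ g h, F (g * h) = F g + (red θ 2 g : ZMod (p ^ 2)) * F h) ∧
      (∀ i, ZMod.castHom (pow_dvd_pow p one_le_two) (ZMod (p ^ 1)) (F (x i)) = (s i).toAdd) ∧
      (∀ i, ZMod.castHom (pow_dvd_pow p one_le_two) (ZMod (p ^ 1)) (F (y i)) = (t i).toAdd) := by
    intro s t
    have hP : IsPGroup p (Multiplicative (ZMod (p ^ 1))) := by
      refine IsPGroup.of_card (n := 1) ?_
      rw [Nat.card_eq_fintype_card, Fintype.card_multiplicative, ZMod.card]
    obtain ⟨φ, h1, h2, h3⟩ := exists_hom hG hP (a := s) (b := t)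
      (rel_of_all (c := 1) fun i => by
        rw [mul_comm (s i) (t i)]; group)
    obtain ⟨F, hF, hF'⟩ := lift_hom hG.proP hθ hc (U := ⊤) isOpen_univ
      (fun g => (φ g).toAdd) (fun c => by
        have : ((⊤ : Subgroup G) : Set G) ∩ (fun g => (φ g).toAdd) ⁻¹' {c} =
            φ ⁻¹' {Multiplicative.ofAdd c} := by
          ext g
          constructor
          · rintro ⟨_, h⟩
            exact h
          · intro h
            exact ⟨trivial, h⟩
        rw [this]
        exact h1 _) (fun g _ h _ => by rw [map_mul]; rfl)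
    refine ⟨F, fun g h => hF g trivial h trivial, fun i => ?_, fun i => ?_⟩
    · rw [← hF' _ trivial, h2]
    · rw [← hF' _ trivial, h3]
  have cast_red : ∀ g, ZMod.castHom (pow_dvd_pow p one_le_two) (ZMod (p ^ 1))
      (1 - (red θ 2 g : ZMod (p ^ 2))) = 0 := by
    intro g
    rw [map_sub, map_one, red_coe]
    have := congrArg (fun f => f (θ g : ℤ_[p])) (PadicInt.zmod_cast_comp_toZModPow (p := p) 1 2
      one_le_two)
    simp only [RingHom.comp_apply] at this
    rw [this, red_one hG.proP hθ, sub_self]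
  have hx : ∀ i, red θ 2 (x i) = 1 := by
    intro i
    obtain ⟨j, hj⟩ : ∃ j : Fin d, j ≠ i := by
      have : Nontrivial (Fin d) := Fin.nontrivial_iff_two_le.mpr hd
      exact exists_ne i
    classical
    obtain ⟨F, hF, h1, h2⟩ := key (fun _ => 1)
      (fun k => if k = i then Multiplicative.ofAdd 1 else 1)
    have e := congrArg F (rel_all hG.rel i j)
    rw [comm_value hF, comm_value hF] at e
    have z1 : ∀ k l, (1 - (red θ 2 (y l) : ZMod (p ^ 2))) * F (x k) = 0 := by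
      intro k l
      have := mul_eq_of_cast (cast_red (y l)) (a := F (x k)) (b := 0) (by
        rw [h1, map_zero]; rfl)
      rw [this, mul_zero]
    have z2 : (1 - (red θ 2 (x j) : ZMod (p ^ 2))) * F (y j) = 0 := by
      have := mul_eq_of_cast (cast_red (x j)) (a := F (y j)) (b := 0) (by
        rw [h2, map_zero, if_neg hj]; rfl)
      rw [this, mul_zero]
    have z3 : (1 - (red θ 2 (x i) : ZMod (p ^ 2))) * F (y i) =
        (1 - (red θ 2 (x i) : ZMod (p ^ 2))) := by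
      have := mul_eq_of_cast (cast_red (x i)) (a := F (y i)) (b := 1) (by
        rw [h2, if_pos rfl, map_one (ZMod.castHom _ _)]; rfl)
      rw [this, mul_one]
    rw [z1, z1, z2, z3] at e
    have e' : (red θ 2 (x i) : ZMod (p ^ 2)) = 1 := by linear_combination e
    exact Units.val_eq_one.mp e'
  have hy : ∀ i, red θ 2 (y i) = 1 := by
    intro i
    obtain ⟨j, hj⟩ : ∃ j : Fin d, j ≠ i := by
      have : Nontrivial (Fin d) := Fin.nontrivial_iff_two_le.mpr hd
      exact exists_ne i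
    classical
    obtain ⟨F, hF, h1, h2⟩ := key
      (fun k => if k = i then Multiplicative.ofAdd 1 else 1) (fun _ => 1)
    have e := congrArg F (rel_all hG.rel i j)
    rw [comm_value hF, comm_value hF] at e
    have z1 : ∀ k l, (1 - (red θ 2 (x l) : ZMod (p ^ 2))) * F (y k) = 0 := by
      intro k l
      have := mul_eq_of_cast (cast_red (x l)) (a := F (y k)) (b := 0) (by
        rw [h2, map_zero]; rfl)
      rw [this, mul_zero]
    have z2 : (1 - (red θ 2 (y j) : ZMod (p ^ 2))) * F (x j) = 0 := by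
      have := mul_eq_of_cast (cast_red (y j)) (a := F (x j)) (b := 0) (by
        rw [h1, map_zero, if_neg hj]; rfl)
      rw [this, mul_zero]
    have z3 : (1 - (red θ 2 (y i) : ZMod (p ^ 2))) * F (x i) =
        (1 - (red θ 2 (y i) : ZMod (p ^ 2))) := by
      have := mul_eq_of_cast (cast_red (y i)) (a := F (x i)) (b := 1) (by
        rw [h1, if_pos rfl, map_one (ZMod.castHom _ _)]; rfl)
      rw [this, mul_one]
    rw [z1, z1, z2, z3] at e
    have e' : (red θ 2 (y i) : ZMod (p ^ 2)) = 1 := by linear_combination -e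
    exact Units.val_eq_one.mp e'
  have htop : (red θ 2).ker = ⊤ := top_of_mem hG (isOpen_red hθ 2) hx hy
  have : g ∈ (red θ 2).ker := htop ▸ Subgroup.mem_top g
  exact this

theorem not_cyclotomic (hd : 3 ≤ d) (hG : IsPresented p d G x y) : ¬ IsOneCyclotomic p G := by
  rintro ⟨θ, hθ, hc⟩
  have hp1 : NeZero (p ^ 1) := ⟨by simpa using hp.out.ne_zero⟩
  have hq2 : 2 ≤ p ^ 1 := by simpa using hp.out.two_le
  let e : Fin d → ZMod (p ^ 1) × ZMod (p ^ 1) := fun i =>
    if i.1 = 1 then (0, 1) else if i.1 = 2 then (-1, 1) else (1, 0)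
  let v : Fin d → (ZMod (p ^ 1) × ZMod (p ^ 1) → ZMod (p ^ 1)) := fun i =>
    if i.1 = 1 ∨ i.1 = 2 then fun z => G0 (p ^ 1) z.2 else fun z => z.1 * g0 (p ^ 1) z.2
  have hv : ∀ i z, v i (z + e i) - v i z = g0 (p ^ 1) z.2 := by
    intro i z
    simp only [v, e]
    by_cases h1 : i.1 = 1
    · simp [h1, g0]
    · by_cases h2 : i.1 = 2
      · simp [h2, g0]
      · simp only [h1, h2, or_self, if_false, Prod.fst_add, Prod.snd_add, add_zero]
        ring
  obtain ⟨Φ, hΦo, hΦx, hΦy⟩ := exists_hom hG (isPGroup p)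
    (a := fun i => (⟨fun _ => 0, e i⟩ : E (p ^ 1))) (b := fun i => (⟨v i, 0⟩ : E (p ^ 1)))
    (rel_of_all (c := ⟨fun z => g0 (p ^ 1) z.2, 0⟩) fun i => by
      rw [comm_def]
      simp only [hv])
  let U : Subgroup G := ((tHom (p ^ 1)).comp Φ).ker
  have mem_U : ∀ g, g ∈ U ↔ (Φ g).t = 0 := fun g => Iff.rfl
  have hU : IsOpen (U : Set G) := hΦo {a | a.t = 0}
  have hmul : ∀ a b : E (p ^ 1), (a * b).t = a.t + b.t := fun _ _ => rfl
  have hinv : ∀ a : E (p ^ 1), (a⁻¹).t = - a.t := fun _ => rfl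
  have hred : ∀ g, red θ 2 g = 1 := red_trivial hG (by omega) hθ hc
  obtain ⟨F, hF, hF'⟩ := lift_hom hG.proP hθ hc hU (fun g => (Φ g).w 0)
    (fun c => hU.inter (hΦo {a | a.w 0 = c})) (fun g hg h _ => by
      have hg' := (mem_U g).mp hg
      rw [map_mul, mul_def]
      simp only [hg', add_zero])
  have hFm : ∀ g ∈ U, ∀ h ∈ U, F (g * h) = F g + F h := by
    intro g hg h hh
    rw [hF g hg h hh, hred, Units.val_one, one_mul]
  have hF1 : F 1 = 0 := by
    have := hFm 1 U.one_mem 1 U.one_mem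
    rw [mul_one] at this
    linear_combination -this
  have hFinv : ∀ g ∈ U, F g⁻¹ = - F g := by
    intro g hg
    have := hFm g hg g⁻¹ (U.inv_mem hg)
    rw [mul_inv_cancel, hF1] at this
    linear_combination -this
  have hFc : ∀ u ∈ U, ∀ g ∈ U, F (u * g * u⁻¹) = F g := by
    intro u hu g hg
    rw [hFm _ (U.mul_mem hu hg) _ (U.inv_mem hu), hFm _ hu _ hg, hFinv u hu]
    ring
  have hUn : ∀ σ ∈ U, ∀ γ, γ * σ * γ⁻¹ ∈ U := fun σ hσ γ =>
    (inferInstance : U.Normal).conj_mem σ hσ γ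
  have hdep : ∀ σ ∈ U, ∀ γ γ', (Φ γ).t = (Φ γ').t →
      F (γ * σ * γ⁻¹) = F (γ' * σ * γ'⁻¹) := by
    intro σ hσ γ γ' h
    have hu : γ * γ'⁻¹ ∈ U := by
      rw [mem_U, map_mul, map_inv, hmul, hinv, h]
      simp
    have := hFc _ hu _ (hUn σ hσ γ')
    rw [← this]
    congr 1
    group
  let i0 : Fin d := ⟨0, by omega⟩
  let i1 : Fin d := ⟨1, by omega⟩
  let i2 : Fin d := ⟨2, by omega⟩
  let c : G := x i0 * y i0 * (x i0)⁻¹ * (y i0)⁻¹
  have hcc : ∀ i, c = x i * y i * (x i)⁻¹ * (y i)⁻¹ := fun i => rel_all hG.rel i0 i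
  have hΦc : Φ c = ⟨fun z => g0 (p ^ 1) z.2, 0⟩ := by
    simp only [c, map_mul, map_inv, hΦx, hΦy]
    rw [comm_def]
    simp only [hv]
  have hcU : c ∈ U := by rw [mem_U, hΦc]
  have hyU : ∀ i, y i ∈ U := fun i => by rw [mem_U, hΦy]
  have hpow : ∀ i γ (k : ℕ), (Φ (γ * x i ^ k)).t = (Φ γ).t + k • e i := by
    intro i γ k
    induction k with
    | zero => simp
    | succ k ih =>
      have e1 : γ * x i ^ (k + 1) = γ * x i ^ k * x i := by rw [pow_succ (x i), mul_assoc]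
      rw [e1, map_mul, hmul, ih, hΦx, succ_nsmul, add_assoc]
  have hqe : ∀ i, (p ^ 1) • e i = 0 := by
    intro i
    have hz : ((p ^ 1 : ℕ) : ZMod (p ^ 1)) = 0 := ZMod.natCast_self _
    ext
    · rw [Prod.smul_fst, nsmul_eq_mul, hz, zero_mul]; rfl
    · rw [Prod.smul_snd, nsmul_eq_mul, hz, zero_mul]; rfl
  have hline : ∀ i γ, ∑ k ∈ range (p ^ 1), F (γ * x i ^ k * c * (γ * x i ^ k)⁻¹) = 0 := by
    intro i γ
    have hstep : ∀ k : ℕ, F (γ * x i ^ k * c * (γ * x i ^ k)⁻¹) =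
        F (γ * x i ^ (k + 1) * y i * (γ * x i ^ (k + 1))⁻¹) -
          F (γ * x i ^ k * y i * (γ * x i ^ k)⁻¹) := by
      intro k
      rw [sub_eq_add_neg, ← hFinv _ (hUn _ (hyU i) _), ← hFm _ (hUn _ (hyU i) _) _
        (U.inv_mem (hUn _ (hyU i) _)), hcc i]
      congr 1
      rw [pow_succ]
      group
    rw [Finset.sum_congr rfl (fun k _ => hstep k),
      Finset.sum_range_sub (fun k => F (γ * x i ^ k * y i * (γ * x i ^ k)⁻¹)), sub_eq_zero]
    refine hdep _ (hyU i) _ _ ?_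
    rw [hpow, hpow, hqe]
    simp
  let s : ZMod (p ^ 1) × ZMod (p ^ 1) → G := fun z => x i0 ^ z.1.val * x i1 ^ z.2.val
  have hs : ∀ z, (Φ (s z)).t = z := by
    intro z
    have h1 := hpow i1 (x i0 ^ z.1.val) z.2.val
    have h0 := hpow i0 1 z.1.val
    rw [one_mul] at h0
    change (Φ (x i0 ^ z.1.val * x i1 ^ z.2.val)).t = z
    rw [h1, h0, map_one]
    have e0 : e i0 = (1, 0) := by simp [e, i0]
    have e1 : e i1 = (0, 1) := by simp [e, i1]
    rw [e0, e1]
    ext <;> simp [one_def]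
  let h : ZMod (p ^ 1) × ZMod (p ^ 1) → ZMod (p ^ 2) := fun z => F (s z * c * (s z)⁻¹)
  have hh : ∀ γ z, (Φ γ).t = z → h z = F (γ * c * γ⁻¹) := by
    intro γ z hz
    exact hdep c hcU _ _ (by rw [hs, hz])
  have hl : ∀ i z, ∑ k ∈ range (p ^ 1), h (z + k • e i) = 0 := by
    intro i z
    rw [← hline i (s z)]
    refine Finset.sum_congr rfl fun k _ => ?_
    apply hh
    rw [hpow, hs]
  have key := smul_S (q := p ^ 1) (by omega) h (fun z => by
      rw [← hl i0 z]
      refine Finset.sum_congr rfl fun k _ => ?_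
      congr 2
      ext <;> simp [e, i0]) (fun z => by
      rw [← hl i1 z]
      refine Finset.sum_congr rfl fun k _ => ?_
      congr 2
      ext <;> simp [e, i1]) (fun z => by
      rw [← hl i2 z]
      refine Finset.sum_congr rfl fun k _ => ?_
      congr 2
      ext <;> simp [e, i2]) 0
  have hcast : ∀ z, ZMod.castHom (pow_dvd_pow p one_le_two) (ZMod (p ^ 1)) (h z) =
      g0 (p ^ 1) z.2 := by
    intro z
    change ZMod.castHom (pow_dvd_pow p one_le_two) (ZMod (p ^ 1)) (F (s z * c * (s z)⁻¹)) = _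
    rw [← hF' _ (hUn c hcU _), map_mul, map_mul, map_inv, hΦc, conj_def]
    simp [hs]
  have hS : ZMod.castHom (pow_dvd_pow p one_le_two) (ZMod (p ^ 1)) (S h 0) = 1 := by
    rw [← S_g0 hq2]
    unfold S D
    simp only [map_sum, hcast]
  have : NeZero (p ^ 2) := ⟨pow_ne_zero _ hp.out.ne_zero⟩
  obtain ⟨n, hn⟩ := ZMod.natCast_zmod_surjective (S h 0)
  rw [← hn] at key hS
  rw [map_natCast] at hS
  rw [nsmul_eq_mul, ← Nat.cast_mul, ZMod.natCast_eq_zero_iff, pow_one, pow_two] at key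
  have hdvd : p ∣ n := Nat.dvd_of_mul_dvd_mul_left hp.out.pos key
  have h0 : ((n : ℕ) : ZMod (p ^ 1)) = 0 := by
    rw [ZMod.natCast_eq_zero_iff, pow_one]
    exact hdvd
  rw [h0] at hS
  have : Fact (1 < p ^ 1) := ⟨hq2⟩
  exact zero_ne_one hS

end Basic

end Q24.Chain
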