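import Mathlib

/-!
# Epigroups

Powers in semigroups, epigroups, finite semigroups are epigroups.
-/

set_option autoImplicit false

namespace Q24.Epi

universe u

variable {S : Type u} [Semigroup S]

/-- `spow a n = a ^ (n + 1)`. -/
def spow (a : S) : ℕ → S
  | 0 => a
  | n + 1 => spow a n * a

theorem coe_spow (a : S) (n : ℕ) : ((spow a n : S) : WithOne S) = (a : WithOne S) ^ (n + 1) := by
  induction n with
  | zero => rw [pow_one]; rfl
  | succ n ih => rw [pow_succ, ← ih, ← WithOne.coe_mul]; rfl

theorem spow_mul_comm {a c : S} (h : a * c = c * a) (n : ℕ) : spow a n * c = c * spow a n := by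
  induction n with
  | zero => exact h
  | succ n ih =>
    show spow a n * a * c = c * (spow a n * a)
    rw [mul_assoc, h, ← mul_assoc, ih, mul_assoc]

theorem spow_self_comm (a : S) (n : ℕ) : spow a n * a = a * spow a n := spow_mul_comm rfl n

/-- `S` is an epigroup: for every `a` some power `a ^ (n + 1)` lies in a subgroup of `S`, that is,
there are an idempotent `e` (the identity of the subgroup) and an element `y` (the inverse of
`a ^ (n + 1)` in the subgroup). -/
def IsEpigroup (S : Type u) [Semigroup S] : Prop :=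
  ∀ a : S, ∃ (n : ℕ) (e y : S), e * e = e ∧ e * spow a n = spow a n ∧ spow a n * e = spow a n ∧
    e * y = y ∧ y * e = y ∧ spow a n * y = e ∧ y * spow a n = e

/-- Some power of an element of a finite semigroup is idempotent. -/
theorem exists_spow_idem [Finite S] (a : S) : ∃ n : ℕ, spow a n * spow a n = spow a n := by
  obtain ⟨i, j, hij, h⟩ := Finite.exists_ne_map_eq_of_infinite (fun n => spow a n)
  wlog hlt : i < j generalizing i j
  · exact this j i hij.symm h.symm (lt_of_le_of_ne (not_lt.1 hlt) hij.symm)
  obtain ⟨p, rfl⟩ : ∃ p, j = i + (p + 1) := ⟨j - i - 1, by omega⟩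
  set x : WithOne S := (a : WithOne S) with hx
  have h0 : x ^ (i + 1) = x ^ (i + 1 + (p + 1)) := by
    have h' : spow a i = spow a (i + (p + 1)) := h
    have := congrArg (fun s : S => (s : WithOne S)) h'
    simp only [coe_spow] at this
    rw [hx, this]
    congr 1
    omega
  have h1 : ∀ k : ℕ, x ^ (i + 1) = x ^ (i + 1 + k * (p + 1)) := by
    intro k
    induction k with
    | zero => simp
    | succ k ih =>
      rw [Nat.succ_mul, ← add_assoc, pow_add _ _ (p + 1), ← ih, ← pow_add, ← h0]
  refine ⟨(i + 1) * (p + 1) - 1, ?_⟩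
  have hpos : 0 < (i + 1) * (p + 1) := by positivity
  have hge : i + 1 ≤ (i + 1) * (p + 1) := Nat.le_mul_of_pos_right _ (by omega)
  apply WithOne.coe_injective
  rw [WithOne.coe_mul, coe_spow, Nat.sub_add_cancel hpos, ← hx]
  obtain ⟨r, hr⟩ : ∃ r, (i + 1) * (p + 1) = (i + 1) + r := ⟨(i + 1) * (p + 1) - (i + 1), by omega⟩
  rw [← pow_add]
  calc x ^ ((i + 1) * (p + 1) + (i + 1) * (p + 1))
      = x ^ ((i + 1 + (i + 1) * (p + 1)) + r) := by congr 1; omega
    _ = x ^ (i + 1) * x ^ r := by rw [pow_add, ← h1]
    _ = x ^ ((i + 1) * (p + 1)) := by rw [← pow_add, ← hr]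

theorem isEpigroup_of_finite [Finite S] : IsEpigroup S := by
  intro a
  obtain ⟨n, hn⟩ := exists_spow_idem a
  exact ⟨n, spow a n, spow a n, hn, hn, hn, hn, hn, hn, hn⟩

/-- The identity of the subgroup containing a power of `x` commutes with all elements commuting
with `x`; so does the inverse. -/
theorem comm_of_comm {a e p y : S} (hpa : p * a = a * p) (he : e * p = p)
    (hpe : p * e = p) (hpy : p * y = e) (hyp : y * p = e) (hey : e * y = y) (hye : y * e = y) :
    a * e = e * a ∧ a * y = y * a := by
  have h1 : a * e = e * a * e := by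
    calc a * e = a * (p * y) := by rw [hpy]
      _ = p * a * y := by rw [hpa, mul_assoc]
      _ = e * (p * a * y) := by rw [← mul_assoc, ← mul_assoc, he]
      _ = e * (a * (p * y)) := by rw [hpa, mul_assoc]
      _ = e * a * e := by rw [hpy, mul_assoc]
  have h2 : e * a = e * a * e := by
    calc e * a = y * (p * a) := by rw [← hyp, mul_assoc]
      _ = y * (a * p) := by rw [hpa]
      _ = y * (a * (p * e)) := by rw [hpe]
      _ = y * (a * p) * e := by simp only [mul_assoc]
      _ = y * (p * a) * e := by rw [hpa]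
      _ = e * a * e := by rw [← mul_assoc, hyp]
  have h3 : a * e = e * a := h1.trans h2.symm
  refine ⟨h3, ?_⟩
  calc a * y = a * (e * y) := by rw [hey]
    _ = e * (a * y) := by rw [← mul_assoc, h3, mul_assoc]
    _ = y * (p * a) * y := by rw [← hyp]; simp only [mul_assoc]
    _ = y * a * (p * y) := by rw [hpa]; simp only [mul_assoc]
    _ = y * (a * e) := by rw [hpy, mul_assoc]
    _ = y * a := by rw [h3, ← mul_assoc, hye]

end Q24.Epi
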