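import Mathlib

/-!
# Elementary matrices of size three over a noncommutative ring
-/

set_option autoImplicit false

namespace Q24.FAElem

open Matrix

universe u

variable {R : Type u} [Ring R]

/-- the elementary matrix `1 + r E_{ij}` -/
def E (i j : Fin 3) (h : i ≠ j) (r : R) : (Matrix (Fin 3) (Fin 3) R)ˣ where
  val := 1 + single i j r
  inv := 1 - single i j r
  val_inv := by
    simp only [mul_sub, add_mul, one_mul, mul_one, single_mul_single_of_ne _ _ _ _ h.symm]
    abel
  inv_val := by
    simp only [mul_add, sub_mul, one_mul, mul_one, single_mul_single_of_ne _ _ _ _ h.symm]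
    abel

theorem E_val (i j : Fin 3) (h : i ≠ j) (r : R) :
    ((E i j h r : (Matrix (Fin 3) (Fin 3) R)ˣ) : Matrix (Fin 3) (Fin 3) R) = 1 + single i j r :=
  rfl

theorem E_inv_val (i j : Fin 3) (h : i ≠ j) (r : R) :
    (((E i j h r)⁻¹ : (Matrix (Fin 3) (Fin 3) R)ˣ) : Matrix (Fin 3) (Fin 3) R)
      = 1 - single i j r := rfl

theorem E_mul (i j : Fin 3) (h : i ≠ j) (r s : R) : E i j h r * E i j h s = E i j h (r + s) := by
  apply Units.ext
  rw [Units.val_mul, E_val, E_val, E_val]
  simp only [mul_add, add_mul, one_mul, mul_one, single_mul_single_of_ne _ _ _ _ h.symm,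
    single_add]
  abel

theorem E_zero (i j : Fin 3) (h : i ≠ j) : E i j h (0 : R) = 1 := by
  apply Units.ext
  rw [E_val, single_zero, add_zero, Units.val_one]

theorem E_neg (i j : Fin 3) (h : i ≠ j) (r : R) : (E i j h r)⁻¹ = E i j h (-r) := by
  rw [inv_eq_iff_mul_eq_one, E_mul, add_neg_cancel, E_zero]

theorem E_inj (i j : Fin 3) (h : i ≠ j) {r s : R} (hrs : E i j h r = E i j h s) : r = s := by
  have h1 := congrArg (fun u : (Matrix (Fin 3) (Fin 3) R)ˣ => (u : Matrix (Fin 3) (Fin 3) R) i j)
    hrs
  simp only [E_val, Matrix.add_apply, Matrix.one_apply_ne h, single_apply_same, zero_add] at h1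
  exact h1

theorem E_comm (i j k : Fin 3) (hij : i ≠ j) (hjk : j ≠ k) (hik : i ≠ k) (r s : R) :
    E i j hij r * E j k hjk s * (E i j hij r)⁻¹ * (E j k hjk s)⁻¹ = E i k hik (r * s) := by
  apply Units.ext
  rw [Units.val_mul, Units.val_mul, Units.val_mul, E_val, E_val, E_inv_val, E_inv_val, E_val]
  set a := single i j r with ha
  set b := single j k s with hb
  have hab : a * b = single i k (r * s) := single_mul_single_same _ _ _ _ _
  have haa : a * a = 0 := single_mul_single_of_ne _ _ _ _ hij.symm _
  have hbb : b * b = 0 := single_mul_single_of_ne _ _ _ _ hjk.symm _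
  have hba : b * a = 0 := single_mul_single_of_ne _ _ _ _ hik.symm _
  rw [← hab]
  have h1 : (1 + a) * (1 + b) = 1 + a + b + a * b := by noncomm_ring
  have h2 : (1 - a) * (1 - b) = 1 - a - b + a * b := by noncomm_ring
  calc (1 + a) * (1 + b) * (1 - a) * (1 - b)
      = ((1 + a) * (1 + b)) * ((1 - a) * (1 - b)) := by noncomm_ring
    _ = (1 + a + b + a * b) * (1 - a - b + a * b) := by rw [h1, h2]
    _ = 1 + a * b - a * a + a * a * b - b * a - b * b + b * a * b - a * (b * a) - a * (b * b)
        + a * (b * a) * b := by noncomm_ring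
    _ = 1 + a * b := by rw [haa, hbb, hba]; noncomm_ring

/-- In characteristic two the product of two elementary matrices in consecutive positions has order
dividing four. -/
theorem tors (h2 : ∀ r : R, r + r = 0) (i j k : Fin 3) (hij : i ≠ j) (hjk : j ≠ k) (hik : i ≠ k)
    (r s : R) : (E i j hij r * E j k hjk s) ^ 4 = 1 := by
  apply Units.ext
  rw [Units.val_pow_eq_pow_val, Units.val_mul, E_val, E_val, Units.val_one]
  set a := single i j r with ha
  set b := single j k s with hb
  have haa : a * a = 0 := single_mul_single_of_ne _ _ _ _ hij.symm _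
  have hbb : b * b = 0 := single_mul_single_of_ne _ _ _ _ hjk.symm _
  have hba : b * a = 0 := single_mul_single_of_ne _ _ _ _ hik.symm _
  have hM : ∀ m : Matrix (Fin 3) (Fin 3) R, m + m = 0 := by
    intro m
    ext x y
    exact h2 _
  set N := a + b + a * b with hN
  have h1 : (1 + a) * (1 + b) = 1 + N := by rw [hN]; noncomm_ring
  have hNN : N * N = a * b := by
    rw [hN]
    calc (a + b + a * b) * (a + b + a * b)
        = a * a + a * b + (a * a) * b + b * a + b * b + (b * a) * b + a * (b * a)
          + a * (b * b) + a * (b * a) * b := by noncomm_ring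
      _ = a * b := by rw [haa, hbb, hba]; noncomm_ring
  have hNN4 : (a * b) * (a * b) = 0 := by
    calc (a * b) * (a * b) = a * (b * a) * b := by noncomm_ring
      _ = 0 := by rw [hba]; noncomm_ring
  have h3 : (1 + N) * (1 + N) = 1 + a * b := by
    calc (1 + N) * (1 + N) = 1 + (N + N) + N * N := by noncomm_ring
      _ = 1 + a * b := by rw [hM, hNN, add_zero]
  have h4 : (1 + a * b) * (1 + a * b) = 1 := by
    calc (1 + a * b) * (1 + a * b) = 1 + (a * b + a * b) + (a * b) * (a * b) := by noncomm_ring
      _ = 1 := by rw [hM, hNN4, add_zero, add_zero]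
  rw [h1]
  calc (1 + N) ^ 4 = ((1 + N) * (1 + N)) * ((1 + N) * (1 + N)) := by noncomm_ring
    _ = 1 := by rw [h3, h4]

theorem tors' (h2 : ∀ r : R, r + r = 0) (i j k : Fin 3) (hij : i ≠ j) (hjk : j ≠ k) (hik : i ≠ k)
    (r s : R) : (E j k hjk s * E i j hij r) ^ 4 = 1 := by
  have h1 := tors h2 i j k hij hjk hik r s
  have h3 : E j k hjk s * E i j hij r
      = (E i j hij r)⁻¹ * (E i j hij r * E j k hjk s) * ((E i j hij r)⁻¹)⁻¹ := by group
  rw [h3, conj_pow, h1]
  group

theorem sq_one (h2 : ∀ r : R, r + r = 0) (i j : Fin 3) (h : i ≠ j) (r : R) :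
    E i j h r * E i j h r = 1 := by
  rw [E_mul, h2, E_zero]

end Q24.FAElem
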