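import Mathlib
import Pool.Agent.Helper270.Tree

/-!
# Two facts on group actions on trees

A group generated by finitely many elements such that all of them and all products of two of them
have finite order fixes a vertex of every tree on which it acts without inversions. The union of a
strictly increasing sequence of subgroups acts on a tree without inversions and without a fixed
vertex.
-/

set_option autoImplicit false

namespace Q24.FATree

open SimpleGraph Pool.Agent.Helper270.Tree

section serre

variable {G V : Type} [Group G] [MulAction G V] {T : SimpleGraph V}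

theorem elliptic_of_finite (h : TreeAct G T) {g : G} (hg : IsOfFinOrder g) : ∃ v : V, g • v = v := by
  by_contra hcon
  push Not at hcon
  obtain ⟨L, l, hax⟩ := h.exists_axis hcon
  obtain ⟨n, hn, hgn⟩ := isOfFinOrder_iff_pow_eq_one.1 hg
  have h1 := hax.smul_zpow n 0
  rw [zpow_natCast, hgn, one_smul] at h1
  have h2 := hax.line.injective h.isTree h1
  have h3 := hax.pos
  have h4 : (n : ℤ) * l ≠ 0 := by positivity
  omega

theorem fixed_of_gens (h : TreeAct G T) (S : Finset G)
    (hgen : Subgroup.closure (S : Set G) = ⊤) (h1 : ∀ a ∈ S, IsOfFinOrder a)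
    (h2 : ∀ a ∈ S, ∀ b ∈ S, IsOfFinOrder (a * b)) : ∃ v : V, ∀ g : G, g • v = v := by
  classical
  have key : ∀ S' : Finset G, S' ⊆ S → ∃ x : V, ∀ a ∈ S', a • x = x := by
    intro S'
    induction S' using Finset.induction_on with
    | empty =>
      intro _
      obtain ⟨v⟩ := h.isTree.connected.nonempty
      exact ⟨v, by simp⟩
    | insert s S' _ ih =>
      intro hS
      have hs : s ∈ S := hS (Finset.mem_insert_self _ _)
      have hS' : S' ⊆ S := fun a ha => hS (Finset.mem_insert_of_mem ha)
      obtain ⟨x, hx, hx'⟩ := h.common_fixed (S' : Set G) s (by simpa using ih hS')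
        (elliptic_of_finite h (h1 s hs)) (fun a ha => elliptic_of_finite h (h2 a (hS' ha) s hs))
      refine ⟨x, fun a ha => ?_⟩
      rcases Finset.mem_insert.mp ha with rfl | ha
      · exact hx'
      · exact hx a ha
  obtain ⟨x, hx⟩ := key S (Finset.Subset.refl S)
  refine ⟨x, fun g => ?_⟩
  have hle : Subgroup.closure (S : Set G) ≤ MulAction.stabilizer G x := by
    rw [Subgroup.closure_le]
    intro a ha
    exact hx a ha
  have hg : g ∈ Subgroup.closure (S : Set G) := by rw [hgen]; trivial
  exact hle hg

end serre

section parent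

variable {V : Type} (p : V → V) (l : V → ℕ)

/-- the graph joining every vertex to its parent -/
def pgraph (hl : ∀ v, l (p v) = l v + 1) : SimpleGraph V where
  Adj u v := p u = v ∨ p v = u
  symm := ⟨fun _ _ h => h.symm⟩
  loopless := ⟨fun v h => by
    have h1 : p v = v := by rcases h with h | h <;> exact h
    have := hl v
    rw [h1] at this
    omega⟩

theorem level_iter (hl : ∀ v, l (p v) = l v + 1) (n : ℕ) (v : V) : l (p^[n] v) = l v + n := by
  induction n generalizing v with
  | zero => rfl
  | succ n ih => rw [Function.iterate_succ_apply, ih, hl]; omega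

theorem pgraph_isTree [Nonempty V] (hl : ∀ v, l (p v) = l v + 1)
    (hm : ∀ u v, ∃ m n : ℕ, p^[m] u = p^[n] v) : (pgraph p l hl).IsTree := by
  constructor
  · have h1 : ∀ (n : ℕ) (v : V), (pgraph p l hl).Reachable v (p^[n] v) := by
      intro n
      induction n with
      | zero => intro v; exact Reachable.refl _
      | succ n ih =>
        intro v
        rw [Function.iterate_succ_apply]
        exact (SimpleGraph.Adj.reachable (G := pgraph p l hl) (Or.inl rfl)).trans (ih (p v))
    refine (SimpleGraph.connected_iff _).mpr ⟨fun u v => ?_, inferInstance⟩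
    obtain ⟨m, n, hmn⟩ := hm u v
    exact (h1 m u).trans (hmn ▸ (h1 n v).symm)
  · have key : ∀ u : V,
        ¬ (pgraph p l hl \ SimpleGraph.fromEdgeSet {s(u, p u)}).Reachable u (p u) := by
      intro u hr
      have hinv : ∀ w : V, (pgraph p l hl \ SimpleGraph.fromEdgeSet {s(u, p u)}).Reachable u w →
          ∃ k, p^[k] w = u := by
        intro w hw
        rw [SimpleGraph.reachable_iff_reflTransGen] at hw
        induction hw with
        | refl => exact ⟨0, rfl⟩
        | tail _ hbc ih =>
          rename_i a b _
          rw [SimpleGraph.sdiff_adj, SimpleGraph.fromEdgeSet_adj] at hbc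
          obtain ⟨h1, h2⟩ := hbc
          obtain ⟨k, hk⟩ := ih
          rcases h1 with h1 | h1
          · rcases k with _ | k
            · exfalso
              apply h2
              have hk' : a = u := hk
              rw [← h1, hk']
              refine ⟨rfl, fun h => ?_⟩
              have := hl u
              rw [← h] at this
              omega
            · rw [Function.iterate_succ_apply, h1] at hk
              exact ⟨k, hk⟩
          · exact ⟨k + 1, by rw [Function.iterate_succ_apply, h1, hk]⟩
      obtain ⟨k, hk⟩ := hinv _ hr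
      have h1 := level_iter p l hl k (p u)
      rw [hk, hl] at h1
      omega
    rw [SimpleGraph.isAcyclic_iff_forall_adj_isBridge]
    intro u v huv
    rw [SimpleGraph.isBridge_iff]
    rcases huv with huv | huv
    · subst huv; exact key u
    · subst huv
      intro hr
      apply key v
      rw [Sym2.eq_swap]
      exact hr.symm

end parent

section chain

variable {H : Type} [Group H] (K : ℕ → Subgroup H)

/-- the vertices -/
abbrev CV : Type := Σ n : ℕ, H ⧸ K n

/-- the parent of a coset -/
def par (hK : Monotone K) (v : CV K) : CV K :=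
  ⟨v.1 + 1, Quotient.map' id (fun a b hab => by
    rw [QuotientGroup.leftRel_apply] at hab ⊢
    exact hK (Nat.le_succ _) hab) v.2⟩

theorem par_mk (hK : Monotone K) (n : ℕ) (h : H) :
    par K hK ⟨n, QuotientGroup.mk h⟩ = ⟨n + 1, QuotientGroup.mk h⟩ := rfl

theorem par_iter (hK : Monotone K) (m n : ℕ) (h : H) :
    (par K hK)^[m] ⟨n, QuotientGroup.mk h⟩ = ⟨n + m, QuotientGroup.mk h⟩ := by
  induction m generalizing n with
  | zero => rfl
  | succ m ih =>
    rw [Function.iterate_succ_apply, par_mk, ih]
    have : n + 1 + m = n + (m + 1) := by omega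
    rw [this]

theorem par_smul (hK : Monotone K) (h : H) (v : CV K) : par K hK (h • v) = h • par K hK v := by
  obtain ⟨n, x⟩ := v
  obtain ⟨g, rfl⟩ := QuotientGroup.mk_surjective x
  rfl

theorem exists_action (hK : Monotone K) (hU : ∀ h : H, ∃ n, h ∈ K n) (hne : ∀ n, K n ≠ ⊤) :
    ∃ (V : Type) (_ : MulAction H V) (T : SimpleGraph V), T.IsTree ∧
      (∀ h : H, ∀ x y : V, T.Adj x y → T.Adj (h • x) (h • y)) ∧
      (∀ h : H, ∀ x y : V, T.Adj x y → ¬ (h • x = y ∧ h • y = x)) ∧
      ¬ ∃ v : V, ∀ h : H, h • v = v := by
  have hl : ∀ v : CV K, (par K hK v).1 = v.1 + 1 := fun v => rfl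
  have : Nonempty (CV K) := ⟨⟨0, QuotientGroup.mk 1⟩⟩
  refine ⟨CV K, inferInstance, pgraph (par K hK) (fun v => v.1) hl, ?_, ?_, ?_, ?_⟩
  · apply pgraph_isTree
    rintro ⟨m, x⟩ ⟨n, y⟩
    obtain ⟨g, rfl⟩ := QuotientGroup.mk_surjective x
    obtain ⟨h, rfl⟩ := QuotientGroup.mk_surjective y
    obtain ⟨k, hk⟩ := hU (g⁻¹ * h)
    refine ⟨n + k, m + k, ?_⟩
    rw [par_iter, par_iter]
    have e : n + (m + k) = m + (n + k) := by omega
    rw [e]
    congr 1
    rw [QuotientGroup.eq]
    exact hK (by omega) hk
  · intro h x y hxy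
    rcases hxy with hxy | hxy
    · left; rw [par_smul, hxy]
    · right; rw [par_smul, hxy]
  · rintro h x y hxy ⟨h1, -⟩
    have e1 : (h • x).1 = x.1 := rfl
    rw [h1] at e1
    rcases hxy with hxy | hxy
    · have e2 := hl x
      rw [hxy] at e2
      omega
    · have e2 := hl y
      rw [hxy] at e2
      omega
  · rintro ⟨⟨n, x⟩, hv⟩
    obtain ⟨g, rfl⟩ := QuotientGroup.mk_surjective x
    apply hne n
    rw [eq_top_iff]
    intro h _
    have h1 := hv (g * h * g⁻¹)
    have h2 : (⟨n, (g * h * g⁻¹) • (QuotientGroup.mk g : H ⧸ K n)⟩ : CV K)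
        = ⟨n, QuotientGroup.mk g⟩ := h1
    have h3 := eq_of_heq (Sigma.mk.inj h2).2
    have h4 : (QuotientGroup.mk (g * h * g⁻¹ * g) : H ⧸ K n) = QuotientGroup.mk g := h3
    rw [inv_mul_cancel_right, QuotientGroup.eq] at h4
    have h5 := (K n).inv_mem h4
    simpa using h5

end chain

end Q24.FATree
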