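import Mathlib
import Pool.Agent.Q24.FATree
import Pool.Agent.Q24.FAElem

/-!
# Elementary groups over subrings of products of finite rings of characteristic two
-/

set_option autoImplicit false

namespace Q24.FAAlg

open Q24.FAElem

variable {I : Type} {P : I → Type} [∀ i, Ring (P i)]

/-- the ambient group -/
abbrev Gam (P : I → Type) [∀ i, Ring (P i)] : Type := ∀ i, (Matrix (Fin 3) (Fin 3) (P i))ˣ

/-- elementary matrices over the product ring -/
def e (a b : Fin 3) (h : a ≠ b) (r : ∀ i, P i) : Gam P := fun i => E a b h (r i)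

theorem e_mul (a b : Fin 3) (h : a ≠ b) (r s : ∀ i, P i) :
    e a b h r * e a b h s = e a b h (r + s) := funext fun _ => E_mul a b h _ _

theorem e_neg (a b : Fin 3) (h : a ≠ b) (r : ∀ i, P i) : (e a b h r)⁻¹ = e a b h (-r) :=
  funext fun _ => E_neg a b h _

theorem e_comm (a b c : Fin 3) (hab : a ≠ b) (hbc : b ≠ c) (hac : a ≠ c) (r s : ∀ i, P i) :
    e a b hab r * e b c hbc s * (e a b hab r)⁻¹ * (e b c hbc s)⁻¹ = e a c hac (r * s) :=
  funext fun _ => E_comm a b c hab hbc hac _ _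

/-- the elementary group of a subring -/
def EL (B : Subring (∀ i, P i)) : Subgroup (Gam P) :=
  Subgroup.closure {g | ∃ (a b : Fin 3) (h : a ≠ b), ∃ r ∈ B, g = e a b h r}

theorem e_mem {B : Subring (∀ i, P i)} (a b : Fin 3) (h : a ≠ b) {r : ∀ i, P i} (hr : r ∈ B) :
    e a b h r ∈ EL B := Subgroup.subset_closure ⟨a, b, h, r, hr, rfl⟩

theorem EL_mono {A B : Subring (∀ i, P i)} (h : A ≤ B) : EL A ≤ EL B := by
  apply Subgroup.closure_mono
  rintro g ⟨a, b, hab, r, hr, rfl⟩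
  exact ⟨a, b, hab, r, h hr, rfl⟩

/-- cyclic pairs of indices -/
def S0 (V : Set (∀ i, P i)) : Set (Gam P) :=
  {g | ∃ a : Fin 3, ∃ (h : a ≠ a + 1), ∃ v ∈ V, g = e a (a + 1) h v}

theorem fin3_cases (a b : Fin 3) (h : a ≠ b) : b = a + 1 ∨ b = a + 1 + 1 := by
  revert a b; decide

theorem closure_S0 (V : Set (∀ i, P i)) (h1 : (1 : ∀ i, P i) ∈ V) :
    EL (Subring.closure V) = Subgroup.closure (S0 V) := by
  apply le_antisymm
  · unfold EL
    rw [Subgroup.closure_le]
    rintro g ⟨a, b, hab, r, hr, rfl⟩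
    have hV : ∀ v ∈ V, ∀ (a b : Fin 3) (h : a ≠ b), e a b h v ∈ Subgroup.closure (S0 V) := by
      intro v hv a b h
      have hn : ∀ a : Fin 3, a ≠ a + 1 := by decide
      rcases fin3_cases a b h with rfl | rfl
      · exact Subgroup.subset_closure ⟨a, h, v, hv, rfl⟩
      · have e1 := e_comm a (a + 1) (a + 1 + 1) (hn a) (hn (a + 1)) h v 1
        rw [mul_one] at e1
        rw [← e1]
        have m1 : e a (a + 1) (hn a) v ∈ Subgroup.closure (S0 V) :=
          Subgroup.subset_closure ⟨a, _, v, hv, rfl⟩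
        have m2 : e (a + 1) (a + 1 + 1) (hn (a + 1)) (1 : ∀ i, P i) ∈ Subgroup.closure (S0 V) :=
          Subgroup.subset_closure ⟨a + 1, _, 1, h1, rfl⟩
        exact mul_mem (mul_mem (mul_mem m1 m2) (inv_mem m1)) (inv_mem m2)
    have hall : ∀ r ∈ Subring.closure V, ∀ (a b : Fin 3) (h : a ≠ b),
        e a b h r ∈ Subgroup.closure (S0 V) := by
      intro r hr
      induction hr using Subring.closure_induction with
      | mem x hx => exact hV x hx
      | zero =>
        intro a b h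
        have : e a b h (0 : ∀ i, P i) = 1 := funext fun _ => E_zero a b h
        rw [this]; exact one_mem _
      | one => exact hV 1 h1
      | add x y _ _ ihx ihy =>
        intro a b h
        rw [← e_mul]
        exact mul_mem (ihx a b h) (ihy a b h)
      | neg x _ ihx =>
        intro a b h
        rw [← e_neg]
        exact inv_mem (ihx a b h)
      | mul x y _ _ ihx ihy =>
        intro a c hac
        obtain ⟨b, hab, hbc⟩ : ∃ b : Fin 3, a ≠ b ∧ b ≠ c := by
          revert a c; decide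
        rw [← e_comm a b c hab hbc hac]
        exact mul_mem (mul_mem (mul_mem (ihx a b hab) (ihy b c hbc)) (inv_mem (ihx a b hab)))
          (inv_mem (ihy b c hbc))
    exact hall r hr a b hab
  · rw [Subgroup.closure_le]
    rintro g ⟨a, h, v, hv, rfl⟩
    exact e_mem a (a + 1) h (Subring.subset_closure hv)

/-- every action on a tree without inversions has a fixed vertex -/
def FA (G : Type) [Group G] : Prop :=
  ∀ (V : Type) [MulAction G V] (T : SimpleGraph V), T.IsTree →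
        (∀ g : G, ∀ x y : V, T.Adj x y → T.Adj (g • x) (g • y)) →
        (∀ g : G, ∀ x y : V, T.Adj x y → ¬ (g • x = y ∧ g • y = x)) →
        ∃ v : V, ∀ g : G, g • v = v

theorem finite_S0 (V : Set (∀ i, P i)) (hV : V.Finite) : (S0 V).Finite := by
  have h1 : S0 V ⊆ ⋃ a : Fin 3, (fun v => if h : a ≠ a + 1 then e a (a + 1) h v else 1) '' V := by
    rintro g ⟨a, h, v, hv, rfl⟩
    refine Set.mem_iUnion.2 ⟨a, v, hv, ?_⟩
    simp only [dif_pos h]
  exact (Set.finite_iUnion fun a => hV.image _).subset h1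

theorem FA_closure (h2 : ∀ (i : I) (r : P i), r + r = 0) (V : Set (∀ i, P i)) (hV : V.Finite) :
    FA ↥(Subgroup.closure (S0 V)) := by
  classical
  intro W inst T hT h3 h4
  have hfin : ((↑) ⁻¹' S0 V : Set ↥(Subgroup.closure (S0 V))).Finite :=
    (finite_S0 V hV).preimage Subtype.val_injective.injOn
  have hlift : ∀ {x : ↥(Subgroup.closure (S0 V))}, IsOfFinOrder (x : Gam P) → IsOfFinOrder x :=
    fun {x} hx => Submonoid.isOfFinOrder_coe.1 hx
  refine @Q24.FATree.fixed_of_gens _ W _ inst T ⟨hT, h3, h4⟩ hfin.toFinset ?_ ?_ ?_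
  · rw [Set.Finite.coe_toFinset]
    exact Subgroup.closure_closure_coe_preimage
  · rintro x hx
    rw [Set.Finite.mem_toFinset] at hx
    obtain ⟨a, h, v, hv, hxe⟩ := hx
    apply hlift
    rw [hxe]
    refine isOfFinOrder_iff_pow_eq_one.2 ⟨2, by norm_num, ?_⟩
    rw [pow_two]
    exact funext fun i => sq_one (h2 i) _ _ _ _
  · rintro x hx y hy
    rw [Set.Finite.mem_toFinset] at hx hy
    obtain ⟨a, ha, v, hv, hxe⟩ := hx
    obtain ⟨b, hb, w, hw, hye⟩ := hy
    apply hlift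
    rw [Subgroup.coe_mul, hxe, hye]
    refine isOfFinOrder_iff_pow_eq_one.2 ⟨4, by norm_num, ?_⟩
    have hc : b = a ∨ b = a + 1 ∨ a = b + 1 := by
      have : ∀ a b : Fin 3, b = a ∨ b = a + 1 ∨ a = b + 1 := by decide
      exact this a b
    have hn2 : ∀ a : Fin 3, a ≠ a + 1 + 1 := by decide
    rcases hc with rfl | rfl | rfl
    · rw [e_mul, show (4 : ℕ) = 2 * 2 from rfl, pow_mul, pow_two (e _ _ _ _)]
      have : e b (b + 1) ha (v + w) * e b (b + 1) ha (v + w) = 1 :=
        funext fun i => sq_one (h2 i) _ _ _ _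
      rw [this, one_pow]
    · exact funext fun i => tors (h2 i) a (a + 1) (a + 1 + 1) ha hb (hn2 a) (v i) (w i)
    · exact funext fun i => tors' (h2 i) b (b + 1) (b + 1 + 1) hb ha (hn2 b) (w i) (v i)

theorem FA_EL (h2 : ∀ (i : I) (r : P i), r + r = 0) (V : Set (∀ i, P i)) (hV : V.Finite)
    (h1 : (1 : ∀ i, P i) ∈ V) : FA ↥(EL (Subring.closure V)) := by
  rw [closure_S0 V h1]
  exact FA_closure h2 V hV

theorem countable_EL (V : Set (∀ i, P i)) (hV : V.Finite)
    (h1 : (1 : ∀ i, P i) ∈ V) : Countable ↥(EL (Subring.closure V)) := by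
  rw [closure_S0 V h1, FreeGroup.closure_eq_range]
  have : Countable (S0 V) := (finite_S0 V hV).countable.to_subtype
  have h3 : (Set.range (FreeGroup.lift ((↑) : S0 V → Gam P))).Countable :=
    Set.countable_range _
  exact h3.to_subtype

/-! ### finite index normal subgroups -/

section index

variable {B : Subring (∀ i, P i)} (N : Subgroup ↥(EL B))

/-- elementary matrices in the subtype -/
def el (a b : Fin 3) (h : a ≠ b) (r : B) : ↥(EL B) := ⟨e a b h r, e_mem a b h r.2⟩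

theorem el_comm (a b c : Fin 3) (hab : a ≠ b) (hbc : b ≠ c) (hac : a ≠ c) (r s : B) :
    el a b hab r * el b c hbc s * (el a b hab r)⁻¹ * (el b c hbc s)⁻¹ = el a c hac (r * s) :=
  Subtype.ext (e_comm a b c hab hbc hac _ _)

theorem mulR (hN : N.Normal) {a b c : Fin 3} (hab : a ≠ b) (hbc : b ≠ c) (hac : a ≠ c) {r : B}
    (hr : el a b hab r ∈ N) (s : B) : el a c hac (r * s) ∈ N := by
  rw [← el_comm a b c hab hbc hac]
  have h1 := hN.conj_mem _ (N.inv_mem hr) (el b c hbc s)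
  have h2 := N.mul_mem hr h1
  have e1 : el a b hab r * el b c hbc s * (el a b hab r)⁻¹ * (el b c hbc s)⁻¹
      = el a b hab r * (el b c hbc s * (el a b hab r)⁻¹ * (el b c hbc s)⁻¹) := by group
  rw [e1]
  exact h2

theorem mulL (hN : N.Normal) {a b c : Fin 3} (hab : a ≠ b) (hbc : b ≠ c) (hac : a ≠ c) {r : B}
    (hr : el b c hbc r ∈ N) (s : B) : el a c hac (s * r) ∈ N := by
  rw [← el_comm a b c hab hbc hac]
  have h1 := hN.conj_mem _ hr (el a b hab s)
  exact N.mul_mem h1 (N.inv_mem hr)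

/-- the ideal of a normal subgroup -/
def JJ (r : B) : Prop := ∀ (a b : Fin 3) (h : a ≠ b), el a b h r ∈ N

theorem JJ_of (hN : N.Normal) {r : B} (hr : el 0 1 (by decide) r ∈ N) : JJ N r := by
  have h02 : el 0 2 (by decide) r ∈ N := by
    have := mulR N hN (a := 0) (b := 1) (c := 2) (by decide) (by decide) (by decide) hr 1
    rwa [mul_one] at this
  have h21 : el 2 1 (by decide) r ∈ N := by
    have := mulL N hN (a := 2) (b := 0) (c := 1) (by decide) (by decide) (by decide) hr 1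
    rwa [one_mul] at this
  have h20 : el 2 0 (by decide) r ∈ N := by
    have := mulR N hN (a := 2) (b := 1) (c := 0) (by decide) (by decide) (by decide) h21 1
    rwa [mul_one] at this
  have h12 : el 1 2 (by decide) r ∈ N := by
    have := mulL N hN (a := 1) (b := 0) (c := 2) (by decide) (by decide) (by decide) h02 1
    rwa [one_mul] at this
  have h10 : el 1 0 (by decide) r ∈ N := by
    have := mulR N hN (a := 1) (b := 2) (c := 0) (by decide) (by decide) (by decide) h12 1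
    rwa [mul_one] at this
  intro a b h
  have : ∀ a b : Fin 3, a ≠ b → (a = 0 ∧ b = 1) ∨ (a = 0 ∧ b = 2) ∨ (a = 2 ∧ b = 1) ∨
    (a = 2 ∧ b = 0) ∨ (a = 1 ∧ b = 2) ∨ (a = 1 ∧ b = 0) := by decide
  rcases this a b h with h | h | h | h | h | h <;> obtain ⟨rfl, rfl⟩ := h <;> assumption

theorem JJ_mulR (hN : N.Normal) {r : B} (hr : JJ N r) (s : B) : JJ N (r * s) := by
  intro a c hac
  obtain ⟨b, hab, hbc⟩ : ∃ b : Fin 3, a ≠ b ∧ b ≠ c := by
    revert a c; decide
  exact mulR N hN hab hbc hac (hr a b hab) s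

theorem JJ_mulL (hN : N.Normal) {r : B} (hr : JJ N r) (s : B) : JJ N (s * r) := by
  intro a c hac
  obtain ⟨b, hab, hbc⟩ : ∃ b : Fin 3, a ≠ b ∧ b ≠ c := by
    revert a c; decide
  exact mulL N hN hab hbc hac (hr b c hbc) s

theorem JJ_add {r s : B} (hr : JJ N r) (hs : JJ N s) : JJ N (r + s) := by
  intro a b h
  have : el a b h (r + s) = el a b h r * el a b h s := Subtype.ext (e_mul a b h _ _).symm
  rw [this]
  exact N.mul_mem (hr a b h) (hs a b h)

open Classical in
/-- the homomorphism erasing the coordinates in `F` -/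
noncomputable def er (F : Set I) : Gam P →* Gam P where
  toFun g i := if i ∈ F then 1 else g i
  map_one' := by funext i; simp
  map_mul' g h := by funext i; by_cases hi : i ∈ F <;> simp [hi]

theorem er_of_mem {F : Set I} {i : I} (h : i ∈ F) (g : Gam P) : er F g i = 1 := if_pos h
theorem er_of_notMem {F : Set I} {i : I} (h : i ∉ F) (g : Gam P) : er F g i = g i := if_neg h

open Classical in
/-- the idempotent complementary to `F` -/
noncomputable def idem (F : Set I) : ∀ i, P i := fun i => if i ∈ F then 0 else 1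

theorem er_e (F : Set I) (a b : Fin 3) (h : a ≠ b) (r : ∀ i, P i) :
    er F (e a b h r) = e a b h (idem F * r) := by
  funext i
  by_cases hi : i ∈ F
  · rw [er_of_mem hi]
    simp only [e, Pi.mul_apply, idem, if_pos hi, zero_mul]
    exact (E_zero a b h).symm
  · rw [er_of_notMem hi]
    simp only [e, Pi.mul_apply, idem, if_neg hi, one_mul]

/-- If the ideal of `N` contains the idempotent complementary to `F`, then `N` contains all elements
that are trivial on `F`. -/
theorem mem_of_idem (hN : N.Normal) (F : Set I) (hF : idem F ∈ B) (hJ : JJ N ⟨idem F, hF⟩)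
    (g : ↥(EL B)) (hg : ∀ i ∈ F, (g : Gam P) i = 1) : g ∈ N := by
  have h1 : EL B ≤ (N.map (EL B).subtype).comap (er F) := by
    conv_lhs => unfold EL
    rw [Subgroup.closure_le]
    rintro x ⟨a, b, h, r, hr, rfl⟩
    change er F (e a b h r) ∈ N.map (EL B).subtype
    rw [er_e]
    exact ⟨_, JJ_mulR N hN hJ ⟨r, hr⟩ a b h, rfl⟩
  have h2 : er F (g : Gam P) = g := by
    funext i
    by_cases hi : i ∈ F
    · rw [er_of_mem hi, hg i hi]
    · rw [er_of_notMem hi]
  have h3 : er F (g : Gam P) ∈ N.map (EL B).subtype := h1 g.2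
  rw [h2] at h3
  obtain ⟨x, hx, hxg⟩ := h3
  have : x = g := Subtype.ext hxg
  rwa [← this]

end index

/-! ### the data -/

/-- the data: elements `x n`, `T n` of the product and sets of indices `D n m` -/
structure Data (A : Subring (∀ i, P i)) where
  x : ℕ → ∀ i, P i
  T : ℕ → ∀ i, P i
  hx : ∀ n, x n ∈ A
  hT : ∀ n, T n ∈ A
  D : ℕ → ℕ → Set I
  TT : ∀ n, T n * T n = 1
  xT : ∀ n m i, i ∈ D n m → x n i * T m i + T m i * x n i = T m i
  xT' : ∀ n m i, i ∉ D n m → x n i * T m i + T m i * x n i = 0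
  refl : ∀ n i, i ∈ D n n
  fin : ∀ n m, n < m → (D n m).Finite
  single : ∀ i, ∃ n, ∀ j, j ∈ D n 0 ↔ j = i

variable {A : Subring (∀ i, P i)}

theorem exists_idem (h2 : ∀ (i : I) (r : P i), r + r = 0) (d : Data A)
    {B : Subring (∀ i, P i)} (hAB : A ≤ B)
    (N : Subgroup ↥(EL B)) (hN : N.Normal) (hi : N.index ≠ 0) :
    ∃ (F : Set I) (hF : idem F ∈ B), F.Finite ∧ JJ N ⟨idem F, hF⟩ := by
  have hfi : N.FiniteIndex := ⟨hi⟩
  have : Finite (↥(EL B) ⧸ N) := inferInstance
  have h01 : (0 : Fin 3) ≠ 1 := by decide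
  obtain ⟨m, n, hmn, heq⟩ : ∃ m n : ℕ, m < n ∧
      (QuotientGroup.mk (el 0 1 h01 ⟨d.x m, hAB (d.hx m)⟩) : ↥(EL B) ⧸ N)
        = QuotientGroup.mk (el 0 1 h01 ⟨d.x n, hAB (d.hx n)⟩) := by
    obtain ⟨m, n, hne, he⟩ := Finite.exists_ne_map_eq_of_infinite
      (fun m : ℕ => (QuotientGroup.mk (el 0 1 h01 ⟨d.x m, hAB (d.hx m)⟩) : ↥(EL B) ⧸ N))
    rcases lt_or_gt_of_ne hne with h | h
    · exact ⟨m, n, h, he⟩
    · exact ⟨n, m, h, he.symm⟩
  rw [QuotientGroup.eq] at heq
  set xm : B := ⟨d.x m, hAB (d.hx m)⟩ with hxm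
  set xn : B := ⟨d.x n, hAB (d.hx n)⟩ with hxn
  set Tn : B := ⟨d.T n, hAB (d.hT n)⟩ with hTn
  have e1 : (el 0 1 h01 xm)⁻¹ * el 0 1 h01 xn = el 0 1 h01 (-xm + xn) := by
    apply Subtype.ext
    change (e 0 1 h01 (xm : ∀ i, P i))⁻¹ * e 0 1 h01 (xn : ∀ i, P i) = _
    rw [e_neg, e_mul]
    rfl
  rw [e1] at heq
  have hJ1 := JJ_of N hN heq
  have hJ2 := JJ_add N (JJ_mulR N hN hJ1 Tn) (JJ_mulL N hN hJ1 Tn)
  have hJ3 := JJ_mulL N hN hJ2 Tn
  have e2 : ((Tn * ((-xm + xn) * Tn + Tn * (-xm + xn)) : B) : ∀ i, P i) = idem (d.D m n) := by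
    funext i
    change d.T n i * ((-(d.x m i) + d.x n i) * d.T n i + d.T n i * (-(d.x m i) + d.x n i)) = _
    have e3 : (-(d.x m i) + d.x n i) * d.T n i + d.T n i * (-(d.x m i) + d.x n i)
        = -(d.x m i * d.T n i + d.T n i * d.x m i) + (d.x n i * d.T n i + d.T n i * d.x n i) := by
      noncomm_ring
    rw [e3, d.xT n n i (d.refl n i)]
    have hTT : d.T n i * d.T n i = 1 := congrFun (d.TT n) i
    by_cases hi : i ∈ d.D m n
    · rw [d.xT m n i hi, neg_add_cancel, mul_zero]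
      simp only [idem, if_pos hi]
    · rw [d.xT' m n i hi, neg_zero, zero_add, hTT]
      simp only [idem, if_neg hi]
  have hF : idem (d.D m n) ∈ B := by
    rw [← e2]; exact (Tn * ((-xm + xn) * Tn + Tn * (-xm + xn))).2
  refine ⟨d.D m n, hF, d.fin m n hmn, ?_⟩
  have e4 : Tn * ((-xm + xn) * Tn + Tn * (-xm + xn)) = ⟨idem (d.D m n), hF⟩ := Subtype.ext e2
  rw [← e4]
  exact hJ3

theorem single_mem (d : Data A) [DecidableEq I] (i : I) : (Pi.single i 1 : ∀ i, P i) ∈ A := by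
  obtain ⟨n, hn⟩ := d.single i
  have h1 : (Pi.single i 1 : ∀ i, P i) = d.T 0 * (d.x n * d.T 0 + d.T 0 * d.x n) := by
    funext j
    change _ = d.T 0 j * (d.x n j * d.T 0 j + d.T 0 j * d.x n j)
    by_cases hj : j = i
    · rw [d.xT n 0 j ((hn j).2 hj)]
      have hTT : d.T 0 j * d.T 0 j = 1 := congrFun (d.TT 0) j
      subst hj
      rw [hTT, Pi.single_eq_same]
    · rw [d.xT' n 0 j (fun h => hj ((hn j).1 h)), mul_zero, Pi.single_eq_of_ne hj]
  rw [h1]
  exact A.mul_mem (d.hT 0) (A.add_mem (A.mul_mem (d.hx n) (d.hT 0)) (A.mul_mem (d.hT 0) (d.hx n)))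

/-- the pointwise closure of `A` -/
def LocA (A : Subring (∀ i, P i)) (r : ∀ i, P i) : Prop := ∀ i, ∃ a ∈ A, a i = r i

theorem supp_mem (d : Data A) {F : Set I} (hF : F.Finite) {r : ∀ i, P i} (hr : LocA A r)
    (h0 : ∀ i, i ∉ F → r i = 0) : r ∈ A := by
  classical
  choose a ha har using hr
  have h1 : r = ∑ i ∈ hF.toFinset, Pi.single i 1 * a i := by
    funext j
    rw [Finset.sum_apply]
    by_cases hj : j ∈ F
    · rw [Finset.sum_eq_single j]
      · rw [Pi.mul_apply, Pi.single_eq_same, one_mul, har]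
      · intro i _ hij
        rw [Pi.mul_apply, Pi.single_eq_of_ne hij.symm, zero_mul]
      · intro h
        exact absurd ((Set.Finite.mem_toFinset hF).2 hj) h
    · rw [h0 j hj, Finset.sum_eq_zero]
      intro i hi
      have hij : j ≠ i := fun h => hj (h ▸ (Set.Finite.mem_toFinset hF).1 hi)
      rw [Pi.mul_apply, Pi.single_eq_of_ne hij, zero_mul]
  rw [h1]
  exact A.sum_mem fun i _ => A.mul_mem (single_mem d i) (ha i)

/-- restricting an element of `EL B` to a finite set of coordinates gives an element of `EL A` -/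
theorem restrict_mem (d : Data A) {B : Subring (∀ i, P i)} (hB : ∀ r ∈ B, LocA A r)
    {F : Set I} (hF : F.Finite) {g : Gam P} (hg : g ∈ EL B) : er Fᶜ g ∈ EL A := by
  have h1 : EL B ≤ (EL A).comap (er Fᶜ) := by
    conv_lhs => unfold EL
    rw [Subgroup.closure_le]
    rintro x ⟨a, b, h, r, hr, rfl⟩
    change er Fᶜ (e a b h r) ∈ EL A
    rw [er_e]
    apply e_mem
    apply supp_mem d hF
    · intro i
      by_cases hi : i ∈ Fᶜ
      · exact ⟨0, A.zero_mem, by simp only [Pi.mul_apply, idem, if_pos hi, zero_mul]; rfl⟩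
      · obtain ⟨a, ha, har⟩ := hB r hr i
        exact ⟨a, ha, by simp only [Pi.mul_apply, idem, if_neg hi, one_mul]; exact har⟩
    · intro i hi
      have hi' : i ∈ Fᶜ := hi
      simp only [Pi.mul_apply, idem, if_pos hi', zero_mul]
  exact h1 hg

/-- first condition on the profinite completions -/
theorem cond_one (h2 : ∀ (i : I) (r : P i), r + r = 0) [∀ i, Finite (P i)] (d : Data A)
    {B : Subring (∀ i, P i)} (hAB : A ≤ B) (N : Subgroup ↥(EL A)) (hN : N.Normal)
    (hi : N.index ≠ 0) :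
    ∃ M : Subgroup ↥(EL B), M.Normal ∧ M.index ≠ 0 ∧
      M.comap (Subgroup.inclusion (EL_mono hAB)) ≤ N := by
  obtain ⟨F, hF, hFf, hJ⟩ := exists_idem h2 d (le_refl A) N hN hi
  have hFF : Finite F := hFf.to_subtype
  let φ : ↥(EL B) →* (∀ i : F, (Matrix (Fin 3) (Fin 3) (P i))ˣ) :=
    { toFun := fun g i => (g : Gam P) i
      map_one' := rfl
      map_mul' := fun _ _ => rfl }
  refine ⟨φ.ker, inferInstance, ?_, ?_⟩
  · have : φ.ker.FiniteIndex := inferInstance
    exact this.index_ne_zero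
  · intro g hg
    apply mem_of_idem N hN F hF hJ
    intro i hi
    have h3 : φ (Subgroup.inclusion (EL_mono hAB) g) = 1 := hg
    exact congrFun h3 ⟨i, hi⟩

/-- second condition on the profinite completions -/
theorem cond_two (h2 : ∀ (i : I) (r : P i), r + r = 0) (d : Data A)
    {B : Subring (∀ i, P i)} (hAB : A ≤ B) (hB : ∀ r ∈ B, LocA A r) (M : Subgroup ↥(EL B))
    (hM : M.Normal) (hi : M.index ≠ 0) (h : ↥(EL B)) :
    ∃ g : ↥(EL A), ∃ m ∈ M, h = Subgroup.inclusion (EL_mono hAB) g * m := by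
  obtain ⟨F, hF, hFf, hJ⟩ := exists_idem h2 d hAB M hM hi
  have h1 := restrict_mem d hB hFf h.2
  set g : ↥(EL A) := ⟨er Fᶜ (h : Gam P), h1⟩ with hg
  refine ⟨g, (Subgroup.inclusion (EL_mono hAB) g)⁻¹ * h, ?_, by group⟩
  apply mem_of_idem M hM F hF hJ
  intro i hi
  change (er Fᶜ (h : Gam P) i)⁻¹ * (h : Gam P) i = 1
  have hi' : i ∉ Fᶜ := fun hc => hc hi
  rw [er_of_notMem hi', inv_mul_cancel]

/-- residual finiteness -/
theorem res_fin [∀ i, Finite (P i)] (B : Subring (∀ i, P i)) (g : ↥(EL B)) (hg : g ≠ 1) :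
    ∃ N : Subgroup ↥(EL B), N.Normal ∧ N.index ≠ 0 ∧ g ∉ N := by
  obtain ⟨i, hi⟩ : ∃ i, (g : Gam P) i ≠ 1 := by
    by_contra hcon
    push Not at hcon
    exact hg (Subtype.ext (funext hcon))
  let φ : ↥(EL B) →* (Matrix (Fin 3) (Fin 3) (P i))ˣ :=
    { toFun := fun g => (g : Gam P) i
      map_one' := rfl
      map_mul' := fun _ _ => rfl }
  refine ⟨φ.ker, inferInstance, ?_, fun h => hi h⟩
  have : φ.ker.FiniteIndex := inferInstance
  exact this.index_ne_zero

/-! ### the ring `B` and the chain -/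

section chain

variable (A) (U : ℕ → Set I) (hU : Monotone U)

/-- the ring of all elements that are pointwise in `A` and agree with an element of `A` outside some
`U n` -/
def BB : Subring (∀ i, P i) where
  carrier := {r | LocA A r ∧ ∃ n, ∃ a ∈ A, ∀ i, i ∉ U n → a i = r i}
  zero_mem' := ⟨fun i => ⟨0, A.zero_mem, rfl⟩, 0, 0, A.zero_mem, fun _ _ => rfl⟩
  one_mem' := ⟨fun i => ⟨1, A.one_mem, rfl⟩, 0, 1, A.one_mem, fun _ _ => rfl⟩
  add_mem' := by
    rintro r s ⟨hr, m, a, ha, har⟩ ⟨hs, n, b, hb, hbs⟩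
    refine ⟨fun i => ?_, max m n, a + b, A.add_mem ha hb, fun i hi => ?_⟩
    · obtain ⟨a, ha, har⟩ := hr i
      obtain ⟨b, hb, hbs⟩ := hs i
      exact ⟨a + b, A.add_mem ha hb, by rw [Pi.add_apply, Pi.add_apply, har, hbs]⟩
    · rw [Pi.add_apply, Pi.add_apply, har i (fun h => hi (hU (le_max_left _ _) h)),
        hbs i (fun h => hi (hU (le_max_right _ _) h))]
  mul_mem' := by
    rintro r s ⟨hr, m, a, ha, har⟩ ⟨hs, n, b, hb, hbs⟩
    refine ⟨fun i => ?_, max m n, a * b, A.mul_mem ha hb, fun i hi => ?_⟩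
    · obtain ⟨a, ha, har⟩ := hr i
      obtain ⟨b, hb, hbs⟩ := hs i
      exact ⟨a * b, A.mul_mem ha hb, by rw [Pi.mul_apply, Pi.mul_apply, har, hbs]⟩
    · rw [Pi.mul_apply, Pi.mul_apply, har i (fun h => hi (hU (le_max_left _ _) h)),
        hbs i (fun h => hi (hU (le_max_right _ _) h))]
  neg_mem' := by
    rintro r ⟨hr, m, a, ha, har⟩
    refine ⟨fun i => ?_, m, -a, A.neg_mem ha, fun i hi => ?_⟩
    · obtain ⟨a, ha, har⟩ := hr i
      exact ⟨-a, A.neg_mem ha, by rw [Pi.neg_apply, Pi.neg_apply, har]⟩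
    · rw [Pi.neg_apply, Pi.neg_apply, har i hi]

theorem A_le_BB : A ≤ BB A U hU := fun a ha =>
  ⟨fun _ => ⟨a, ha, rfl⟩, 0, a, ha, fun _ _ => rfl⟩

/-- the chain of subgroups -/
def KK (n : ℕ) : Subgroup ↥(EL (BB A U hU)) where
  carrier := {h | ∃ g ∈ EL A, ∀ i, i ∉ U n → g i = (h : Gam P) i}
  one_mem' := ⟨1, one_mem _, fun _ _ => rfl⟩
  mul_mem' := by
    rintro x y ⟨g, hg, hgx⟩ ⟨h, hh, hhy⟩
    refine ⟨g * h, mul_mem hg hh, fun i hi => ?_⟩
    rw [Pi.mul_apply, hgx i hi, hhy i hi]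
    rfl
  inv_mem' := by
    rintro x ⟨g, hg, hgx⟩
    refine ⟨g⁻¹, inv_mem hg, fun i hi => ?_⟩
    rw [Pi.inv_apply, hgx i hi]
    rfl

theorem KK_mono : Monotone (KK A U hU) := by
  rintro m n hmn x ⟨g, hg, hgx⟩
  exact ⟨g, hg, fun i hi => hgx i (fun h => hi (hU hmn h))⟩

theorem KK_union (h : ↥(EL (BB A U hU))) : ∃ n, h ∈ KK A U hU n := by
  obtain ⟨h, hh⟩ := h
  have key : ∀ x ∈ EL (BB A U hU), ∃ n, ∃ g ∈ EL A, ∀ i, i ∉ U n → g i = x i := by
    intro x hx
    induction hx using Subgroup.closure_induction with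
    | mem x hx =>
      obtain ⟨a, b, hab, r, ⟨-, n, c, hc, hcr⟩, rfl⟩ := hx
      refine ⟨n, e a b hab c, e_mem a b hab hc, fun i hi => ?_⟩
      simp only [e]
      rw [hcr i hi]
    | one => exact ⟨0, 1, one_mem _, fun _ _ => rfl⟩
    | mul x y _ _ ihx ihy =>
      obtain ⟨m, g, hg, hgx⟩ := ihx
      obtain ⟨n, k, hk, hky⟩ := ihy
      refine ⟨max m n, g * k, mul_mem hg hk, fun i hi => ?_⟩
      rw [Pi.mul_apply, Pi.mul_apply, hgx i (fun h => hi (hU (le_max_left _ _) h)),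
        hky i (fun h => hi (hU (le_max_right _ _) h))]
    | inv x _ ihx =>
      obtain ⟨m, g, hg, hgx⟩ := ihx
      refine ⟨m, g⁻¹, inv_mem hg, fun i hi => ?_⟩
      rw [Pi.inv_apply, Pi.inv_apply, hgx i hi]
  obtain ⟨n, g, hg, hgh⟩ := key h hh
  exact ⟨n, g, hg, hgh⟩

theorem KK_ne_top [∀ i, Nontrivial (P i)] (hc : Countable ↥(EL A)) (n : ℕ) (ψ : ℕ → I)
    (hψ : Function.Injective ψ) (h1 : ∀ k, ψ k ∈ U (n + 1)) (h2 : ∀ k, ψ k ∉ U n) :
    KK A U hU n ≠ ⊤ := by
  classical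
  intro htop
  have h01 : (0 : Fin 3) ≠ 1 := by decide
  let ind : Set ℕ → ∀ i, P i := fun Z i => if ∃ k ∈ Z, ψ k = i then 1 else 0
  have hind : ∀ Z, ind Z ∈ BB A U hU := by
    intro Z
    refine ⟨fun i => ?_, n + 1, 0, A.zero_mem, fun i hi => ?_⟩
    · by_cases h : ∃ k ∈ Z, ψ k = i
      · exact ⟨1, A.one_mem, by simp only [ind, if_pos h]; rfl⟩
      · exact ⟨0, A.zero_mem, by simp only [ind, if_neg h]; rfl⟩
    · have h : ¬ ∃ k ∈ Z, ψ k = i := by
        rintro ⟨k, -, rfl⟩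
        exact hi (h1 k)
      simp only [ind, if_neg h]
      rfl
  have hg : ∀ Z : Set ℕ, ∃ g : ↥(EL A), ∀ i, i ∉ U n → (g : Gam P) i = e 0 1 h01 (ind Z) i := by
    intro Z
    have h3 : (⟨e 0 1 h01 (ind Z), e_mem 0 1 h01 (hind Z)⟩ : ↥(EL (BB A U hU)))
        ∈ KK A U hU n := by rw [htop]; trivial
    obtain ⟨g, hg, hgi⟩ := h3
    exact ⟨⟨g, hg⟩, hgi⟩
  choose γ hγ using hg
  have hinj : Function.Injective γ := by
    intro Z W hZW
    ext k
    have h3 : ind Z (ψ k) = ind W (ψ k) := by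
      apply E_inj 0 1 h01
      have e1 := hγ Z (ψ k) (h2 k)
      have e2 := hγ W (ψ k) (h2 k)
      rw [hZW, e2] at e1
      exact e1.symm
    have h4 : ∀ Z : Set ℕ, (∃ l ∈ Z, ψ l = ψ k) ↔ k ∈ Z := by
      intro Z
      constructor
      · rintro ⟨l, hl, hlk⟩
        rwa [← hψ hlk]
      · intro hk
        exact ⟨k, hk, rfl⟩
    simp only [ind, h4] at h3
    by_cases hkZ : k ∈ Z <;> by_cases hkW : k ∈ W
    · exact ⟨fun _ => hkW, fun _ => hkZ⟩
    · rw [if_pos hkZ, if_neg hkW] at h3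
      exact absurd h3 one_ne_zero
    · rw [if_neg hkZ, if_pos hkW] at h3
      exact absurd h3.symm one_ne_zero
    · exact ⟨fun h => absurd h hkZ, fun h => absurd h hkW⟩
  have hcs : Countable (Set ℕ) := hinj.countable
  obtain ⟨f, hf⟩ := exists_surjective_nat (Set ℕ)
  exact Function.cantor_surjective f hf

end chain

end Q24.FAAlg
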