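import Mathlib

/-!
# Profinite piles: definitions
-/

set_option autoImplicit false

namespace Q24.Pile

universe u

/-- A pile `(G, T)`: a profinite group `G` with a continuous right action `(t, g) ↦ act t g` on a
profinite space `T`. -/
structure IsPile {G T : Type u} [Group G] [TopologicalSpace G] [TopologicalSpace T]
    (act : T → G → T) : Prop where
  topGroup : IsTopologicalGroup G
  compactG : CompactSpace G
  t2G : T2Space G
  tdG : TotallyDisconnectedSpace G
  compactT : CompactSpace T
  t2T : T2Space T
  tdT : TotallyDisconnectedSpace T
  act_one : ∀ t, act t 1 = t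
  act_mul : ∀ t g h, act t (g * h) = act (act t g) h
  cont : Continuous fun z : T × G => act z.1 z.2

/-- The stabilizer `G_t` of a point. -/
def stab {G T : Type u} (act : T → G → T) (t : T) : Set G := {g | act t g = t}

section morphisms

variable {A B X Y : Type u} [Group A] [Group B] [TopologicalSpace A] [TopologicalSpace B]
  [TopologicalSpace X] [TopologicalSpace Y]

/-- A morphism of piles `(B, Y) → (A, X)`: a continuous homomorphism `f : B → A` and a continuous
map `u : Y → X` with `u (y^b) = (u y)^(f b)`. -/
structure IsMorphism (actB : Y → B → Y) (actA : X → A → X) (f : B →* A) (u : Y → X) : Prop where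
  cont_f : Continuous f
  cont_u : Continuous u
  compat : ∀ y b, u (actB y b) = actA (u y) (f b)

/-- An epimorphism of piles: both maps are surjective and every `x ∈ X` has a preimage `y ∈ Y`
with `f(B_y) = A_x`. -/
structure IsEpi (actB : Y → B → Y) (actA : X → A → X) (f : B →* A) (u : Y → X) : Prop extends
    IsMorphism actB actA f u where
  surj_f : Function.Surjective f
  surj_u : Function.Surjective u
  stab : ∀ x, ∃ y, u y = x ∧ f '' stab actB y = stab actA x

/-- A rigid morphism of finite piles: `f` maps each stabilizer `B_y` bijectively onto `A_(u y)`, and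
the induced map `Y/B → X/A` of the (finite, discrete) orbit spaces is bijective, that is injective
and surjective. -/
structure IsRigid (actB : Y → B → Y) (actA : X → A → X) (f : B →* A) (u : Y → X) : Prop extends
    IsMorphism actB actA f u where
  bij_stab : ∀ y, Set.BijOn f (stab actB y) (stab actA (u y))
  orbits_inj : ∀ y y', (∃ a, actA (u y) a = u y') → ∃ b, actB y b = y'
  orbits_surj : ∀ x, ∃ y a, actA (u y) a = x

end morphisms

/-- A pile `(G, T)` is projective: every finite rigid embedding problem, given by a morphism
`(f, u) : (G, T) → (A, X)` and a rigid epimorphism `(α, β) : (B, Y) → (A, X)` with `(B, Y)` finite,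
has a solution, which is a morphism `(γ, c) : (G, T) → (B, Y)` with `α ∘ γ = f` and `β ∘ c = u`. -/
def IsProjective {G T : Type u} [Group G] [TopologicalSpace G] [TopologicalSpace T]
    (act : T → G → T) : Prop :=
  IsPile act ∧
  ∀ (A B X Y : Type u) [Group A] [Group B] [TopologicalSpace A] [TopologicalSpace B]
    [TopologicalSpace X] [TopologicalSpace Y] (actA : X → A → X) (actB : Y → B → Y),
    IsPile actA → IsPile actB → Finite B → Finite Y →
    ∀ (f : G →* A) (u : T → X), IsMorphism act actA f u →
    ∀ (α : B →* A) (β : Y → X), IsEpi actB actA α β → IsRigid actB actA α β →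
      ∃ (γ : G →* B) (c : T → Y), IsMorphism act actB γ c ∧ α.comp γ = f ∧ β ∘ c = u

end Q24.Pile
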