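import Mathlib

/-!
# Profinite completions with respect to a family of finite index normal subgroups
-/

set_option autoImplicit false

namespace Q24.ProfCompl

universe u

/-- A profinite group: a compact, Hausdorff, totally disconnected topological group. -/
structure IsProfinite (G : Type u) [Group G] [TopologicalSpace G] : Prop where
  topGroup : IsTopologicalGroup G
  compact : CompactSpace G
  t2 : T2Space G
  td : TotallyDisconnectedSpace G

variable {W : Type u} [Group W] (C : Subgroup W → Prop)

/-- the finite quotients in the family -/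
structure Idx where
  /-- the normal subgroup -/
  N : Subgroup W
  normal : N.Normal
  fin : Finite (W ⧸ N)
  mem : C N

attribute [instance] Idx.normal Idx.fin

variable {C}

/-- the quotient -/
def Quo (i : Idx C) : Type u := W ⧸ i.N

instance (i : Idx C) : Group (Quo i) := inferInstanceAs (Group (W ⧸ i.N))
instance (i : Idx C) : Finite (Quo i) := i.fin
instance (i : Idx C) : TopologicalSpace (Quo i) := ⊥
instance (i : Idx C) : DiscreteTopology (Quo i) := ⟨rfl⟩

variable (C)

/-- the canonical homomorphism -/
def can : W →* ∀ i : Idx C, Quo i :=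
  MonoidHom.pi fun i => (QuotientGroup.mk' i.N : W →* Quo i)

/-- the completion -/
def Grp : Subgroup (∀ i : Idx C, Quo i) := (can C).range.topologicalClosure

theorem isClosed_Grp : IsClosed ((Grp C : Subgroup (∀ i : Idx C, Quo i)) :
    Set (∀ i : Idx C, Quo i)) :=
  Subgroup.isClosed_topologicalClosure _

theorem isProfinite_Grp : IsProfinite (Grp C) where
  topGroup := inferInstance
  compact := isCompact_iff_compactSpace.mp (isClosed_Grp C).isCompact
  t2 := inferInstance
  td := inferInstance

/-- the canonical map to the completion -/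
def can' : W →* Grp C :=
  (can C).codRestrict _ fun g => Subgroup.le_topologicalClosure _ ⟨g, rfl⟩

/-- a closed subset containing the image of the discrete group is everything -/
theorem closed_top {K : Set (Grp C)} (hK : IsClosed K) (h : ∀ g, can' C g ∈ K)
    (g : Grp C) : g ∈ K := by
  have h1 : IsClosed (Subtype.val '' K) :=
    (isClosed_Grp C).isClosedEmbedding_subtypeVal.isClosedMap _ hK
  have h2 : closure (((can C).range : Subgroup _) : Set (∀ i : Idx C, Quo i)) ⊆
      Subtype.val '' K := by
    refine closure_minimal ?_ h1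
    rintro _ ⟨w, rfl⟩
    exact ⟨can' C w, h w, rfl⟩
  obtain ⟨g', hg', he⟩ := h2 g.2
  rwa [← Subtype.ext he]

theorem hom_unique {P : Type u} [Group P] [TopologicalSpace P] [T2Space P] {φ ψ : Grp C →* P}
    (hφ : Continuous φ) (hψ : Continuous ψ)
    (h : ∀ w, φ (can' C w) = ψ (can' C w)) : φ = ψ := by
  ext g
  exact closed_top C (isClosed_eq hφ hψ) h g

theorem continuous_can' {S : Type u} [TopologicalSpace S] (s : S → W)
    (hs : ∀ N : Subgroup W, C N → ∀ x : S, IsOpen {y | (s x)⁻¹ * s y ∈ N}) :
    Continuous fun x => can' C (s x) := by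
  refine Continuous.subtype_mk (continuous_pi fun i => ?_) _
  change Continuous fun x => (can C (s x)) i
  rw [continuous_discrete_rng]
  intro q
  rw [isOpen_iff_forall_mem_open]
  intro x hx
  refine ⟨{y | (s x)⁻¹ * s y ∈ i.N}, ?_, hs i.N i.mem x, by simp [i.N.one_mem]⟩
  intro y hy
  have hx' : (QuotientGroup.mk' i.N (s x) : W ⧸ i.N) = q := hx
  change (QuotientGroup.mk' i.N (s y) : W ⧸ i.N) = q
  rw [← hx']
  exact (QuotientGroup.eq.mpr hy).symm

theorem exists_finite {P : Type u} [Group P] [TopologicalSpace P] [DiscreteTopology P] [Finite P]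
    (f : W →* P) (hf : C f.ker) :
    ∃ φ : Grp C →* P, Continuous φ ∧ ∀ w, φ (can' C w) = f w := by
  have hinj : Function.Injective (QuotientGroup.kerLift f) := QuotientGroup.kerLift_injective f
  let i : Idx C :=
    { N := f.ker
      normal := inferInstance
      fin := Finite.of_injective _ hinj
      mem := hf }
  let k : Quo i →* P := QuotientGroup.kerLift f
  let e : (∀ i : Idx C, Quo i) →* Quo i := Pi.evalMonoidHom _ i
  refine ⟨(k.comp e).comp (Grp C).subtype, ?_, ?_⟩
  · have h1 : Continuous k := continuous_of_discreteTopology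
    have h2 : Continuous e := continuous_apply i
    exact (h1.comp h2).comp continuous_subtype_val
  · intro w
    rfl

theorem exists_hom {P : Type u} [Group P] [TopologicalSpace P] (hP : IsProfinite P)
    (f : W →* P) (hf : ∀ M : Subgroup P, M.Normal → IsOpen (M : Set P) → C (M.comap f)) :
    ∃ φ : Grp C →* P, Continuous φ ∧ ∀ w, φ (can' C w) = f w := by
  have := hP.topGroup
  have := hP.compact
  have := hP.t2
  have := hP.td
  have := (isProfinite_Grp C).compact
  let F : W →* (Grp C) × P := (can' C).prod f
  let H : Subgroup ((Grp C) × P) := F.range.topologicalClosure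
  have hH : IsClosed (H : Set ((Grp C) × P)) := Subgroup.isClosed_topologicalClosure _
  have : CompactSpace H := isCompact_iff_compactSpace.mp hH.isCompact
  let π : H →* Grp C := (MonoidHom.fst _ _).comp H.subtype
  have hπ : Continuous π := continuous_fst.comp continuous_subtype_val
  have hsurj : Function.Surjective π := by
    intro g
    refine closed_top C (K := Set.range π) (isCompact_range hπ).isClosed ?_ g
    intro w
    exact ⟨⟨F w, Subgroup.le_topologicalClosure _ ⟨w, rfl⟩⟩, rfl⟩
  have hinj : Function.Injective π := by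
    rw [injective_iff_map_eq_one]
    rintro ⟨⟨g, r⟩, hgr⟩ hg
    have hg' : g = 1 := hg
    subst hg'
    apply Subtype.ext
    change ((1 : Grp C), r) = (1, 1)
    congr 1
    by_contra hr
    obtain ⟨N, hN⟩ := ProfiniteGrp.exist_openNormalSubgroup_sub_open_nhds_of_one
      (G := P) (U := {r}ᶜ) isOpen_compl_singleton (fun h => hr h.symm)
    have hNo : IsOpen (N.toSubgroup : Set P) := N.isOpen'
    have hNn : N.toSubgroup.Normal := N.isNormal'
    have : DiscreteTopology (P ⧸ N.toSubgroup) := QuotientGroup.discreteTopology hNo
    have : Finite (P ⧸ N.toSubgroup) := Subgroup.quotient_finite_of_isOpen _ hNo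
    let m : P →* P ⧸ N.toSubgroup := QuotientGroup.mk' N.toSubgroup
    have hm : Continuous m := continuous_quotient_mk'
    have hker : (m.comp f).ker = N.toSubgroup.comap f := by
      ext w
      simp [m, MonoidHom.mem_ker]
    obtain ⟨φ, hφ, hφw⟩ := exists_finite C (m.comp f) (by
      rw [hker]
      exact hf _ hNn hNo)
    have hK : IsClosed {z : (Grp C) × P | φ z.1 = m z.2} :=
      isClosed_eq (hφ.comp continuous_fst) (hm.comp continuous_snd)
    have hsub : (H : Set ((Grp C) × P)) ⊆ {z : (Grp C) × P | φ z.1 = m z.2} := by
      refine closure_minimal ?_ hK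
      rintro _ ⟨w, rfl⟩
      change φ (can' C w) = m (f w)
      rw [hφw]
      rfl
    have h2 : φ (1 : Grp C) = m r := hsub hgr
    rw [map_one] at h2
    have h3 : r ∈ N.toSubgroup := by
      have := h2.symm
      simpa [m] using this
    exact hN h3 rfl
  let eq : H ≃ Grp C := Equiv.ofBijective π ⟨hinj, hsurj⟩
  let ho : H ≃ₜ Grp C := Continuous.homeoOfEquivCompactToT2 (f := eq) hπ
  let em : H ≃* Grp C := MulEquiv.ofBijective π ⟨hinj, hsurj⟩
  let ψ : Grp C →* H := em.symm.toMonoidHom
  have hψ : Continuous ψ := ho.symm.continuous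
  refine ⟨((MonoidHom.snd _ _).comp H.subtype).comp ψ, ?_, ?_⟩
  · exact (continuous_snd.comp continuous_subtype_val).comp hψ
  · intro w
    have : ψ (can' C w) = ⟨F w, Subgroup.le_topologicalClosure _ ⟨w, rfl⟩⟩ := by
      apply hinj
      change em (em.symm (can' C w)) = _
      rw [em.apply_symm_apply]
      rfl
    change (ψ (can' C w)).1.2 = f w
    rw [this]
    rfl

end Q24.ProfCompl
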