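import Mathlib
import Pool.Agent.Q24.ProfCompl

/-!
# Free profinite groups and free profinite products: definitions and existence
-/

set_option autoImplicit false

namespace Q24.PileEmbed

open Q24.ProfCompl

universe u

/-- `F` is the free profinite group on the profinite space `Z`, with universal map `ι`: every
continuous map from `Z` to a profinite group `P` extends to exactly one continuous homomorphism
`F → P`. -/
structure IsFreeOn (Z F : Type u) [TopologicalSpace Z] [Group F] [TopologicalSpace F]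
    (ι : Z → F) : Prop where
  compact : CompactSpace Z
  t2 : T2Space Z
  td : TotallyDisconnectedSpace Z
  profinite : IsProfinite F
  cont : Continuous ι
  universal : ∀ (P : Type u) [Group P] [TopologicalSpace P], IsProfinite P →
    ∀ f : Z → P, Continuous f → ∃! φ : F →* P, Continuous φ ∧ ∀ z, φ (ι z) = f z

/-- `H` is the free profinite product of the profinite groups `H₁` and `F`, with the universal maps
`i₁ : H₁ → H` and `i₂ : F → H`. -/
structure IsFreeProduct {H₁ F H : Type u} [Group H₁] [Group F] [Group H] [TopologicalSpace H₁]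
    [TopologicalSpace F] [TopologicalSpace H] (i₁ : H₁ →* H) (i₂ : F →* H) : Prop where
  profinite₁ : IsProfinite H₁
  profinite₂ : IsProfinite F
  profinite : IsProfinite H
  cont₁ : Continuous i₁
  cont₂ : Continuous i₂
  universal : ∀ (P : Type u) [Group P] [TopologicalSpace P], IsProfinite P →
    ∀ (f₁ : H₁ →* P) (f₂ : F →* P), Continuous f₁ → Continuous f₂ →
      ∃! φ : H →* P, Continuous φ ∧ φ.comp i₁ = f₁ ∧ φ.comp i₂ = f₂

section free

variable (Z : Type u) [TopologicalSpace Z]

/-- the family of finite index normal subgroups for the free profinite group -/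
def CF (N : Subgroup (FreeGroup Z)) : Prop :=
  ∀ z : Z, IsOpen {y | (FreeGroup.of z)⁻¹ * FreeGroup.of y ∈ N}

theorem exists_free [CompactSpace Z] [T2Space Z] [TotallyDisconnectedSpace Z] :
    IsFreeOn Z (Grp (CF Z)) (fun z => can' (CF Z) (FreeGroup.of z)) where
  compact := inferInstance
  t2 := inferInstance
  td := inferInstance
  profinite := isProfinite_Grp _
  cont := continuous_can' _ _ fun _ hN z => hN z
  universal P _ _ hP f hf := by
    have := hP.t2
    have := hP.topGroup
    obtain ⟨φ, hφ, hφw⟩ := exists_hom (CF Z) hP (FreeGroup.lift f) (by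
      intro M hM hMo z
      have : {y | (FreeGroup.of z)⁻¹ * FreeGroup.of y ∈ M.comap (FreeGroup.lift f)} =
          (fun y => (f z)⁻¹ * f y) ⁻¹' (M : Set P) := by
        ext y
        simp
      rw [this]
      exact hMo.preimage (continuous_const.mul hf))
    refine ⟨φ, ⟨hφ, fun z => by rw [hφw]; simp⟩, ?_⟩
    rintro ψ ⟨hψ, hψz⟩
    refine hom_unique _ hψ hφ fun w => ?_
    rw [hφw]
    change (ψ.comp (can' (CF Z))) w = (FreeGroup.lift f) w
    congr 1
    ext z
    simp [hψz]

end free

section product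

variable (H₁ Z : Type u) [Group H₁] [TopologicalSpace H₁] [TopologicalSpace Z]

/-- the family of finite index normal subgroups for the free product -/
def CP (N : Subgroup (Monoid.Coprod H₁ (FreeGroup Z))) : Prop :=
  (∀ z : Z, IsOpen {y | (Monoid.Coprod.inr (FreeGroup.of z) : Monoid.Coprod H₁ (FreeGroup Z))⁻¹ *
    Monoid.Coprod.inr (FreeGroup.of y) ∈ N}) ∧
  ∀ x : H₁, IsOpen {y | (Monoid.Coprod.inl x : Monoid.Coprod H₁ (FreeGroup Z))⁻¹ *
    Monoid.Coprod.inl y ∈ N}

theorem exists_product (hH₁ : IsProfinite H₁) [CompactSpace Z] [T2Space Z]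
    [TotallyDisconnectedSpace Z] :
    ∃ (F H : Type u) (_ : Group F) (_ : Group H) (_ : TopologicalSpace F) (_ : TopologicalSpace H)
      (ι : Z → F) (i₁ : H₁ →* H) (i₂ : F →* H), IsFreeOn Z F ι ∧ IsFreeProduct i₁ i₂ := by
  have hF := exists_free Z
  let W := Monoid.Coprod H₁ (FreeGroup Z)
  let H := Grp (CP H₁ Z)
  have hH : IsProfinite H := isProfinite_Grp _
  have := hH.t2
  let i₁ : H₁ →* H := (can' (CP H₁ Z)).comp Monoid.Coprod.inl
  have hi₁ : Continuous i₁ := continuous_can' (CP H₁ Z) (fun x : H₁ => (Monoid.Coprod.inl x : W))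
    fun _ hN x => hN.2 x
  let s : Z → H := fun z => can' (CP H₁ Z) (Monoid.Coprod.inr (FreeGroup.of z))
  have hs : Continuous s := continuous_can' (CP H₁ Z)
    (fun z : Z => (Monoid.Coprod.inr (FreeGroup.of z) : W)) fun _ hN x => hN.1 x
  obtain ⟨i₂, ⟨hi₂, hi₂s⟩, _⟩ := hF.universal H hH s hs
  refine ⟨_, H, _, _, _, _, _, i₁, i₂, hF, ⟨hH₁, hF.profinite, hH, hi₁, hi₂, ?_⟩⟩
  intro P _ _ hP f₁ f₂ hf₁ hf₂
  have := hP.t2
  have := hP.topGroup
  let g : Z → P := fun z => f₂ (can' (CF Z) (FreeGroup.of z))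
  have hg : Continuous g := hf₂.comp hF.cont
  obtain ⟨φ, hφ, hφw⟩ := exists_hom (CP H₁ Z) hP (Monoid.Coprod.lift f₁ (FreeGroup.lift g)) (by
    intro M hM hMo
    constructor
    · intro z
      have : {y | (Monoid.Coprod.inr (FreeGroup.of z) : W)⁻¹ *
          Monoid.Coprod.inr (FreeGroup.of y) ∈
            M.comap (Monoid.Coprod.lift f₁ (FreeGroup.lift g))} =
          (fun y => (g z)⁻¹ * g y) ⁻¹' (M : Set P) := by
        ext y
        simp [W]
      rw [this]
      exact hMo.preimage (continuous_const.mul hg)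
    · intro x
      have : {y | (Monoid.Coprod.inl x : W)⁻¹ * Monoid.Coprod.inl y ∈
            M.comap (Monoid.Coprod.lift f₁ (FreeGroup.lift g))} =
          (fun y => (f₁ x)⁻¹ * f₁ y) ⁻¹' (M : Set P) := by
        ext y
        simp [W]
      rw [this]
      exact hMo.preimage (continuous_const.mul hf₁))
  have hφ₂ : φ.comp i₂ = f₂ := by
    obtain ⟨χ, _, hχ⟩ := hF.universal P hP g hg
    rw [hχ (φ.comp i₂) ⟨hφ.comp hi₂, ?_⟩, hχ f₂ ⟨hf₂, fun z => rfl⟩]
    intro z
    change φ (i₂ _) = _
    rw [hi₂s, hφw]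
    simp
  refine ⟨φ, ⟨hφ, ?_, hφ₂⟩, ?_⟩
  · ext x
    change φ (can' (CP H₁ Z) (Monoid.Coprod.inl x)) = _
    rw [hφw]
    simp
  · rintro ψ ⟨hψ, hψ₁, hψ₂⟩
    refine hom_unique _ hψ hφ fun w => ?_
    rw [hφw]
    change (ψ.comp (can' (CP H₁ Z))) w = (Monoid.Coprod.lift f₁ (FreeGroup.lift g)) w
    congr 1
    refine Monoid.Coprod.hom_ext ?_ ?_
    · rw [Monoid.Coprod.lift_comp_inl, ← hψ₁]
      rfl
    · rw [Monoid.Coprod.lift_comp_inr]
      ext z
      simp only [MonoidHom.comp_apply, FreeGroup.lift_apply_of]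
      change ψ (s z) = f₂ _
      rw [← hψ₂, MonoidHom.comp_apply, hi₂s]

end product

end Q24.PileEmbed
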