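import Mathlib
import Pool.Agent.Q24.PileDefs

/-!
# Point stabilizers of finitely generated projective piles are retracts
-/

set_option autoImplicit false

namespace Q24.Pile

universe u

section embedding

variable (A : Type u) [Group A]

/-- the power set of `A` -/
def XX : Type u := A → Prop

instance : TopologicalSpace (XX A) := ⊥
instance : DiscreteTopology (XX A) := ⟨rfl⟩
instance [Finite A] : Finite (XX A) := inferInstanceAs (Finite (A → Prop))

variable {A}

/-- the right action of `A` on its power set -/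
def actX (x : XX A) (b : A) : XX A := fun a => x (b * a)

theorem actX_one (x : XX A) : actX x 1 = x := by
  funext a
  simp only [actX, one_mul]

theorem actX_mul (x : XX A) (b c : A) : actX x (b * c) = actX (actX x b) c := by
  funext a
  simp only [actX, mul_assoc]

/-- the stabilizer -/
def HH (x : XX A) : Subgroup A where
  carrier := {b | actX x b = x}
  one_mem' := actX_one x
  mul_mem' := by
    intro b c hb hc
    change actX x (b * c) = x
    rw [actX_mul, hb, hc]
  inv_mem' := by
    intro b hb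
    change actX x b⁻¹ = x
    have : actX (actX x b) b⁻¹ = x := by rw [← actX_mul, mul_inv_cancel, actX_one]
    rwa [hb] at this

theorem mem_HH (x : XX A) (b : A) : b ∈ HH x ↔ actX x b = x := Iff.rfl

/-- the covering space -/
def YY (x : XX A) : Type u := A ⊕ ({z : XX A // ¬ ∃ a, actX x a = z} × HH x)

instance (x : XX A) : TopologicalSpace (YY x) := ⊥
instance (x : XX A) : DiscreteTopology (YY x) := ⟨rfl⟩
instance [Finite A] (x : XX A) : Finite (YY x) :=
  inferInstanceAs (Finite (A ⊕ ({z : XX A // ¬ ∃ a, actX x a = z} × HH x)))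

theorem not_orbit {x z : XX A} (hz : ¬ ∃ a, actX x a = z) (a : A) :
    ¬ ∃ a', actX x a' = actX z a := by
  rintro ⟨a', h⟩
  refine hz ⟨a' * a⁻¹, ?_⟩
  rw [actX_mul, h, ← actX_mul, mul_inv_cancel, actX_one]

/-- the action of the covering group -/
def actY (x : XX A) (y : YY x) (b : A × HH x) : YY x :=
  match y with
  | Sum.inl a0 => Sum.inl ((b.2 : A)⁻¹ * a0 * b.1)
  | Sum.inr z => Sum.inr (⟨actX z.1.1 b.1, not_orbit z.1.2 b.1⟩, z.2 * b.2)

theorem actY_one (x : XX A) (y : YY x) : actY x y 1 = y := by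
  rcases y with a0 | ⟨⟨z, hz⟩, c⟩
  · simp [actY] <;> rfl
  · simp [actY, actX_one] <;> rfl

theorem actY_mul (x : XX A) (y : YY x) (b c : A × HH x) :
    actY x y (b * c) = actY x (actY x y b) c := by
  rcases y with a0 | ⟨⟨z, hz⟩, d⟩
  · simp [actY, mul_assoc] <;> rfl
  · simp [actY, actX_mul, mul_assoc] <;> rfl

/-- the projection -/
def proY (x : XX A) (y : YY x) : XX A :=
  match y with
  | Sum.inl a0 => actX x a0
  | Sum.inr z => z.1.1

theorem proY_act (x : XX A) (y : YY x) (b : A × HH x) :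
    proY x (actY x y b) = actX (proY x y) b.1 := by
  rcases y with a0 | ⟨⟨z, hz⟩, d⟩
  · simp only [proY, actY]
    rw [mul_assoc, actX_mul, actX_mul]
    have : actX x (b.2 : A)⁻¹ = x := (HH x).inv_mem b.2.2
    rw [this]
  · rfl

theorem isPile_of_finite {G T : Type u} [Group G] [TopologicalSpace G] [TopologicalSpace T]
    [DiscreteTopology G] [DiscreteTopology T] [Finite G] [Finite T] (act : T → G → T)
    (h1 : ∀ t, act t 1 = t) (h2 : ∀ t g h, act t (g * h) = act (act t g) h) : IsPile act where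
  topGroup := inferInstance
  compactG := inferInstance
  t2G := inferInstance
  tdG := inferInstance
  compactT := inferInstance
  t2T := inferInstance
  tdT := inferInstance
  act_one := h1
  act_mul := h2
  cont := continuous_of_discreteTopology

variable [TopologicalSpace A] [DiscreteTopology A]

theorem isMorphism (x : XX A) :
    IsMorphism (actY x) (actX (A := A)) (MonoidHom.fst A (HH x)) (proY x) where
  cont_f := continuous_fst
  cont_u := continuous_of_discreteTopology
  compat y b := proY_act x y b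

theorem bij_stab (x : XX A) (y : YY x) :
    Set.BijOn (MonoidHom.fst A (HH x)) (stab (actY x) y) (stab actX (proY x y)) := by
  refine ⟨?_, ?_, ?_⟩
  · intro b hb
    have hb' : actY x y b = y := hb
    change actX (proY x y) b.1 = proY x y
    rw [← proY_act, hb']
  · rcases y with a0 | ⟨⟨z, hz⟩, d⟩
    · rintro ⟨a, c⟩ h ⟨a', c'⟩ h' he
      have he' : a = a' := he
      subst he'
      have e1 : (c : A)⁻¹ * a0 * a = a0 := Sum.inl_injective h
      have e2 : (c' : A)⁻¹ * a0 * a = a0 := Sum.inl_injective h'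
      have e3 : (c : A)⁻¹ = (c' : A)⁻¹ := mul_right_cancel (mul_right_cancel (e1.trans e2.symm))
      have e4 : c = c' := Subtype.ext (inv_injective e3)
      rw [e4]
    · rintro ⟨a, c⟩ h ⟨a', c'⟩ h' he
      have he' : a = a' := he
      subst he'
      have e1 : d * c = d := congrArg Prod.snd (Sum.inr_injective h)
      have e2 : d * c' = d := congrArg Prod.snd (Sum.inr_injective h')
      have e3 : c = c' := mul_left_cancel (e1.trans e2.symm)
      rw [e3]
  · rcases y with a0 | ⟨⟨z, hz⟩, d⟩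
    · intro a ha
      have ha' : actX (actX x a0) a = actX x a0 := ha
      have hc : a0 * a * a0⁻¹ ∈ HH x := by
        rw [mem_HH, actX_mul, actX_mul, ha', ← actX_mul, mul_inv_cancel, actX_one]
      refine ⟨(a, ⟨a0 * a * a0⁻¹, hc⟩), ?_, rfl⟩
      change actY x (Sum.inl a0) _ = Sum.inl a0
      simp only [actY]
      congr 1
      group
    · intro a ha
      have ha' : actX z a = z := ha
      refine ⟨(a, 1), ?_, rfl⟩
      change actY x (Sum.inr (⟨z, hz⟩, d)) _ = Sum.inr (⟨z, hz⟩, d)
      simp only [actY, ha', mul_one] <;> rfl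

theorem surj_u (x : XX A) : Function.Surjective (proY x) := by
  intro z
  by_cases hz : ∃ a, actX x a = z
  · obtain ⟨a, rfl⟩ := hz
    exact ⟨Sum.inl a, rfl⟩
  · exact ⟨Sum.inr (⟨z, hz⟩, 1), rfl⟩

theorem isEpi (x : XX A) :
    IsEpi (actY x) (actX (A := A)) (MonoidHom.fst A (HH x)) (proY x) where
  toIsMorphism := isMorphism x
  surj_f := fun a => ⟨(a, 1), rfl⟩
  surj_u := surj_u x
  stab := by
    intro z
    obtain ⟨y, rfl⟩ := surj_u x z
    exact ⟨y, rfl, (bij_stab x y).image_eq⟩

theorem isRigid (x : XX A) :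
    IsRigid (actY x) (actX (A := A)) (MonoidHom.fst A (HH x)) (proY x) where
  toIsMorphism := isMorphism x
  bij_stab := bij_stab x
  orbits_surj := fun z => by
    obtain ⟨y, rfl⟩ := surj_u x z
    exact ⟨y, 1, actX_one _⟩
  orbits_inj := by
    rintro (a0 | ⟨⟨z, hz⟩, d⟩) (a0' | ⟨⟨z', hz'⟩, d'⟩) ⟨a, ha⟩
    · refine ⟨(a0⁻¹ * a0', 1), ?_⟩
      simp only [actY]
      congr 1
      simp
    · exfalso
      have ha' : actX (actX x a0) a = z' := ha
      exact hz' ⟨a0 * a, by rw [actX_mul, ha']⟩
    · exfalso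
      have ha' : actX z a = actX x a0' := ha
      refine hz ⟨a0' * a⁻¹, ?_⟩
      rw [actX_mul, ← ha', ← actX_mul, mul_inv_cancel, actX_one]
    · have ha' : actX z a = z' := ha
      refine ⟨(a, d⁻¹ * d'), ?_⟩
      simp only [actY, ha', mul_inv_cancel_left] <;> rfl

end embedding

section main

variable {G T : Type u} [Group G] [TopologicalSpace G] [TopologicalSpace T] {act : T → G → T}

theorem exists_quot (hP : IsPile act) (t0 : T) (N : Subgroup G) (hN : IsOpen (N : Set G)) :
    ∃ (N' : Subgroup G) (U : Set T), N'.Normal ∧ IsOpen (N' : Set G) ∧ N' ≤ N ∧ IsClopen U ∧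
      t0 ∈ U ∧ (∀ g ∈ N', ∀ s, act s g ∈ U ↔ s ∈ U) ∧
      ∀ g, act t0 g ∈ U → ∃ h, act t0 h = t0 ∧ h⁻¹ * g ∈ N := by
  have := hP.topGroup
  have := hP.compactG
  have := hP.t2G
  have := hP.tdG
  have := hP.compactT
  have := hP.t2T
  have := hP.tdT
  let O : Set G := {g | ∃ h, act t0 h = t0 ∧ h⁻¹ * g ∈ N}
  have hO : IsOpen O := by
    have : O = ⋃ h : {h // act t0 h = t0}, (fun g => h.1⁻¹ * g) ⁻¹' (N : Set G) := by
      ext g
      simp [O]
    rw [this]
    exact isOpen_iUnion fun h => hN.preimage (continuous_const.mul continuous_id)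
  have hact : Continuous fun g => act t0 g := hP.cont.comp (Continuous.prodMk_right t0)
  let E : Set T := (fun g => act t0 g) '' Oᶜ
  have hE : IsClosed E := (hO.isClosed_compl.isCompact.image hact).isClosed
  have ht0 : t0 ∈ Eᶜ := by
    rintro ⟨g, hg, hgt⟩
    exact hg ⟨g, hgt, by simp [N.one_mem]⟩
  obtain ⟨U, hU, ht0U, hUE⟩ := compact_exists_isClopen_in_isOpen hE.isOpen_compl ht0
  let W : Set (T × G) := {z | act z.1 z.2 ∈ U ↔ z.1 ∈ U}
  have hW : IsOpen W := by
    have hc1 : IsClopen ((fun z : T × G => act z.1 z.2) ⁻¹' U) := hU.preimage hP.cont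
    have hc2 : IsClopen ((fun z : T × G => z.1) ⁻¹' U) := hU.preimage continuous_fst
    have : W = (((fun z : T × G => act z.1 z.2) ⁻¹' U) ∩ ((fun z : T × G => z.1) ⁻¹' U)) ∪
        (((fun z : T × G => act z.1 z.2) ⁻¹' U)ᶜ ∩ ((fun z : T × G => z.1) ⁻¹' U)ᶜ) := by
      ext z
      simp only [W, Set.mem_ofPred_eq, Set.mem_union, Set.mem_inter_iff, Set.mem_preimage,
        Set.mem_compl_iff]
      tauto
    rw [this]
    exact (hc1.isOpen.inter hc2.isOpen).union
      (hc1.compl.isOpen.inter hc2.compl.isOpen)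
  have hsub : (Set.univ : Set T) ×ˢ ({1} : Set G) ⊆ W := by
    rintro ⟨s, g⟩ ⟨_, hg⟩
    have hg' : g = 1 := hg
    subst hg'
    change act s 1 ∈ U ↔ s ∈ U
    rw [hP.act_one]
  obtain ⟨V1, V2, _, hV2, h1, h2, h3⟩ :=
    generalized_tube_lemma isCompact_univ isCompact_singleton hW hsub
  obtain ⟨N', hN'⟩ := ProfiniteGrp.exist_openNormalSubgroup_sub_open_nhds_of_one
    (G := G) (hV2.inter hN) ⟨h2 rfl, N.one_mem⟩
  refine ⟨N'.toSubgroup, U, N'.isNormal', N'.isOpen', fun g hg => (hN' hg).2, hU, ht0U, ?_, ?_⟩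
  · intro g hg s
    exact h3 (Set.mk_mem_prod (h1 trivial) (hN' hg).1)
  · intro g hg
    by_contra hgO
    exact hUE hg ⟨g, hgO, rfl⟩

theorem exists_rho (h : IsProjective act) (t0 : T) (N : Subgroup G) [N.Normal]
    (hN : IsOpen (N : Set G)) :
    ∃ ρ : G →* G ⧸ N, Continuous ρ ∧
      (∀ g, ∃ k, act t0 k = t0 ∧ ρ g = QuotientGroup.mk' N k) ∧
      ∀ g, act t0 g = t0 → ρ g = QuotientGroup.mk' N g := by
  obtain ⟨hP, hsolve⟩ := h
  obtain ⟨N', U, hN'n, hN'o, hle, hU, ht0U, hinv, hstab⟩ := exists_quot hP t0 N hN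
  have := hP.topGroup
  have := hP.compactG
  have : DiscreteTopology (G ⧸ N') := QuotientGroup.discreteTopology hN'o
  have : Finite (G ⧸ N') := Subgroup.quotient_finite_of_isOpen N' hN'o
  let π : T → XX (G ⧸ N') := fun s a => act s a.out ∈ U
  have hπ : ∀ s g, π s (QuotientGroup.mk' N' g) ↔ act s g ∈ U := by
    intro s g
    obtain ⟨n, hn⟩ := QuotientGroup.mk_out_eq_mul N' g
    change act s ((g : G ⧸ N').out) ∈ U ↔ _
    rw [hn, hP.act_mul]
    exact hinv _ n.2 _
  have hπc : Continuous π := by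
    rw [continuous_discrete_rng]
    intro x
    have : π ⁻¹' {x} = ⋂ a, {s | π s a ↔ x a} := by
      ext s
      simp only [Set.mem_preimage, Set.mem_singleton_iff, Set.mem_iInter, Set.mem_ofPred_eq]
      constructor
      · intro h a
        rw [h]
      · intro h
        funext a
        exact propext (h a)
    rw [this]
    refine isOpen_iInter_of_finite fun a => ?_
    have hact : Continuous fun s => act s a.out := hP.cont.comp (Continuous.prodMk_left _)
    have hcl : IsClopen {s | act s a.out ∈ U} := hU.preimage hact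
    by_cases hx : x a
    · have : {s | π s a ↔ x a} = {s | act s a.out ∈ U} := by
        ext s
        simp [π, hx]
      rw [this]
      exact hcl.isOpen
    · have : {s | π s a ↔ x a} = {s | act s a.out ∈ U}ᶜ := by
        ext s
        simp [π, hx]
      rw [this]
      exact hcl.compl.isOpen
  have hmor : IsMorphism act (actX (A := G ⧸ N')) (QuotientGroup.mk' N') π :=
    { cont_f := continuous_quotient_mk'
      cont_u := hπc
      compat := by
        intro s g
        funext a
        obtain ⟨k, rfl⟩ := QuotientGroup.mk'_surjective N' a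
        apply propext
        rw [hπ]
        change _ ↔ π s (QuotientGroup.mk' N' g * QuotientGroup.mk' N' k)
        rw [← map_mul, hπ, hP.act_mul] }
  let x := π t0
  obtain ⟨γ, c, hγ, h1, h2⟩ := hsolve (G ⧸ N') ((G ⧸ N') × HH x) (XX (G ⧸ N')) (YY x) actX
    (actY x) (isPile_of_finite _ actX_one actX_mul) (isPile_of_finite _ (actY_one x) (actY_mul x))
    inferInstance inferInstance _ π hmor _ _ (isEpi x) (isRigid x)
  have hc : proY x (c t0) = x := congrFun h2 t0
  have hγ1 : ∀ g, (γ g).1 = QuotientGroup.mk' N' g := fun g => DFunLike.congr_fun h1 g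
  obtain ⟨a0, ha0⟩ : ∃ a0, c t0 = Sum.inl a0 := by
    rcases hct : c t0 with a0 | ⟨⟨z, hz⟩, d⟩
    · exact ⟨a0, rfl⟩
    · exfalso
      rw [hct] at hc
      have hc' : z = x := hc
      exact hz ⟨1, by rw [actX_one, hc']⟩
  have ha0x : a0 ∈ HH x := by
    rw [ha0] at hc
    exact hc
  let ρ1 : G →* HH x := (MonoidHom.snd _ _).comp γ
  let cj : HH x →* G ⧸ N' := ((MulAut.conj a0⁻¹).toMonoidHom).comp (HH x).subtype
  have hcj : ∀ b, cj b = a0⁻¹ * b * a0 := by
    intro b
    simp [cj]
  let q : G ⧸ N' →* G ⧸ N := QuotientGroup.map N' N (MonoidHom.id G) hle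
  have hq : ∀ g, q (QuotientGroup.mk' N' g) = QuotientGroup.mk' N g := fun g => rfl
  refine ⟨(q.comp cj).comp ρ1, ?_, ?_, ?_⟩
  · have e1 : Continuous ρ1 := continuous_snd.comp hγ.cont_f
    have e2 : Continuous (q.comp cj) := continuous_of_discreteTopology
    exact e2.comp e1
  · intro g
    have hb : a0⁻¹ * (ρ1 g : G ⧸ N') * a0 ∈ HH x :=
      (HH x).mul_mem ((HH x).mul_mem ((HH x).inv_mem ha0x) (ρ1 g).2) ha0x
    obtain ⟨k, hk⟩ := QuotientGroup.mk'_surjective N' (a0⁻¹ * (ρ1 g : G ⧸ N') * a0)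
    rw [← hk] at hb
    have h3 : actX x (QuotientGroup.mk' N' k) = x := hb
    have h4 : x 1 := by
      change π t0 1
      have := (hπ t0 1).mpr (by rw [hP.act_one]; exact ht0U)
      rwa [map_one] at this
    have h5 : x (QuotientGroup.mk' N' k) := by
      rw [← h3] at h4
      change x (QuotientGroup.mk' N' k * 1) at h4
      rwa [mul_one] at h4
    obtain ⟨m, hm, hmN⟩ := hstab k ((hπ t0 k).mp h5)
    refine ⟨m, hm, ?_⟩
    change q (cj (ρ1 g)) = _
    rw [hcj, ← hk, hq]
    exact (QuotientGroup.eq.mpr hmN).symm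
  · intro g hg
    have h3 := hγ.compat t0 g
    rw [hg, ha0] at h3
    have h4 : a0 = ((γ g).2 : G ⧸ N')⁻¹ * a0 * (γ g).1 := Sum.inl_injective h3
    change q (cj (ρ1 g)) = _
    rw [hcj]
    change q (a0⁻¹ * ((γ g).2 : G ⧸ N') * a0) = _
    have h5 : a0⁻¹ * ((γ g).2 : G ⧸ N') * a0 = (γ g).1 := by
      have : ((γ g).2 : G ⧸ N') * a0 = a0 * (γ g).1 := by
        nth_rewrite 1 [h4]
        group
      rw [mul_assoc, this, inv_mul_cancel_left]
    rw [h5, hγ1, hq]

/-- **Retracts.** -/
theorem exists_retraction (h : IsProjective act)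
    (hfg : ∃ S : Finset G, closure ((Subgroup.closure (S : Set G) : Subgroup G) : Set G) =
      Set.univ) (t0 : T) :
    ∃ ρ : G →* G, Continuous ρ ∧ (∀ g, act t0 (ρ g) = t0) ∧ ∀ g, act t0 g = t0 → ρ g = g := by
  have hP := h.1
  have := hP.topGroup
  have := hP.compactG
  have := hP.t2G
  have := hP.tdG
  have := hP.t2T
  obtain ⟨S, hS⟩ := hfg
  let C : ∀ N : OpenNormalSubgroup G, Set (G →* G ⧸ N.toSubgroup) := fun N =>
    {ρ | Continuous ρ ∧ (∀ g, ∃ k, act t0 k = t0 ∧ ρ g = QuotientGroup.mk' N.toSubgroup k) ∧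
      ∀ g, act t0 g = t0 → ρ g = QuotientGroup.mk' N.toSubgroup g}
  have hC : ∀ N, (C N).Nonempty := fun N => exists_rho h t0 N.toSubgroup N.isOpen'
  let K : OpenNormalSubgroup G → Set (S → G) := fun N =>
    {v | ∃ ρ ∈ C N, ∀ s : S, ρ (s : G) = QuotientGroup.mk' N.toSubgroup (v s)}
  have hKc : ∀ N, IsClosed (K N) := by
    intro N
    have : DiscreteTopology (G ⧸ N.toSubgroup) := QuotientGroup.discreteTopology N.isOpen'
    let m : (S → G) → (S → G ⧸ N.toSubgroup) := fun v s => QuotientGroup.mk' N.toSubgroup (v s)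
    have hm : Continuous m := continuous_pi fun s =>
      continuous_quotient_mk'.comp (continuous_apply s)
    have : K N = m ⁻¹' {w | ∃ ρ ∈ C N, ∀ s : S, ρ (s : G) = w s} := rfl
    rw [this]
    exact (isClosed_discrete _).preimage hm
  have hKn : ∀ N, (K N).Nonempty := by
    intro N
    obtain ⟨ρ, hρ⟩ := hC N
    choose v hv using fun s : S => QuotientGroup.mk'_surjective N.toSubgroup (ρ (s : G))
    exact ⟨v, ρ, hρ, fun s => (hv s).symm⟩
  have hKm : ∀ M N : OpenNormalSubgroup G, M.toSubgroup ≤ N.toSubgroup → K M ⊆ K N := by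
    rintro M N hMN v ⟨ρ, ⟨h1, h2, h3⟩, h4⟩
    have : DiscreteTopology (G ⧸ M.toSubgroup) := QuotientGroup.discreteTopology M.isOpen'
    let q : G ⧸ M.toSubgroup →* G ⧸ N.toSubgroup :=
      QuotientGroup.map M.toSubgroup N.toSubgroup (MonoidHom.id G) hMN
    have hq : ∀ g, q (QuotientGroup.mk' M.toSubgroup g) = QuotientGroup.mk' N.toSubgroup g :=
      fun g => rfl
    have hqc : Continuous q := continuous_of_discreteTopology
    refine ⟨q.comp ρ, ⟨hqc.comp h1, ?_, ?_⟩, ?_⟩
    · intro g
      obtain ⟨k, hk, e⟩ := h2 g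
      exact ⟨k, hk, by rw [MonoidHom.comp_apply, e, hq]⟩
    · intro g hg
      rw [MonoidHom.comp_apply, h3 g hg, hq]
    · intro s
      rw [MonoidHom.comp_apply, h4 s, hq]
  have hdir : Directed (· ⊇ ·) K := by
    intro M N
    refine ⟨M ⊓ N, hKm _ _ ?_, hKm _ _ ?_⟩
    · intro g hg; exact hg.1
    · intro g hg; exact hg.2
  have : Nonempty (OpenNormalSubgroup G) := by
    obtain ⟨N, _⟩ := ProfiniteGrp.exist_openNormalSubgroup_sub_open_nhds_of_one
      (G := G) isOpen_univ trivial
    exact ⟨N⟩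
  obtain ⟨v, hv⟩ := IsCompact.nonempty_iInter_of_directed_nonempty_isCompact_isClosed K hdir hKn
    (fun N => (hKc N).isCompact) hKc
  rw [Set.mem_iInter] at hv
  choose ρ hρC hρv using hv
  have hsep : ∀ r : G, (∀ N : OpenNormalSubgroup G, r ∈ N.toSubgroup) → r = 1 := by
    intro r hr
    by_contra hne
    obtain ⟨N, hN⟩ := ProfiniteGrp.exist_openNormalSubgroup_sub_open_nhds_of_one
      (G := G) (U := {r}ᶜ) isOpen_compl_singleton (fun h => hne h.symm)
    exact hN (hr N) rfl
  let H : Subgroup (G × G) := ⨅ N : OpenNormalSubgroup G,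
    MonoidHom.eqLocus ((ρ N).comp (MonoidHom.fst G G))
      ((QuotientGroup.mk' N.toSubgroup).comp (MonoidHom.snd G G))
  have memH : ∀ z, z ∈ H ↔ ∀ N, ρ N z.1 = QuotientGroup.mk' N.toSubgroup z.2 := by
    intro z
    simp only [H, Subgroup.mem_iInf]
    rfl
  have hH : IsClosed (H : Set (G × G)) := by
    have : (H : Set (G × G)) = ⋂ N : OpenNormalSubgroup G,
        {z | ρ N z.1 = QuotientGroup.mk' N.toSubgroup z.2} := by
      ext z
      simp only [SetLike.mem_coe, memH, Set.mem_iInter, Set.mem_ofPred_eq]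
    rw [this]
    refine isClosed_iInter fun N => ?_
    have : DiscreteTopology (G ⧸ N.toSubgroup) := QuotientGroup.discreteTopology N.isOpen'
    exact isClosed_eq ((hρC N).1.comp continuous_fst)
      (continuous_quotient_mk'.comp continuous_snd)
  have : CompactSpace H := isCompact_iff_compactSpace.mp hH.isCompact
  let π : H →* G := (MonoidHom.fst _ _).comp H.subtype
  have hπ : Continuous π := continuous_fst.comp continuous_subtype_val
  have hinj : Function.Injective π := by
    rw [injective_iff_map_eq_one]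
    rintro ⟨⟨g, r⟩, hgr⟩ hg
    have hg' : g = 1 := hg
    subst hg'
    apply Subtype.ext
    change ((1 : G), r) = (1, 1)
    congr 1
    apply hsep
    intro N
    have h1 := (memH _).mp hgr N
    change ρ N 1 = QuotientGroup.mk' N.toSubgroup r at h1
    rw [map_one] at h1
    exact (QuotientGroup.eq_one_iff r).mp h1.symm
  have hsurj : Function.Surjective π := by
    intro g
    have hcl : IsClosed (Set.range π) := (isCompact_range hπ).isClosed
    have hsub : ((Subgroup.closure (S : Set G) : Subgroup G) : Set G) ⊆ Set.range π := by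
      have : (Subgroup.closure (S : Set G)) ≤ π.range := by
        rw [Subgroup.closure_le]
        intro s hs
        exact ⟨⟨(s, v ⟨s, hs⟩), (memH _).mpr fun N => hρv N ⟨s, hs⟩⟩, rfl⟩
      intro g hg
      exact this hg
    have h1 : closure ((Subgroup.closure (S : Set G) : Subgroup G) : Set G) ⊆ Set.range π :=
      closure_minimal hsub hcl
    rw [hS] at h1
    exact h1 trivial
  let eq : H ≃ G := Equiv.ofBijective π ⟨hinj, hsurj⟩
  let ho : H ≃ₜ G := Continuous.homeoOfEquivCompactToT2 (f := eq) hπ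
  let em : H ≃* G := MulEquiv.ofBijective π ⟨hinj, hsurj⟩
  let ψ : G →* H := em.symm.toMonoidHom
  have hψ : Continuous ψ := ho.symm.continuous
  have hψ1 : ∀ g, (ψ g).1.1 = g := fun g => em.apply_symm_apply g
  let R : G →* G := ((MonoidHom.snd _ _).comp H.subtype).comp ψ
  have hR : ∀ N g, ρ N g = QuotientGroup.mk' N.toSubgroup (R g) := by
    intro N g
    have h1 := (memH _).mp (ψ g).2 N
    rw [hψ1] at h1
    exact h1
  refine ⟨R, (continuous_snd.comp continuous_subtype_val).comp hψ, ?_, ?_⟩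
  · intro g
    by_contra hne
    have hO : IsOpen {n : G | act t0 (R g * n) ≠ t0} := by
      have hc : Continuous fun n => act t0 (R g * n) :=
        hP.cont.comp (continuous_const.prodMk (continuous_const.mul continuous_id))
      exact isOpen_compl_singleton.preimage hc
    obtain ⟨N, hN⟩ := ProfiniteGrp.exist_openNormalSubgroup_sub_open_nhds_of_one
      (G := G) hO (by
        change act t0 (R g * 1) ≠ t0
        rwa [mul_one])
    obtain ⟨k, hk, e⟩ := (hρC N).2.1 g
    rw [hR] at e
    have hmem : (R g)⁻¹ * k ∈ N.toSubgroup := QuotientGroup.eq.mp e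
    have := hN hmem
    change act t0 (R g * ((R g)⁻¹ * k)) ≠ t0 at this
    rw [mul_inv_cancel_left] at this
    exact this hk
  · intro g hg
    have : (R g)⁻¹ * g = 1 := by
      apply hsep
      intro N
      have e := (hρC N).2.2 g hg
      rw [hR] at e
      exact QuotientGroup.eq.mp e
    exact (inv_mul_eq_one.mp this)

end main

end Q24.Pile
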