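import Mathlib
import Pool.Agent.Q24.PileDefs
import Pool.Agent.Q24.PileRetract
import Pool.Agent.Q24.ProfCompl

/-!
# Lifting a projective pile along a homogeneous rigid epimorphism
-/

set_option autoImplicit false

namespace Q24.Pile

open Q24.ProfCompl

universe u

section cosets

variable {Q A : Type u} [Group Q] [Group A]

/-- the right action of `Q` on the left cosets of a subgroup -/
def actC (K : Subgroup Q) (y : Q ⧸ K) (q : Q) : Q ⧸ K := q⁻¹ • y

theorem actC_mk (K : Subgroup Q) (y q : Q) : actC K (y : Q ⧸ K) q = ((q⁻¹ * y : Q) : Q ⧸ K) := rfl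

theorem actC_one (K : Subgroup Q) (y : Q ⧸ K) : actC K y 1 = y := by simp [actC]

theorem actC_mul (K : Subgroup Q) (y : Q ⧸ K) (q r : Q) :
    actC K y (q * r) = actC K (actC K y q) r := by simp [actC, mul_smul]

variable (f : Q →* A) (K : Subgroup Q)

/-- the induced map on cosets -/
def mapC : Q ⧸ K → A ⧸ K.map f :=
  Quotient.map' f fun a b h => by
    rw [QuotientGroup.leftRel_apply] at h ⊢
    exact ⟨a⁻¹ * b, h, by simp⟩

theorem mapC_mk (q : Q) : mapC f K (q : Q ⧸ K) = (f q : A ⧸ K.map f) := rfl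

variable [TopologicalSpace Q] [TopologicalSpace A] [DiscreteTopology Q] [DiscreteTopology A]

omit [TopologicalSpace A] [DiscreteTopology A] in
instance cosetTop (K : Subgroup Q) : DiscreteTopology (Q ⧸ K) :=
  discreteTopology_iff_forall_isOpen.mpr fun _ => isOpen_coinduced.mpr (isOpen_discrete _)

theorem cmor : IsMorphism (actC K) (actC (K.map f)) f (mapC f K) where
  cont_f := continuous_of_discreteTopology
  cont_u := continuous_of_discreteTopology
  compat y b := by
    induction y using QuotientGroup.induction_on with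
    | H y =>
      rw [actC_mk, mapC_mk, mapC_mk, actC_mk, map_mul, map_inv]

theorem cbij (hf : ∀ q ∈ K, f q = 1 → q = 1) (y : Q ⧸ K) :
    Set.BijOn f (stab (actC K) y) (stab (actC (K.map f)) (mapC f K y)) := by
  have hm := cmor f K
  induction y using QuotientGroup.induction_on with
  | H y =>
    have hst : ∀ q, q ∈ stab (actC K) (y : Q ⧸ K) ↔ y⁻¹ * q * y ∈ K := by
      intro q
      change actC K (y : Q ⧸ K) q = y ↔ _
      rw [actC_mk, QuotientGroup.eq]
      simp
    have hst' : ∀ a, a ∈ stab (actC (K.map f)) (f y : A ⧸ K.map f) ↔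
        (f y)⁻¹ * a * f y ∈ K.map f := by
      intro q
      change actC (K.map f) (f y : A ⧸ K.map f) q = f y ↔ _
      rw [actC_mk, QuotientGroup.eq]
      simp
    refine ⟨?_, ?_, ?_⟩
    · intro q hq
      rw [mapC_mk, hst']
      exact ⟨y⁻¹ * q * y, (hst q).mp hq, by simp⟩
    · intro q hq r hr he
      have h1 := (hst q).mp hq
      have h2 := (hst r).mp hr
      have h3 : (y⁻¹ * q * y)⁻¹ * (y⁻¹ * r * y) = 1 := by
        apply hf _ (K.mul_mem (K.inv_mem h1) h2)
        simp only [map_mul, map_inv, he]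
        group
      have h4 : y⁻¹ * q * y = y⁻¹ * r * y := inv_mul_eq_one.mp h3
      exact mul_left_cancel (mul_right_cancel h4)
    · intro a ha
      rw [mapC_mk, hst'] at ha
      obtain ⟨k, hk, hka⟩ := ha
      refine ⟨y * k * y⁻¹, (hst _).mpr (by simpa [mul_assoc] using hk), ?_⟩
      simp only [map_mul, map_inv, hka]
      group

theorem mapC_surj (hsurj : Function.Surjective f) : Function.Surjective (mapC f K) := by
  intro x
  induction x using QuotientGroup.induction_on with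
  | H a =>
    obtain ⟨q, rfl⟩ := hsurj a
    exact ⟨(q : Q ⧸ K), rfl⟩

theorem cepi (hsurj : Function.Surjective f) (hf : ∀ q ∈ K, f q = 1 → q = 1) :
    IsEpi (actC K) (actC (K.map f)) f (mapC f K) where
  toIsMorphism := cmor f K
  surj_f := hsurj
  surj_u := mapC_surj f K hsurj
  stab x := by
    obtain ⟨y, rfl⟩ := mapC_surj f K hsurj x
    exact ⟨y, rfl, (cbij f K hf y).image_eq⟩

theorem crigid (hsurj : Function.Surjective f) (hf : ∀ q ∈ K, f q = 1 → q = 1) :
    IsRigid (actC K) (actC (K.map f)) f (mapC f K) where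
  toIsMorphism := cmor f K
  bij_stab := cbij f K hf
  orbits_inj y y' _ := by
    induction y using QuotientGroup.induction_on with
    | H y =>
      induction y' using QuotientGroup.induction_on with
      | H y' =>
        refine ⟨y * y'⁻¹, ?_⟩
        rw [actC_mk]
        congr 1
        group
  orbits_surj x := by
    obtain ⟨y, rfl⟩ := mapC_surj f K hsurj x
    exact ⟨y, 1, actC_one _ _⟩

end cosets

theorem continuous_of_closed_fibers {S : Type*} {X : Type*} [TopologicalSpace S]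
    [TopologicalSpace X] [DiscreteTopology X] [Finite X] {f : S → X}
    (h : ∀ x, IsClosed (f ⁻¹' {x})) : Continuous f := by
  rw [continuous_iff_isClosed]
  intro s _
  have : f ⁻¹' s = ⋃ x : s, f ⁻¹' {x.1} := by
    ext a
    simp
  rw [this]
  exact isClosed_iUnion_of_finite fun x => h x

section lift

variable {G T B Γ : Type u} {T' : Type u} [Group G] [TopologicalSpace G] [TopologicalSpace T]
  [Group B] [TopologicalSpace B] [Group Γ] {act : T → G → T}
  (B₁ : Subgroup B) (α : B →* Γ) (ι : G →* Γ) (orb : Γ → T') (j : T → T')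

/-- approximate lifts of the projective pile -/
structure Good (act : T → G → T) (P : Subgroup (G × B)) (R : Set (T × B)) : Prop where
  closedP : IsClosed (P : Set (G × B))
  closedR : IsClosed R
  Pα : ∀ g b, (g, b) ∈ P → α b = ι g
  Psurj : ∀ g, ∃ b, (g, b) ∈ P
  normal : ∀ l b, ((1 : G), l) ∈ P → ((1 : G), b * l * b⁻¹) ∈ P
  Rα : ∀ t b, (t, b) ∈ R → orb (α b) = j t
  Rsurj : ∀ t, ∃ b, (t, b) ∈ R
  Rfib : ∀ t b, (t, b) ∈ R → ∀ b', (t, b') ∈ R ↔ ∃ b₁ ∈ B₁, ∃ l, ((1 : G), l) ∈ P ∧ b' = b₁ * b * l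
  RP : ∀ t b g b', (t, b) ∈ R → (g, b') ∈ P → (act t g, b * b') ∈ R

variable {B₁ α ι orb j}

/-- the kernel of a partial lift -/
def ker (P : Subgroup (G × B)) : Subgroup B := P.comap (MonoidHom.inr G B)

theorem mem_ker (P : Subgroup (G × B)) (b : B) : b ∈ ker P ↔ ((1 : G), b) ∈ P := Iff.rfl

theorem exists_M (hB : IsProfinite B) (hB₁ : IsClosed (B₁ : Set B)) {L : Subgroup B}
    (hL : IsClosed (L : Set B)) (hLn : ∀ l ∈ L, ∀ b, b * l * b⁻¹ ∈ L)
    (hBL : ∀ b ∈ B₁, b ∈ L → b = 1) {l₀ : B} (hl₀ : l₀ ∈ L) (hne : l₀ ≠ 1) :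
    ∃ M : Subgroup B, M.Normal ∧ IsOpen (M : Set B) ∧ l₀ ∉ M ∧
      ∀ b₁ ∈ B₁, ∀ m ∈ M, b₁ * m ∈ L → b₁ ∈ M := by
  have := hB.topGroup
  have := hB.compact
  have := hB.t2
  have := hB.td
  obtain ⟨N, hN⟩ := ProfiniteGrp.exist_openNormalSubgroup_sub_open_nhds_of_one
      (G := B) (U := {l₀}ᶜ) isOpen_compl_singleton (fun h => hne h.symm)
  have hNo : IsOpen (N.toSubgroup : Set B) := N.isOpen'
  have hNn : N.toSubgroup.Normal := N.isNormal'
  let D : Set B := (L : Set B) ∩ (N.toSubgroup : Set B)ᶜ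
  have hD : IsCompact D := (hL.inter hNo.isClosed_compl).isCompact
  let E : Set B := (fun z : B × B => z.1⁻¹ * z.2) '' ((B₁ : Set B) ×ˢ D)
  have hE : IsClosed E := by
    refine ((hB₁.isCompact.prod hD).image ?_).isClosed
    exact continuous_fst.inv.mul continuous_snd
  have h1E : (1 : B) ∈ Eᶜ := by
    rintro ⟨⟨b, d⟩, ⟨hb, hd⟩, he⟩
    have he' : b = d := inv_mul_eq_one.mp he
    have hd1 : d = 1 := hBL d (he' ▸ hb) hd.1
    exact hd.2 (hd1 ▸ N.toSubgroup.one_mem)
  obtain ⟨M, hM⟩ := ProfiniteGrp.exist_openNormalSubgroup_sub_open_nhds_of_one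
      (G := B) (hE.isOpen_compl.inter hNo) ⟨h1E, N.toSubgroup.one_mem⟩
  have hMo : IsOpen (M.toSubgroup : Set B) := M.isOpen'
  have hMn : M.toSubgroup.Normal := M.isNormal'
  have hMN : M.toSubgroup ≤ N.toSubgroup := fun m hm => (hM hm).2
  have hLN : (L ⊓ N.toSubgroup).Normal := ⟨fun l hl b => ⟨hLn l hl.1 b, hNn.conj_mem l hl.2 b⟩⟩
  have hle : M.toSubgroup ⊔ (L ⊓ N.toSubgroup) ≤ N.toSubgroup := sup_le hMN inf_le_right
  refine ⟨M.toSubgroup ⊔ (L ⊓ N.toSubgroup), inferInstance, ?_, ?_, ?_⟩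
  · exact Subgroup.isOpen_mono le_sup_left hMo
  · intro h
    exact hN (hle h) rfl
  · intro b₁ hb₁ m hm hmL
    obtain ⟨m', hm', l', hl', rfl⟩ := Subgroup.mem_sup_of_normal_right.mp hm
    have h1 : b₁ * m' ∈ L := by
      have : b₁ * m' = b₁ * (m' * l') * l'⁻¹ := by group
      rw [this]
      exact L.mul_mem hmL (L.inv_mem hl'.1)
    have h2 : b₁ * m' ∈ N.toSubgroup := by
      by_contra h3
      have h4 : m' ∈ E := ⟨(b₁, b₁ * m'), ⟨hb₁, h1, h3⟩, by simp⟩
      exact (hM hm').1 h4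
    have h3 : b₁ * m' ∈ L ⊓ N.toSubgroup := ⟨h1, h2⟩
    have h4 : b₁ = (b₁ * m') * m'⁻¹ := by group
    rw [h4]
    exact Subgroup.mul_mem _ (Subgroup.mem_sup_right h3)
      (Subgroup.mem_sup_left (M.toSubgroup.inv_mem hm'))

theorem step (h : IsProjective act) (hB : IsProfinite B) (hB₁ : IsClosed (B₁ : Set B))
    (hBα : ∀ b ∈ B₁, α b = 1 → b = 1) {P : Subgroup (G × B)} {R : Set (T × B)}
    (hg : Good B₁ α ι orb j act P R) {l₀ : B} (hl₀ : ((1 : G), l₀) ∈ P) (hne : l₀ ≠ 1) :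
    ∃ (P' : Subgroup (G × B)) (R' : Set (T × B)), Good B₁ α ι orb j act P' R' ∧ P' ≤ P ∧
      R' ⊆ R ∧ ((1 : G), l₀) ∉ P' := by
  have hPile := h.1
  have := hPile.topGroup
  have := hPile.compactG
  have := hPile.t2G
  have := hPile.compactT
  have := hPile.t2T
  have := hB.topGroup
  have := hB.compact
  have := hB.t2
  let L : Subgroup B := ker P
  have memL : ∀ b, b ∈ L ↔ ((1 : G), b) ∈ P := fun b => Iff.rfl
  have hLc : IsClosed (L : Set B) := hg.closedP.preimage (Continuous.prodMk_right (1 : G))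
  have hLα : ∀ l ∈ L, α l = 1 := fun l hl => by
    rw [hg.Pα 1 l hl, map_one]
  obtain ⟨M, hMn, hMo, hl₀M, hM⟩ := exists_M (L := L) hB hB₁ hLc
    (fun l hl b => hg.normal l b hl) (fun b hb hbL => hBα b hb (hLα b hbL)) hl₀ hne
  have : DiscreteTopology (B ⧸ M) := QuotientGroup.discreteTopology hMo
  have : Finite (B ⧸ M) := Subgroup.quotient_finite_of_isOpen M hMo
  let Q := B ⧸ M
  let q : B →* Q := QuotientGroup.mk' M
  have hq : Continuous q := continuous_quotient_mk'
  have hqs : Function.Surjective q := QuotientGroup.mk'_surjective M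
  have hqM : ∀ b, q b = 1 ↔ b ∈ M := fun b => QuotientGroup.eq_one_iff b
  let Q₁ : Subgroup Q := B₁.map q
  let Lq : Subgroup Q := L.map q
  have hLq : Lq.Normal := by
    refine ⟨?_⟩
    rintro _ ⟨l, hl, rfl⟩ x
    obtain ⟨b, rfl⟩ := hqs x
    exact ⟨b * l * b⁻¹, hg.normal l b hl, by simp⟩
  let A := Q ⧸ Lq
  let f : Q →* A := QuotientGroup.mk' Lq
  have hfs : Function.Surjective f := QuotientGroup.mk'_surjective Lq
  have hf1 : ∀ x, f x = 1 ↔ x ∈ Lq := fun x => QuotientGroup.eq_one_iff x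
  have hinj : ∀ x ∈ Q₁, f x = 1 → x = 1 := by
    rintro _ ⟨b₁, hb₁, rfl⟩ hx
    obtain ⟨l, hl, hle⟩ := (hf1 _).mp hx
    have h1 : b₁⁻¹ * l ∈ M := by
      rw [← hqM, map_mul, map_inv, hle, inv_mul_cancel]
    have h2 := hM b₁ hb₁ _ h1 (by rw [mul_inv_cancel_left]; exact hl)
    exact (hqM _).mpr h2
  have : DiscreteTopology A := inferInstance
  have : Finite A := inferInstance
  choose bG hbG using hg.Psurj
  choose bT hbT using hg.Rsurj
  -- the homomorphism to `A`
  have hwd : ∀ g b, (g, b) ∈ P → f (q b) = f (q (bG g)) := by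
    intro g b hb
    have h1 : ((1 : G), (bG g)⁻¹ * b) ∈ P := by
      have := P.mul_mem (P.inv_mem (hbG g)) hb
      simpa using this
    have h2 : f (q ((bG g)⁻¹ * b)) = 1 := (hf1 _).mpr ⟨_, h1, rfl⟩
    rw [map_mul, map_inv, map_mul, map_inv] at h2
    exact (inv_mul_eq_one.mp h2).symm
  let F : G →* A :=
    { toFun := fun g => f (q (bG g))
      map_one' := by
        rw [← hwd 1 1 P.one_mem]
        simp
      map_mul' := fun g h => by
        rw [← hwd (g * h) (bG g * bG h) (P.mul_mem (hbG g) (hbG h))]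
        simp }
  have hF : ∀ g b, (g, b) ∈ P → F g = f (q b) := fun g b hb => (hwd g b hb).symm
  have hfq : Continuous fun b => f (q b) :=
    (continuous_of_discreteTopology (f := f)).comp hq
  have hFc : Continuous F := by
    refine continuous_of_closed_fibers fun a => ?_
    have : F ⁻¹' {a} = Prod.fst '' ((P : Set (G × B)) ∩ (fun z : G × B => f (q z.2)) ⁻¹' {a}) := by
      ext g
      constructor
      · intro hga
        exact ⟨(g, bG g), ⟨hbG g, hga⟩, rfl⟩
      · rintro ⟨⟨g', b⟩, ⟨h1, h2⟩, rfl⟩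
        change F g' = a
        rw [hF g' b h1]
        exact h2
    rw [this]
    have hc : IsClosed ((P : Set (G × B)) ∩ (fun z : G × B => f (q z.2)) ⁻¹' {a}) :=
      hg.closedP.inter ((isClosed_discrete {a}).preimage (hfq.comp continuous_snd))
    exact (hc.isCompact.image continuous_fst).isClosed
  -- the map to the cosets
  let A₁ : Subgroup A := Q₁.map f
  let pt : B → A ⧸ A₁ := fun b => ((f (q b))⁻¹ : A)
  have hptl : ∀ b₁ ∈ B₁, ∀ b, ∀ l ∈ L, pt (b₁ * b * l) = pt b := by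
    intro b₁ hb₁ b l hl
    have h1 : f (q l) = 1 := (hf1 _).mpr ⟨l, hl, rfl⟩
    change (((f (q (b₁ * b * l)))⁻¹ : A) : A ⧸ A₁) = ((f (q b))⁻¹ : A)
    rw [QuotientGroup.eq]
    refine ⟨q b₁, ⟨b₁, hb₁, rfl⟩, ?_⟩
    simp only [map_mul, h1]
    group
  have hptd : ∀ t b, (t, b) ∈ R → pt b = pt (bT t) := by
    intro t b hb
    obtain ⟨b₁, hb₁, l, hl, rfl⟩ := (hg.Rfib t (bT t) (hbT t) b).mp hb
    exact hptl b₁ hb₁ _ l hl
  let U : T → A ⧸ A₁ := fun t => pt (bT t)
  have hU : ∀ t b, (t, b) ∈ R → U t = pt b := fun t b hb => (hptd t b hb).symm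
  have hptc : Continuous pt :=
    (continuous_of_discreteTopology (f := fun a : A => ((a⁻¹ : A) : A ⧸ A₁))).comp hfq
  have hUc : Continuous U := by
    refine continuous_of_closed_fibers fun a => ?_
    have : U ⁻¹' {a} = Prod.fst '' (R ∩ (fun z : T × B => pt z.2) ⁻¹' {a}) := by
      ext t
      constructor
      · intro hga
        exact ⟨(t, bT t), ⟨hbT t, hga⟩, rfl⟩
      · rintro ⟨⟨t', b⟩, ⟨h1, h2⟩, rfl⟩
        change U t' = a
        rw [hU t' b h1]
        exact h2
    rw [this]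
    have hc : IsClosed (R ∩ (fun z : T × B => pt z.2) ⁻¹' {a}) :=
      hg.closedR.inter ((isClosed_discrete {a}).preimage (hptc.comp continuous_snd))
    exact (hc.isCompact.image continuous_fst).isClosed
  have hmor : IsMorphism act (actC A₁) F U :=
    { cont_f := hFc
      cont_u := hUc
      compat := by
        intro t g
        rw [hU _ _ (hg.RP t (bT t) g (bG g) (hbT t) (hbG g))]
        change (((f (q (bT t * bG g)))⁻¹ : A) : A ⧸ A₁) = actC A₁ (((f (q (bT t)))⁻¹ : A) : A ⧸ A₁)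
          (f (q (bG g)))
        rw [actC_mk]
        congr 1
        simp }
  obtain ⟨γ, c, hγ, h1, h2⟩ := h.2 A Q (A ⧸ A₁) (Q ⧸ Q₁) (actC A₁) (actC Q₁)
    (isPile_of_finite _ (actC_one _) (actC_mul _)) (isPile_of_finite _ (actC_one _) (actC_mul _))
    inferInstance inferInstance F U hmor f (mapC f Q₁) (cepi f Q₁ hfs hinj) (crigid f Q₁ hfs hinj)
  have hγF : ∀ g, f (γ g) = F g := fun g => DFunLike.congr_fun h1 g
  have hcU : ∀ t, mapC f Q₁ (c t) = U t := fun t => congrFun h2 t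
  let P' : Subgroup (G × B) := P ⊓ MonoidHom.eqLocus (γ.comp (MonoidHom.fst G B))
    (q.comp (MonoidHom.snd G B))
  have memP' : ∀ g b, (g, b) ∈ P' ↔ (g, b) ∈ P ∧ γ g = q b := fun g b => Iff.rfl
  let R' : Set (T × B) := {z | z ∈ R ∧ c z.1 = (((q z.2)⁻¹ : Q) : Q ⧸ Q₁)}
  have memR' : ∀ t b, (t, b) ∈ R' ↔ (t, b) ∈ R ∧ c t = (((q b)⁻¹ : Q) : Q ⧸ Q₁) :=
    fun t b => Iff.rfl
  refine ⟨P', R', ?_, inf_le_left, fun z hz => hz.1, ?_⟩
  · constructor
    · -- closedP
      have : (P' : Set (G × B)) = (P : Set (G × B)) ∩ {z | γ z.1 = q z.2} := rfl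
      rw [this]
      exact hg.closedP.inter (isClosed_eq (hγ.cont_f.comp continuous_fst)
        (hq.comp continuous_snd))
    · -- closedR
      have : R' = R ∩ {z | c z.1 = (((q z.2)⁻¹ : Q) : Q ⧸ Q₁)} := rfl
      rw [this]
      refine hg.closedR.inter (isClosed_eq (hγ.cont_u.comp continuous_fst) ?_)
      exact (continuous_of_discreteTopology (f := fun a : Q => ((a⁻¹ : Q) : Q ⧸ Q₁))).comp
        (hq.comp continuous_snd)
    · -- Pα
      intro g b hgb
      exact hg.Pα g b ((memP' _ _).mp hgb).1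
    · -- Psurj
      intro g
      have h3 : f ((q (bG g))⁻¹ * γ g) = 1 := by
        rw [map_mul, map_inv, hγF]
        exact inv_mul_cancel _
      obtain ⟨l, hl, hle⟩ := (hf1 _).mp h3
      refine ⟨bG g * l, (memP' _ _).mpr ⟨?_, ?_⟩⟩
      · have := P.mul_mem (hbG g) ((memL l).mp hl)
        simpa using this
      · rw [map_mul, hle, mul_inv_cancel_left]
    · -- normal
      intro l b hl
      obtain ⟨h3, h4⟩ := (memP' _ _).mp hl
      refine (memP' _ _).mpr ⟨hg.normal l b h3, ?_⟩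
      rw [map_one] at h4
      rw [map_one, map_mul, map_mul, ← h4]
      simp
    · -- Rα
      intro t b htb
      exact hg.Rα t b ((memR' _ _).mp htb).1
    · -- Rsurj
      intro t
      obtain ⟨y, hy⟩ := QuotientGroup.mk_surjective (c t)
      have h3 : mapC f Q₁ (c t) = pt (bT t) := hcU t
      rw [← hy, mapC_mk] at h3
      have h4 : (f y)⁻¹ * (f (q (bT t)))⁻¹ ∈ A₁ := QuotientGroup.eq.mp h3
      obtain ⟨_, ⟨b₁, hb₁, rfl⟩, h5⟩ := h4
      have h6 : f (y * q b₁ * q (bT t)) = 1 := by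
        simp only [map_mul, h5]
        group
      obtain ⟨l, hl, hle⟩ := (hf1 _).mp h6
      refine ⟨b₁ * bT t * l⁻¹, (memR' _ _).mpr ⟨?_, ?_⟩⟩
      · exact (hg.Rfib t (bT t) (hbT t) _).mpr ⟨b₁, hb₁, l⁻¹, L.inv_mem hl, rfl⟩
      · rw [← hy]
        congr 1
        simp only [map_mul, map_inv, hle]
        group
    · -- Rfib
      intro t b hb b'
      obtain ⟨hbR, hcb⟩ := (memR' _ _).mp hb
      constructor
      · intro hb'
        obtain ⟨hbR', hcb'⟩ := (memR' _ _).mp hb'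
        obtain ⟨b₁, hb₁, l, hl, rfl⟩ := (hg.Rfib t b hbR b').mp hbR'
        refine ⟨b₁, hb₁, l, (memP' _ _).mpr ⟨hl, ?_⟩, rfl⟩
        rw [hcb] at hcb'
        have h3 : ((q b)⁻¹)⁻¹ * (q (b₁ * b * l))⁻¹ ∈ Q₁ := QuotientGroup.eq.mp hcb'
        have h4 : q (b * l⁻¹ * b⁻¹) ∈ Q₁ := by
          have h5 : q (b * l⁻¹ * b⁻¹) = ((q b)⁻¹)⁻¹ * (q (b₁ * b * l))⁻¹ * q b₁ := by
            simp only [map_mul, map_inv]
            group
          rw [h5]
          exact Q₁.mul_mem h3 ⟨b₁, hb₁, rfl⟩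
        obtain ⟨b₂, hb₂, h5⟩ := h4
        have h6 : b₂⁻¹ * (b * l⁻¹ * b⁻¹) ∈ M := by
          rw [← hqM, map_mul, map_inv, h5, inv_mul_cancel]
        have h7 : b * l⁻¹ * b⁻¹ ∈ L := hg.normal _ b (L.inv_mem hl)
        have h8 := hM b₂ hb₂ _ h6 (by rw [mul_inv_cancel_left]; exact h7)
        have h9 : q (b * l⁻¹ * b⁻¹) = 1 := by
          rw [← h5]
          exact (hqM _).mpr h8
        rw [map_one]
        have h10 : q l = (q b)⁻¹ * (q (b * l⁻¹ * b⁻¹))⁻¹ * q b := by
          simp only [map_mul, map_inv]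
          group
        rw [h10, h9]
        simp
      · rintro ⟨b₁, hb₁, l, hl, rfl⟩
        obtain ⟨hl1, hl2⟩ := (memP' _ _).mp hl
        rw [map_one] at hl2
        refine (memR' _ _).mpr ⟨(hg.Rfib t b hbR _).mpr ⟨b₁, hb₁, l, hl1, rfl⟩, ?_⟩
        rw [hcb, QuotientGroup.eq]
        refine ⟨b₁⁻¹, B₁.inv_mem hb₁, ?_⟩
        simp only [map_mul, map_inv, ← hl2]
        group
    · -- RP
      intro t b g b' htb hgb
      obtain ⟨h3, h4⟩ := (memR' _ _).mp htb
      obtain ⟨h5, h6⟩ := (memP' _ _).mp hgb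
      refine (memR' _ _).mpr ⟨hg.RP t b g b' h3 h5, ?_⟩
      rw [hγ.compat, h4, h6, actC_mk]
      congr 1
      simp
  · intro hmem
    have h3 := ((memP' _ _).mp hmem).2
    rw [map_one] at h3
    exact hl₀M ((hqM _).mp h3.symm)

theorem chain_nonempty {S : Type*} [TopologicalSpace S] [CompactSpace S] {β : Type*} [Preorder β]
    {c : Set β} (hc : IsChain (· ≤ ·) c) (hne : Nonempty c) (K : c → Set S)
    (hK : ∀ z w : c, z.1 ≤ w.1 → K w ⊆ K z) (hcl : ∀ z, IsClosed (K z))
    (hn : ∀ z, (K z).Nonempty) : (⋂ z, K z).Nonempty := by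
  refine IsCompact.nonempty_iInter_of_directed_nonempty_isCompact_isClosed K ?_ hn
    (fun z => (hcl z).isCompact) hcl
  intro z w
  rcases hc.total z.2 w.2 with h | h
  · exact ⟨w, hK z w h, subset_rfl⟩
  · exact ⟨z, subset_rfl, hK w z h⟩

theorem exists_min (h : IsProjective act) (hB : IsProfinite B) (hB₁ : IsClosed (B₁ : Set B))
    (hBα : ∀ b ∈ B₁, α b = 1 → b = 1) {P₀ : Subgroup (G × B)} {R₀ : Set (T × B)}
    (hg : Good B₁ α ι orb j act P₀ R₀) :
    ∃ (P : Subgroup (G × B)) (R : Set (T × B)), Good B₁ α ι orb j act P R ∧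
      ∀ l, ((1 : G), l) ∈ P → l = 1 := by
  have := hB.topGroup
  have := hB.compact
  have := hB.t2
  let s : Set (Subgroup (G × B) × Set (T × B))ᵒᵈ :=
    {z | Good B₁ α ι orb j act (OrderDual.ofDual z).1 (OrderDual.ofDual z).2}
  have key : ∀ c ⊆ s, IsChain (· ≤ ·) c → ∀ y ∈ c, ∃ ub ∈ s, ∀ z ∈ c, z ≤ ub := by
    intro c hcs hc y hy
    have hne : Nonempty c := ⟨⟨y, hy⟩⟩
    let PP : c → Subgroup (G × B) := fun z => (OrderDual.ofDual z.1).1
    let RR : c → Set (T × B) := fun z => (OrderDual.ofDual z.1).2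
    have hG : ∀ z : c, Good B₁ α ι orb j act (PP z) (RR z) := fun z => hcs z.2
    have hPm : ∀ z w : c, z.1 ≤ w.1 → PP w ≤ PP z := fun z w h => h.1
    have hRm : ∀ z w : c, z.1 ≤ w.1 → RR w ⊆ RR z := fun z w h => h.2
    refine ⟨OrderDual.toDual (⨅ z, PP z, ⋂ z, RR z), ?_, ?_⟩
    · change Good B₁ α ι orb j act (⨅ z, PP z) (⋂ z, RR z)
      have z₀ : c := ⟨y, hy⟩
      have memP : ∀ x, x ∈ (⨅ z, PP z) ↔ ∀ z, x ∈ PP z := fun x => Subgroup.mem_iInf
      have memR : ∀ x, x ∈ (⋂ z, RR z) ↔ ∀ z, x ∈ RR z := fun x => Set.mem_iInter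
      constructor
      · rw [Subgroup.coe_iInf]
        exact isClosed_iInter fun z => (hG z).closedP
      · exact isClosed_iInter fun z => (hG z).closedR
      · intro g b hb
        exact (hG z₀).Pα g b ((memP _).mp hb z₀)
      · intro g
        obtain ⟨b, hb⟩ := chain_nonempty hc hne (fun z => {b | (g, b) ∈ PP z})
          (fun z w hzw b hb => hPm z w hzw hb)
          (fun z => (hG z).closedP.preimage (Continuous.prodMk_right g))
          (fun z => (hG z).Psurj g)
        rw [Set.mem_iInter] at hb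
        exact ⟨b, (memP _).mpr hb⟩
      · intro l b hl
        exact (memP _).mpr fun z => (hG z).normal l b ((memP _).mp hl z)
      · intro t b hb
        exact (hG z₀).Rα t b ((memR _).mp hb z₀)
      · intro t
        obtain ⟨b, hb⟩ := chain_nonempty hc hne (fun z => {b | (t, b) ∈ RR z})
          (fun z w hzw b hb => hRm z w hzw hb)
          (fun z => (hG z).closedR.preimage (Continuous.prodMk_right t))
          (fun z => (hG z).Rsurj t)
        rw [Set.mem_iInter] at hb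
        exact ⟨b, (memR _).mpr hb⟩
      · intro t b hb b'
        constructor
        · intro hb'
          obtain ⟨⟨b₁, l⟩, hbl⟩ := chain_nonempty hc hne
            (fun z => {x : B × B | x.1 ∈ B₁ ∧ ((1 : G), x.2) ∈ PP z ∧ b' = x.1 * b * x.2})
            (fun z w hzw x hx => ⟨hx.1, hPm z w hzw hx.2.1, hx.2.2⟩)
            (fun z => by
              refine (hB₁.preimage continuous_fst).inter
                (((hG z).closedP.preimage (continuous_const.prodMk continuous_snd)).inter ?_)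
              exact isClosed_eq continuous_const
                ((continuous_fst.mul continuous_const).mul continuous_snd))
            (fun z => by
              obtain ⟨b₁, hb₁, l, hl, e⟩ :=
                ((hG z).Rfib t b ((memR _).mp hb z) b').mp ((memR _).mp hb' z)
              exact ⟨(b₁, l), hb₁, hl, e⟩)
          rw [Set.mem_iInter] at hbl
          exact ⟨b₁, (hbl z₀).1, l, (memP _).mpr fun z => (hbl z).2.1, (hbl z₀).2.2⟩
        · rintro ⟨b₁, hb₁, l, hl, e⟩
          exact (memR _).mpr fun z => ((hG z).Rfib t b ((memR _).mp hb z) b').mpr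
            ⟨b₁, hb₁, l, (memP _).mp hl z, e⟩
      · intro t b g b' h1 h2
        exact (memR _).mpr fun z => (hG z).RP t b g b' ((memR _).mp h1 z) ((memP _).mp h2 z)
    · intro z hz
      exact ⟨iInf_le PP ⟨z, hz⟩, Set.iInter_subset RR ⟨z, hz⟩⟩
  obtain ⟨m, _, hm⟩ := zorn_le_nonempty₀ s key (OrderDual.toDual (P₀, R₀)) hg
  refine ⟨(OrderDual.ofDual m).1, (OrderDual.ofDual m).2, hm.prop, ?_⟩
  intro l hl
  by_contra hne
  obtain ⟨P', R', hg', hP', hR', hl'⟩ := step h hB hB₁ hBα hm.prop hl hne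
  have hle : m ≤ OrderDual.toDual (P', R') := ⟨hP', hR'⟩
  have h2 : OrderDual.toDual (P', R') ≤ m := hm.le_of_ge hg' hle
  exact hl' (h2.1 hl)

theorem lift_exists [TopologicalSpace Γ] [T2Space Γ] [TopologicalSpace T'] [T2Space T']
    (h : IsProjective act) (hB : IsProfinite B) (hB₁ : IsClosed (B₁ : Set B))
    (hBα : ∀ b ∈ B₁, α b = 1 → b = 1) (hα : Continuous α) (hαs : Function.Surjective α)
    (hι : Continuous ι) (horb : Continuous orb) (hj : Continuous j)
    (hjinj : Function.Injective j)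
    (h1 : ∀ γ γ', orb γ = orb γ' ↔ γ' * γ⁻¹ ∈ B₁.map α)
    (h2 : ∀ t, ∃ γ, orb γ = j t)
    (h3 : ∀ t g γ, orb γ = j t → orb (γ * ι g) = j (act t g)) :
    ∃ e : G →* B, Continuous e ∧ (∀ g, α (e g) = ι g) ∧
      ∀ t, ∃ b, ∀ g, act t g = t ↔ ∃ b₁ ∈ B₁, e g = b⁻¹ * b₁ * b := by
  have hPile := h.1
  have := hPile.topGroup
  have := hPile.compactG
  have := hPile.t2G
  have := hB.topGroup
  have := hB.compact
  have := hB.t2
  let P₀ : Subgroup (G × B) :=
    MonoidHom.eqLocus (α.comp (MonoidHom.snd G B)) (ι.comp (MonoidHom.fst G B))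
  have memP₀ : ∀ g b, (g, b) ∈ P₀ ↔ α b = ι g := fun g b => Iff.rfl
  let R₀ : Set (T × B) := {z | orb (α z.2) = j z.1}
  have memR₀ : ∀ t b, (t, b) ∈ R₀ ↔ orb (α b) = j t := fun t b => Iff.rfl
  have hg : Good B₁ α ι orb j act P₀ R₀ := by
    constructor
    · exact isClosed_eq (hα.comp continuous_snd) (hι.comp continuous_fst)
    · exact isClosed_eq (horb.comp (hα.comp continuous_snd)) (hj.comp continuous_fst)
    · intro g b hb; exact hb
    · intro g
      obtain ⟨b, hb⟩ := hαs (ι g)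
      exact ⟨b, hb⟩
    · intro l b hl
      rw [memP₀, map_one] at hl ⊢
      simp [hl]
    · intro t b hb; exact hb
    · intro t
      obtain ⟨γ, hγ⟩ := h2 t
      obtain ⟨b, rfl⟩ := hαs γ
      exact ⟨b, hγ⟩
    · intro t b hb b'
      rw [memR₀] at hb ⊢
      rw [← hb, eq_comm, h1]
      constructor
      · rintro ⟨b₁, hb₁, e⟩
        refine ⟨b₁, hb₁, b⁻¹ * b₁⁻¹ * b', ?_, by group⟩
        rw [memP₀, map_one]
        simp only [map_mul, map_inv, e]
        group
      · rintro ⟨b₁, hb₁, l, hl, rfl⟩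
        rw [memP₀, map_one] at hl
        refine ⟨b₁, hb₁, ?_⟩
        simp [hl]
    · intro t b g b' htb hgb
      rw [memR₀] at htb ⊢
      rw [memP₀] at hgb
      rw [map_mul, hgb]
      exact h3 t g _ htb
  obtain ⟨P, R, hG, hmin⟩ := exists_min h hB hB₁ hBα hg
  have : CompactSpace P := isCompact_iff_compactSpace.mp hG.closedP.isCompact
  let π : P →* G := (MonoidHom.fst _ _).comp P.subtype
  have hπ : Continuous π := continuous_fst.comp continuous_subtype_val
  have hinj : Function.Injective π := by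
    rw [injective_iff_map_eq_one]
    rintro ⟨⟨g, r⟩, hgr⟩ hg
    have hg' : g = 1 := hg
    subst hg'
    apply Subtype.ext
    change ((1 : G), r) = (1, 1)
    rw [hmin r hgr]
  have hsurj : Function.Surjective π := by
    intro g
    obtain ⟨b, hb⟩ := hG.Psurj g
    exact ⟨⟨(g, b), hb⟩, rfl⟩
  let eq : P ≃ G := Equiv.ofBijective π ⟨hinj, hsurj⟩
  let ho : P ≃ₜ G := Continuous.homeoOfEquivCompactToT2 (f := eq) hπ
  let em : P ≃* G := MulEquiv.ofBijective π ⟨hinj, hsurj⟩
  let ψ : G →* P := em.symm.toMonoidHom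
  have hψ : Continuous ψ := ho.symm.continuous
  have hψ1 : ∀ g, (ψ g).1.1 = g := fun g => em.apply_symm_apply g
  let e : G →* B := ((MonoidHom.snd _ _).comp P.subtype).comp ψ
  have heP : ∀ g, (g, e g) ∈ P := by
    intro g
    have h4 := (ψ g).2
    have h5 : (ψ g).1 = (g, e g) := Prod.ext (hψ1 g) rfl
    rwa [h5] at h4
  refine ⟨e, (continuous_snd.comp continuous_subtype_val).comp hψ, fun g => hG.Pα g _ (heP g), ?_⟩
  intro t
  obtain ⟨b, hb⟩ := hG.Rsurj t
  refine ⟨b, fun g => ⟨fun hgt => ?_, ?_⟩⟩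
  · have h4 := hG.RP t b g (e g) hb (heP g)
    rw [hgt] at h4
    obtain ⟨b₁, hb₁, l, hl, h5⟩ := (hG.Rfib t b hb _).mp h4
    rw [hmin l hl, mul_one] at h5
    refine ⟨b₁, hb₁, ?_⟩
    rw [mul_assoc, ← h5]
    group
  · rintro ⟨b₁, hb₁, h4⟩
    apply hjinj
    have h5 := hG.Rα t b hb
    rw [← h3 t g _ h5, ← hG.Pα g _ (heP g), h4, ← h5, eq_comm, h1]
    exact ⟨b₁, hb₁, by simp only [map_mul, map_inv]; group⟩

end lift

end Q24.Pile
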