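import Mathlib
import Pool.Agent.Q24.PileDefs
import Pool.Agent.Q24.PileRetract
import Pool.Agent.Q24.PileLift
import Pool.Agent.Q24.PileEmbedDefs

/-!
# Embedding projective piles in free profinite products
-/

set_option autoImplicit false

namespace Q24.PileEmbed

open Q24.ProfCompl Q24.Pile

universe u

section main

variable {G T : Type u} [Group G] [TopologicalSpace G] [TopologicalSpace T] (act : T → G → T)

/-- the finite equivariant quotients: a clopen set and an open normal subgroup respecting it -/
structure Ix where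
  /-- the clopen set -/
  U : Set T
  /-- the open normal subgroup -/
  N : Subgroup G
  normal : N.Normal
  clopen : IsClopen U
  isOpen : IsOpen (N : Set G)
  inv : ∀ g ∈ N, ∀ s, act s g ∈ U ↔ s ∈ U

attribute [instance] Ix.normal

variable {act}

/-- the finite set -/
abbrev Xi (i : Ix act) : Type u := XX (G ⧸ i.N)

/-- the symmetric group -/
def Pe (i : Ix act) : Type u := Equiv.Perm (Xi i)

instance (i : Ix act) : Group (Pe i) := inferInstanceAs (Group (Equiv.Perm (Xi i)))
instance (i : Ix act) : TopologicalSpace (Pe i) := ⊥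
instance (i : Ix act) : DiscreteTopology (Pe i) := ⟨rfl⟩

/-- code of a point -/
def code (i : Ix act) (s : T) : Xi i := fun a => act s a.out ∈ i.U

theorem code_mk (hP : IsPile act) (i : Ix act) (s : T) (g : G) :
    code i s (QuotientGroup.mk' i.N g) ↔ act s g ∈ i.U := by
  obtain ⟨n, hn⟩ := QuotientGroup.mk_out_eq_mul i.N g
  change act s ((g : G ⧸ i.N).out) ∈ i.U ↔ _
  rw [hn, hP.act_mul]
  exact i.inv _ n.2 _

theorem code_act (hP : IsPile act) (i : Ix act) (s : T) (g : G) :
    code i (act s g) = actX (code i s) (QuotientGroup.mk' i.N g) := by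
  funext a
  obtain ⟨k, rfl⟩ := QuotientGroup.mk'_surjective i.N a
  apply propext
  rw [code_mk hP]
  change _ ↔ code i s (QuotientGroup.mk' i.N g * QuotientGroup.mk' i.N k)
  rw [← map_mul, code_mk hP, hP.act_mul]

theorem finite_quot (hP : IsPile act) (i : Ix act) : Finite (G ⧸ i.N) := by
  have := hP.topGroup
  have := hP.compactG
  exact Subgroup.quotient_finite_of_isOpen i.N i.isOpen

theorem code_cont (hP : IsPile act) (i : Ix act) : Continuous (code i) := by
  have := finite_quot hP i
  rw [continuous_discrete_rng]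
  intro x
  have : code i ⁻¹' {x} = ⋂ a, {s | code i s a ↔ x a} := by
    ext s
    simp only [Set.mem_preimage, Set.mem_singleton_iff, Set.mem_iInter, Set.mem_ofPred_eq]
    constructor
    · intro h a
      rw [h]
    · intro h
      funext a
      exact propext (h a)
  rw [this]
  refine isOpen_iInter_of_finite fun a => ?_
  have hact : Continuous fun s => act s a.out := hP.cont.comp (Continuous.prodMk_left _)
  have hcl : IsClopen {s | act s a.out ∈ i.U} := i.clopen.preimage hact
  by_cases hx : x a
  · have : {s | code i s a ↔ x a} = {s | act s a.out ∈ i.U} := by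
      ext s
      simp [code, hx]
    rw [this]
    exact hcl.isOpen
  · have : {s | code i s a ↔ x a} = {s | act s a.out ∈ i.U}ᶜ := by
      ext s
      simp [code, hx]
    rw [this]
    exact hcl.compl.isOpen

/-- clopen sets are respected by an open normal subgroup -/
theorem exists_inv (hP : IsPile act) {U : Set T} (hU : IsClopen U) :
    ∃ N : Subgroup G, N.Normal ∧ IsOpen (N : Set G) ∧ ∀ g ∈ N, ∀ s, act s g ∈ U ↔ s ∈ U := by
  have := hP.topGroup
  have := hP.compactG
  have := hP.t2G
  have := hP.tdG
  have := hP.compactT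
  let W : Set (T × G) := {z | act z.1 z.2 ∈ U ↔ z.1 ∈ U}
  have hW : IsOpen W := by
    have hc1 : IsClopen ((fun z : T × G => act z.1 z.2) ⁻¹' U) := hU.preimage hP.cont
    have hc2 : IsClopen ((fun z : T × G => z.1) ⁻¹' U) := hU.preimage continuous_fst
    have : W = (((fun z : T × G => act z.1 z.2) ⁻¹' U) ∩ ((fun z : T × G => z.1) ⁻¹' U)) ∪
        (((fun z : T × G => act z.1 z.2) ⁻¹' U)ᶜ ∩ ((fun z : T × G => z.1) ⁻¹' U)ᶜ) := by
      ext z
      simp only [W, Set.mem_ofPred_eq, Set.mem_union, Set.mem_inter_iff, Set.mem_preimage,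
        Set.mem_compl_iff]
      tauto
    rw [this]
    exact (hc1.isOpen.inter hc2.isOpen).union
      (hc1.compl.isOpen.inter hc2.compl.isOpen)
  have hsub : (Set.univ : Set T) ×ˢ ({1} : Set G) ⊆ W := by
    rintro ⟨s, g⟩ ⟨_, hg⟩
    have hg' : g = 1 := hg
    subst hg'
    change act s 1 ∈ U ↔ s ∈ U
    rw [hP.act_one]
  obtain ⟨V1, V2, _, hV2, h1, h2, h3⟩ :=
    generalized_tube_lemma isCompact_univ isCompact_singleton hW hsub
  obtain ⟨N', hN'⟩ := ProfiniteGrp.exist_openNormalSubgroup_sub_open_nhds_of_one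
    (G := G) hV2 (h2 rfl)
  refine ⟨N'.toSubgroup, N'.isNormal', N'.isOpen', ?_⟩
  intro g hg s
  exact h3 (Set.mk_mem_prod (h1 trivial) (hN' hg))

/-- the embedding of the space -/
def jj (s : T) : ∀ i : Ix act, Xi i := fun i => code i s

theorem jj_injective (hP : IsPile act) : Function.Injective (jj (act := act)) := by
  have := hP.compactT
  have := hP.t2T
  have := hP.tdT
  intro s s' h
  by_contra hne
  obtain ⟨U, hU, hs, hs'⟩ := exists_isClopen_of_totally_separated hne
  obtain ⟨N, hN, hNo, hinv⟩ := exists_inv hP hU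
  let i : Ix act := ⟨U, N, hN, hU, hNo, hinv⟩
  have h1 : code i s = code i s' := congrFun h i
  have h2 : code i s (QuotientGroup.mk' i.N 1) := by
    rw [code_mk hP, hP.act_one]
    exact hs
  rw [h1, code_mk hP, hP.act_one] at h2
  exact hs' h2

/-- application of a permutation -/
def ap {i : Ix act} (σ : Pe i) (x : Xi i) : Xi i := (show Equiv.Perm (Xi i) from σ) x

/-- application of the inverse of a permutation -/
def ai {i : Ix act} (σ : Pe i) (x : Xi i) : Xi i := (show Equiv.Perm (Xi i) from σ).symm x

theorem ap_ai {i : Ix act} (σ : Pe i) (x : Xi i) : ap σ (ai σ x) = x :=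
  Equiv.apply_symm_apply (show Equiv.Perm (Xi i) from σ) x

theorem ai_ap {i : Ix act} (σ : Pe i) (x : Xi i) : ai σ (ap σ x) = x :=
  Equiv.symm_apply_apply (show Equiv.Perm (Xi i) from σ) x

theorem ai_mul {i : Ix act} (σ τ : Pe i) (x : Xi i) : ai (σ * τ) x = ai τ (ai σ x) := rfl

theorem ai_inv {i : Ix act} (σ : Pe i) (x : Xi i) : ai σ⁻¹ x = ap σ x := rfl

/-- the action of the symmetric groups -/
def orb (γ : G × ∀ i : Ix act, Pe i) : ∀ i : Ix act, Xi i :=
  fun i => ai (γ.2 i) (fun _ => False)

/-- the permutation of the finite set -/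
def toPe (i : Ix act) (a : G ⧸ i.N) : Pe i := (
    { toFun := fun x => actX x a⁻¹
      invFun := fun x => actX x a
      left_inv := fun x => by
        change actX (actX x a⁻¹) a = x
        rw [← actX_mul, inv_mul_cancel, actX_one]
      right_inv := fun x => by
        change actX (actX x a) a⁻¹ = x
        rw [← actX_mul, mul_inv_cancel, actX_one] } : Equiv.Perm (Xi i))

/-- the permutation of the finite set -/
def pm (i : Ix act) : G →* Pe i where
  toFun g := toPe i (QuotientGroup.mk' i.N g)
  map_one' := by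
    apply Equiv.ext
    intro x
    change actX x (QuotientGroup.mk' i.N 1)⁻¹ = x
    rw [map_one, inv_one, actX_one]
  map_mul' g h := by
    apply Equiv.ext
    intro x
    change actX x (QuotientGroup.mk' i.N (g * h))⁻¹ =
      actX (actX x (QuotientGroup.mk' i.N h)⁻¹) (QuotientGroup.mk' i.N g)⁻¹
    rw [map_mul, mul_inv_rev, actX_mul]

/-- the embedding of the group -/
def ii : G →* G × ∀ i : Ix act, Pe i := (MonoidHom.id G).prod (MonoidHom.pi pm)

theorem main (h : IsProjective act) :
    ∃ (H₁ F H Z : Type u) (_ : Group H₁) (_ : Group F) (_ : Group H) (_ : TopologicalSpace H₁)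
      (_ : TopologicalSpace F) (_ : TopologicalSpace H) (_ : TopologicalSpace Z)
      (ι : Z → F) (i₁ : H₁ →* H) (i₂ : F →* H) (e : G →* H),
      IsFreeOn Z F ι ∧ IsFreeProduct i₁ i₂ ∧ Continuous e ∧ Function.Injective e ∧
      ∀ t, ∃ b : H, ∀ g, act t g = t ↔ ∃ a : H₁, e g = b⁻¹ * i₁ a * b := by
  have hP := h.1
  have := hP.topGroup
  have := hP.compactG
  have := hP.t2G
  have := hP.tdG
  have hfin : ∀ i : Ix act, Finite (Pe i) := fun i => by
    have := finite_quot hP i
    exact inferInstanceAs (Finite (Equiv.Perm (Xi i)))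
  let Γ : Type u := G × ∀ i : Ix act, Pe i
  have hΓ : IsProfinite Γ := ⟨inferInstance, inferInstance, inferInstance, inferInstance⟩
  have hΓc := hΓ.compact
  have hΓt := hΓ.t2
  have horb : Continuous (orb (act := act)) := by
    refine continuous_pi fun i => ?_
    have h1 : Continuous fun σ : Pe i => ai σ (fun _ => False) :=
      continuous_of_discreteTopology
    exact h1.comp ((continuous_apply i).comp continuous_snd)
  let x₀ : ∀ i : Ix act, Xi i := fun i => fun _ => False
  have horb1 : ∀ γ i, orb (act := act) γ i = ai (γ.2 i) (x₀ i) := fun γ i => rfl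
  let S : Subgroup Γ :=
    { carrier := {γ | orb γ = x₀}
      one_mem' := rfl
      mul_mem' := by
        intro a b ha hb
        funext i
        have h1 : ai (a.2 i) (x₀ i) = x₀ i := congrFun ha i
        have h2 : ai (b.2 i) (x₀ i) = x₀ i := congrFun hb i
        change ai (a.2 i * b.2 i) (x₀ i) = x₀ i
        rw [ai_mul, h1, h2]
      inv_mem' := by
        intro a ha
        funext i
        have h1 : ai (a.2 i) (x₀ i) = x₀ i := congrFun ha i
        change ai (a.2 i)⁻¹ (x₀ i) = x₀ i
        rw [ai_inv]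
        nth_rewrite 1 [← h1]
        rw [ap_ai] }
  have memS : ∀ γ, γ ∈ S ↔ ∀ i, ai (γ.2 i) (x₀ i) = x₀ i := by
    intro γ
    exact ⟨fun h i => congrFun h i, fun h => funext h⟩
  have hSc : IsClosed (S : Set Γ) := isClosed_eq horb continuous_const
  have hS : IsProfinite S := ⟨inferInstance, isCompact_iff_compactSpace.mp hSc.isCompact,
    inferInstance, inferInstance⟩
  have hSco := hS.compact
  obtain ⟨F, H, _, _, _, _, ι, i₁, i₂, hF, hH⟩ := exists_product S Γ hS
  obtain ⟨f, ⟨hf, hfι⟩, _⟩ := hF.universal Γ hΓ id continuous_id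
  obtain ⟨α, ⟨hα, hα₁, hα₂⟩, _⟩ := hH.universal Γ hΓ S.subtype f continuous_subtype_val hf
  have hαi : ∀ a : S, α (i₁ a) = a := fun a => DFunLike.congr_fun hα₁ a
  have hαs : Function.Surjective α := by
    intro γ
    refine ⟨i₂ (ι γ), ?_⟩
    have : (α.comp i₂) (ι γ) = f (ι γ) := by rw [hα₂]
    rw [← MonoidHom.comp_apply, this, hfι]
    rfl
  have hHt := hH.profinite.t2
  obtain ⟨e, he, heα, het⟩ := lift_exists (B₁ := i₁.range) (α := α) (ι := ii (act := act))
    (orb := orb (act := act)) (j := jj (act := act)) h hH.profinite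
    (by
      have : (i₁.range : Set H) = Set.range i₁ := MonoidHom.coe_range i₁
      rw [this]
      exact (isCompact_range hH.cont₁).isClosed)
    (by
      rintro _ ⟨a, rfl⟩ h1
      rw [hαi] at h1
      have : a = 1 := Subtype.ext h1
      rw [this, map_one])
    hα hαs
    (by
      refine continuous_id.prodMk (continuous_pi fun i => ?_)
      have : DiscreteTopology (G ⧸ i.N) := QuotientGroup.discreteTopology i.isOpen
      have h1 : Continuous (toPe i) := continuous_of_discreteTopology
      exact h1.comp continuous_quotient_mk')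
    horb (continuous_pi fun i => code_cont hP i) (jj_injective hP)
    (by
      intro γ γ'
      have hmem : γ' * γ⁻¹ ∈ i₁.range.map α ↔ γ' * γ⁻¹ ∈ S := by
        constructor
        · rintro ⟨_, ⟨a, rfl⟩, h1⟩
          rw [← h1, hαi]
          exact a.2
        · intro h1
          exact ⟨i₁ ⟨_, h1⟩, ⟨_, rfl⟩, hαi _⟩
      rw [hmem, memS]
      have key : ∀ i, ai ((γ' * γ⁻¹).2 i) (x₀ i) = ap (γ.2 i) (ai (γ'.2 i) (x₀ i)) :=
        fun i => rfl
      constructor
      · intro h1 i
        have h2 : ai (γ.2 i) (x₀ i) = ai (γ'.2 i) (x₀ i) := congrFun h1 i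
        rw [key, ← h2, ap_ai]
      · intro h1
        funext i
        have h2 := h1 i
        rw [key] at h2
        change ai (γ.2 i) (x₀ i) = ai (γ'.2 i) (x₀ i)
        nth_rewrite 1 [← h2]
        rw [ai_ap])
    (by
      intro t
      classical
      refine ⟨(1, fun i => (Equiv.swap (x₀ i) (code i t) : Equiv.Perm (Xi i))), ?_⟩
      funext i
      change (Equiv.swap (x₀ i) (code i t)).symm (x₀ i) = code i t
      rw [Equiv.symm_swap, Equiv.swap_apply_left])
    (by
      intro t g γ hγ
      funext i
      have h1 : ai (γ.2 i) (x₀ i) = code i t := congrFun hγ i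
      change actX (ai (γ.2 i) (x₀ i)) (QuotientGroup.mk' i.N g) = code i (act t g)
      rw [h1, code_act hP])
  refine ⟨S, F, H, Γ, _, _, _, _, _, _, _, ι, i₁, i₂, e, hF, hH, he, ?_, ?_⟩
  · intro g g' hgg
    have h1 := congrArg α hgg
    rw [heα, heα] at h1
    exact congrArg Prod.fst h1
  · intro t
    obtain ⟨b, hb⟩ := het t
    refine ⟨b, fun g => ?_⟩
    rw [hb]
    constructor
    · rintro ⟨_, ⟨a, rfl⟩, h1⟩
      exact ⟨a, h1⟩
    · rintro ⟨a, h1⟩
      exact ⟨_, ⟨a, rfl⟩, h1⟩

end main

end Q24.PileEmbed
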