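import Mathlib
import Pool.Agent.Q24.ChainDefs

/-!
# Existence of the pro-`p` group given by generators and relators
-/

set_option autoImplicit false

namespace Q24.ProPPres

open Q24.Chain

theorem isProP_of_finite' {p : ℕ} [hp : Fact p.Prime] {P : Type*} [Group P] [TopologicalSpace P]
    [DiscreteTopology P] [Finite P] (h : IsPGroup p P) : IsProP p P where
  topGroup := inferInstance
  compact := inferInstance
  t2 := inferInstance
  td := inferInstance
  index N _ _ := by
    obtain ⟨n, hn⟩ := IsPGroup.iff_card.mp h
    have : N.index ∣ p ^ n := hn ▸ N.index_dvd_card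
    obtain ⟨k, _, hk⟩ := (Nat.dvd_prime_pow hp.out).mp this
    exact ⟨k, hk⟩

/-- closed subgroups of products of finite discrete `p`-groups are pro-`p` -/
theorem isProP_closed {p : ℕ} [hp : Fact p.Prime] {ι : Type} {Q : ι → Type} [∀ i, Group (Q i)]
    [∀ i, TopologicalSpace (Q i)] [∀ i, DiscreteTopology (Q i)] [∀ i, Finite (Q i)]
    (h : ∀ i, IsPGroup p (Q i)) (H : Subgroup (∀ i, Q i)) (hH : IsClosed (H : Set (∀ i, Q i))) :
    IsProP p H where
  topGroup := inferInstance
  compact := isCompact_iff_compactSpace.mp hH.isCompact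
  t2 := inferInstance
  td := inferInstance
  index N hN hNo := by
    obtain ⟨V, hV, hVN⟩ := isOpen_induced_iff.mp hNo
    have h1 : (1 : ∀ i, Q i) ∈ V := by
      have : (1 : H) ∈ Subtype.val ⁻¹' V := by
        rw [hVN]; exact N.one_mem
      exact this
    obtain ⟨S, u, hu, huV⟩ := (isOpen_pi_iff.mp hV) 1 h1
    let ρ : H →* ∀ i : S, Q i :=
      { toFun := fun g i => g.1 i.1
        map_one' := rfl
        map_mul' := fun _ _ => rfl }
    have hker : ρ.ker ≤ N := by
      intro g hg
      have hg' : ρ g = 1 := hg
      have : g ∈ Subtype.val ⁻¹' V := by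
        apply huV
        intro i hi
        have := congrFun hg' ⟨i, hi⟩
        change g.1 i ∈ u i
        have h2 : g.1 i = 1 := this
        rw [h2]
        exact (hu i hi).2
      rw [hVN] at this
      exact this
    have hcard : ∃ n, Nat.card (∀ i : S, Q i) = p ^ n := by
      choose m hm using fun i => IsPGroup.iff_card.mp (h i)
      refine ⟨∑ i : S, m i, ?_⟩
      rw [Nat.card_pi, ← Finset.prod_pow_eq_pow_sum]
      exact Finset.prod_congr rfl fun i _ => hm i
    obtain ⟨n, hn⟩ := hcard
    have hdvd : N.index ∣ p ^ n := by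
      refine (Subgroup.index_dvd_of_le hker).trans ?_
      rw [Subgroup.index_ker, ← hn]
      exact Subgroup.card_subgroup_dvd_card _
    obtain ⟨k, _, hk⟩ := (Nat.dvd_prime_pow hp.out).mp hdvd
    exact ⟨k, hk⟩

variable (p : ℕ) {I : Type} (R : Set (FreeGroup I))

/-- the finite `p`-group quotients of the discrete group -/
structure Idx where
  /-- the normal subgroup -/
  N : Subgroup (FreeGroup I)
  normal : N.Normal
  fin : Finite (FreeGroup I ⧸ N)
  pg : IsPGroup p (FreeGroup I ⧸ N)
  rel : R ⊆ N

attribute [instance] Idx.normal Idx.fin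

variable {p R}

/-- the quotient -/
def Quo (i : Idx p R) : Type := FreeGroup I ⧸ i.N

noncomputable instance (i : Idx p R) : Group (Quo i) :=
  inferInstanceAs (Group (FreeGroup I ⧸ i.N))
instance (i : Idx p R) : Finite (Quo i) := i.fin
instance (i : Idx p R) : TopologicalSpace (Quo i) := ⊥
instance (i : Idx p R) : DiscreteTopology (Quo i) := ⟨rfl⟩

theorem pg (i : Idx p R) : IsPGroup p (Quo i) := i.pg

variable (p R)

/-- the canonical homomorphism -/
noncomputable def can : FreeGroup I →* ∀ i : Idx p R, Quo i :=
  MonoidHom.pi fun i => (QuotientGroup.mk' i.N : FreeGroup I →* Quo i)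

/-- the group -/
noncomputable def Grp : Subgroup (∀ i : Idx p R, Quo i) := (can p R).range.topologicalClosure

theorem isProP_Grp [Fact p.Prime] : IsProP p (Grp p R) :=
  isProP_closed pg _ (Subgroup.isClosed_topologicalClosure _)

/-- the canonical map to the group -/
noncomputable def can' : FreeGroup I →* Grp p R :=
  (can p R).codRestrict _ fun g => Subgroup.le_topologicalClosure _ ⟨g, rfl⟩

theorem can'_rel {w : FreeGroup I} (hw : w ∈ R) : can' p R w = 1 := by
  apply Subtype.ext
  change can p R w = 1
  funext i
  change (QuotientGroup.mk' i.N w : FreeGroup I ⧸ i.N) = 1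
  simpa using i.rel hw

/-- a closed subgroup containing the image of the free group is everything -/
theorem closed_top {K : Set (Grp p R)} (hK : IsClosed K) (h : ∀ g, can' p R g ∈ K)
    (g : Grp p R) : g ∈ K := by
  have h1 : IsClosed (Subtype.val '' K) := by
    have : IsClosed ((Grp p R : Subgroup (∀ i : Idx p R, Quo i)) : Set (∀ i : Idx p R, Quo i)) :=
      Subgroup.isClosed_topologicalClosure _
    exact this.isClosedEmbedding_subtypeVal.isClosedMap _ hK
  have h2 : closure (((can p R).range : Subgroup _) : Set (∀ i : Idx p R, Quo i)) ⊆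
      Subtype.val '' K := by
    refine closure_minimal ?_ h1
    rintro _ ⟨w, rfl⟩
    exact ⟨can' p R w, h w, rfl⟩
  obtain ⟨g', hg', he⟩ := h2 g.2
  rwa [← Subtype.ext he]

theorem hom_unique {P : Type*} [Group P] [TopologicalSpace P] [T2Space P] {φ ψ : Grp p R →* P}
    (hφ : Continuous φ) (hψ : Continuous ψ)
    (h : ∀ j, φ (can' p R (FreeGroup.of j)) = ψ (can' p R (FreeGroup.of j))) : φ = ψ := by
  ext g
  refine closed_top p R (isClosed_eq hφ hψ) ?_ g
  intro w
  change (φ.comp (can' p R)) w = (ψ.comp (can' p R)) w
  congr 1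
  ext j
  exact h j

theorem exists_finite {P : Type*} [Group P] [TopologicalSpace P] [DiscreteTopology P] [Finite P]
    (hP : IsPGroup p P) (a : I → P) (ha : ∀ w ∈ R, FreeGroup.lift a w = 1) :
    ∃ φ : Grp p R →* P, Continuous φ ∧ ∀ w, φ (can' p R w) = FreeGroup.lift a w := by
  let f : FreeGroup I →* P := FreeGroup.lift a
  have hinj : Function.Injective (QuotientGroup.kerLift f) := QuotientGroup.kerLift_injective f
  let i : Idx p R :=
    { N := f.ker
      normal := inferInstance
      fin := Finite.of_injective _ hinj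
      pg := IsPGroup.of_injective hP _ hinj
      rel := fun w hw => ha w hw }
  let k : Quo i →* P := QuotientGroup.kerLift f
  let e : (∀ i : Idx p R, Quo i) →* Quo i := Pi.evalMonoidHom _ i
  refine ⟨(k.comp e).comp (Grp p R).subtype, ?_, ?_⟩
  · have h1 : Continuous k := continuous_of_discreteTopology
    have h2 : Continuous e := continuous_apply i
    exact (h1.comp h2).comp continuous_subtype_val
  · intro w
    rfl

theorem exists_hom' [Fact p.Prime] {P : Type*} [Group P] [TopologicalSpace P] (hP : IsProP p P)
    (a : I → P) (ha : ∀ w ∈ R, FreeGroup.lift a w = 1) :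
    ∃ φ : Grp p R →* P, Continuous φ ∧ ∀ w, φ (can' p R w) = FreeGroup.lift a w := by
  have := hP.topGroup
  have := hP.compact
  have := hP.t2
  have := hP.td
  have := (isProP_Grp p R).compact
  let f : FreeGroup I →* P := FreeGroup.lift a
  let F : FreeGroup I →* (Grp p R) × P := (can' p R).prod f
  let H : Subgroup ((Grp p R) × P) := F.range.topologicalClosure
  have hH : IsClosed (H : Set ((Grp p R) × P)) := Subgroup.isClosed_topologicalClosure _
  have : CompactSpace H := isCompact_iff_compactSpace.mp hH.isCompact
  let π : H →* Grp p R := (MonoidHom.fst _ _).comp H.subtype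
  have hπ : Continuous π := continuous_fst.comp continuous_subtype_val
  have hsurj : Function.Surjective π := by
    intro g
    refine closed_top p R (K := Set.range π) (isCompact_range hπ).isClosed ?_ g
    intro w
    exact ⟨⟨F w, Subgroup.le_topologicalClosure _ ⟨w, rfl⟩⟩, rfl⟩
  have hinj : Function.Injective π := by
    rw [injective_iff_map_eq_one]
    rintro ⟨⟨g, r⟩, hgr⟩ hg
    have hg' : g = 1 := hg
    subst hg'
    apply Subtype.ext
    change ((1 : Grp p R), r) = (1, 1)
    congr 1
    by_contra hr
    obtain ⟨N, hN⟩ := ProfiniteGrp.exist_openNormalSubgroup_sub_open_nhds_of_one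
      (G := P) (U := {r}ᶜ) isOpen_compl_singleton (fun h => hr h.symm)
    have hNo : IsOpen (N.toSubgroup : Set P) := N.isOpen'
    have hNn : N.toSubgroup.Normal := N.isNormal'
    have : DiscreteTopology (P ⧸ N.toSubgroup) := QuotientGroup.discreteTopology hNo
    have : Finite (P ⧸ N.toSubgroup) := Subgroup.quotient_finite_of_isOpen _ hNo
    obtain ⟨k, hk⟩ := hP.index N.toSubgroup inferInstance hNo
    have hpg : IsPGroup p (P ⧸ N.toSubgroup) := IsPGroup.of_card (n := k) (by rw [← hk]; rfl)
    let m : P →* P ⧸ N.toSubgroup := QuotientGroup.mk' N.toSubgroup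
    have hm : Continuous m := continuous_quotient_mk'
    have hcomp : ∀ w, FreeGroup.lift (fun j => m (a j)) w = m (FreeGroup.lift a w) := by
      intro w
      have : FreeGroup.lift (fun j => m (a j)) = m.comp (FreeGroup.lift a) := by
        ext j
        simp
      rw [this]
      rfl
    obtain ⟨φ, hφ, hφw⟩ := exists_finite p R hpg (fun j => m (a j)) (fun w hw => by
      rw [hcomp, ha w hw, map_one])
    have hK : IsClosed {z : (Grp p R) × P | φ z.1 = m z.2} :=
      isClosed_eq (hφ.comp continuous_fst) (hm.comp continuous_snd)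
    have hsub : (H : Set ((Grp p R) × P)) ⊆ {z : (Grp p R) × P | φ z.1 = m z.2} := by
      refine closure_minimal ?_ hK
      rintro _ ⟨w, rfl⟩
      change φ (can' p R w) = m (f w)
      rw [hφw, hcomp]
    have h2 : φ (1 : Grp p R) = m r := hsub hgr
    rw [map_one] at h2
    have h3 : r ∈ N.toSubgroup := by
      have := h2.symm
      simpa [m] using this
    exact hN h3 rfl
  let eq : H ≃ Grp p R := Equiv.ofBijective π ⟨hinj, hsurj⟩
  let ho : H ≃ₜ Grp p R := Continuous.homeoOfEquivCompactToT2 (f := eq) hπ
  let em : H ≃* Grp p R := MulEquiv.ofBijective π ⟨hinj, hsurj⟩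
  let ψ : Grp p R →* H := em.symm.toMonoidHom
  have hψ : Continuous ψ := ho.symm.continuous
  refine ⟨((MonoidHom.snd _ _).comp H.subtype).comp ψ, ?_, ?_⟩
  · exact (continuous_snd.comp continuous_subtype_val).comp hψ
  · intro w
    have : ψ (can' p R w) = ⟨F w, Subgroup.le_topologicalClosure _ ⟨w, rfl⟩⟩ := by
      apply hinj
      change em (em.symm (can' p R w)) = _
      rw [em.apply_symm_apply]
      rfl
    change (ψ (can' p R w)).1.2 = f w
    rw [this]
    rfl

end Q24.ProPPres
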