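import Mathlib

/-!
# Normal subgroups of SL₂ over a commutative ring
-/

set_option autoImplicit false
set_option linter.unusedSimpArgs false
set_option linter.unusedVariables false
set_option linter.dupNamespace false

namespace Q24.SL2

open Matrix

universe u

variable {R : Type u} [CommRing R]

/-- the group `SL₂(R)` -/
abbrev SL2 (R : Type u) [CommRing R] : Type u := Matrix.SpecialLinearGroup (Fin 2) R

/-- the element with entries `a, b, c, d` -/
def mk2 (a b c d : R) (h : a * d - b * c = 1) : SL2 R :=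
  ⟨!![a, b; c, d], by rw [Matrix.det_fin_two_of, h]⟩

theorem ext2 {g h : SL2 R} (h00 : g 0 0 = h 0 0) (h01 : g 0 1 = h 0 1) (h10 : g 1 0 = h 1 0)
    (h11 : g 1 1 = h 1 1) : g = h := by
  apply Matrix.SpecialLinearGroup.ext
  intro i j
  fin_cases i <;> fin_cases j <;> assumption

@[simp] theorem mk2_00 (a b c d : R) (h : a * d - b * c = 1) : (mk2 a b c d h) 0 0 = a := rfl
@[simp] theorem mk2_01 (a b c d : R) (h : a * d - b * c = 1) : (mk2 a b c d h) 0 1 = b := rfl
@[simp] theorem mk2_10 (a b c d : R) (h : a * d - b * c = 1) : (mk2 a b c d h) 1 0 = c := rfl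
@[simp] theorem mk2_11 (a b c d : R) (h : a * d - b * c = 1) : (mk2 a b c d h) 1 1 = d := rfl

theorem det2 (g : SL2 R) : g 0 0 * g 1 1 - g 0 1 * g 1 0 = 1 := by
  have := g.det_coe
  rwa [Matrix.det_fin_two] at this

theorem mul_00 (g h : SL2 R) : (g * h) 0 0 = g 0 0 * h 0 0 + g 0 1 * h 1 0 := by
  rw [Matrix.SpecialLinearGroup.coe_mul, Matrix.mul_apply, Fin.sum_univ_two]
theorem mul_01 (g h : SL2 R) : (g * h) 0 1 = g 0 0 * h 0 1 + g 0 1 * h 1 1 := by
  rw [Matrix.SpecialLinearGroup.coe_mul, Matrix.mul_apply, Fin.sum_univ_two]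
theorem mul_10 (g h : SL2 R) : (g * h) 1 0 = g 1 0 * h 0 0 + g 1 1 * h 1 0 := by
  rw [Matrix.SpecialLinearGroup.coe_mul, Matrix.mul_apply, Fin.sum_univ_two]
theorem mul_11 (g h : SL2 R) : (g * h) 1 1 = g 1 0 * h 0 1 + g 1 1 * h 1 1 := by
  rw [Matrix.SpecialLinearGroup.coe_mul, Matrix.mul_apply, Fin.sum_univ_two]
theorem one_00 : (1 : SL2 R) 0 0 = 1 := rfl
theorem one_01 : (1 : SL2 R) 0 1 = 0 := rfl
theorem one_10 : (1 : SL2 R) 1 0 = 0 := rfl
theorem one_11 : (1 : SL2 R) 1 1 = 1 := rfl
theorem inv_00 (g : SL2 R) : g⁻¹ 0 0 = g 1 1 := by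
  rw [Matrix.SpecialLinearGroup.coe_inv, Matrix.adjugate_fin_two]; rfl
theorem inv_01 (g : SL2 R) : g⁻¹ 0 1 = - g 0 1 := by
  rw [Matrix.SpecialLinearGroup.coe_inv, Matrix.adjugate_fin_two]; rfl
theorem inv_10 (g : SL2 R) : g⁻¹ 1 0 = - g 1 0 := by
  rw [Matrix.SpecialLinearGroup.coe_inv, Matrix.adjugate_fin_two]; rfl
theorem inv_11 (g : SL2 R) : g⁻¹ 1 1 = g 0 0 := by
  rw [Matrix.SpecialLinearGroup.coe_inv, Matrix.adjugate_fin_two]; rfl

/-- the upper elementary matrix -/
def up (x : R) : SL2 R := mk2 1 x 0 1 (by ring)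
/-- the lower elementary matrix -/
def lo (x : R) : SL2 R := mk2 1 0 x 1 (by ring)
/-- the diagonal matrix -/
def dg (u v : R) (h : u * v = 1) : SL2 R := mk2 u 0 0 v (by rw [h]; ring)
/-- the Weyl element -/
def wl : SL2 R := mk2 0 1 (-1) 0 (by ring)

theorem up_inv (x : R) : (up x)⁻¹ = up (-x) := by
  apply ext2 <;> simp [up, inv_00, inv_01, inv_10, inv_11]

theorem lo_inv (x : R) : (lo x)⁻¹ = lo (-x) := by
  apply ext2 <;> simp [lo, inv_00, inv_01, inv_10, inv_11]

theorem up_mul (x y : R) : up x * up y = up (x + y) := by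
  apply ext2 <;> simp [up, mul_00, mul_01, mul_10, mul_11, add_comm]

theorem lo_mul (x y : R) : lo x * lo y = lo (x + y) := by
  apply ext2 <;> simp [lo, mul_00, mul_01, mul_10, mul_11]

theorem up_zero : up (0 : R) = 1 := by
  apply ext2 <;> simp [up, one_00, one_01, one_10, one_11]

theorem up_injective : Function.Injective (up : R → SL2 R) := fun x y h =>
  congrArg (fun g : SL2 R => g 0 1) h

theorem wl_conj_up (x : R) : wl * up x * wl⁻¹ = lo (-x) := by
  apply ext2 <;>
    simp [wl, up, lo, mul_00, mul_01, mul_10, mul_11, inv_00, inv_01, inv_10, inv_11]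

theorem wl_conj_lo (x : R) : wl * lo x * wl⁻¹ = up (-x) := by
  apply ext2 <;>
    simp [wl, up, lo, mul_00, mul_01, mul_10, mul_11, inv_00, inv_01, inv_10, inv_11]

/-- The main step: a normal subgroup containing an element with second row `(c, d)` contains all
upper elementary matrices with entry in the ideal generated by `u ^ 4 - 1`, provided that `u` is a
unit for which `c` divides `(u ^ 2 - 1) * d`. -/
theorem up_mem_of {N : Subgroup (SL2 R)} [hN : N.Normal] {g : SL2 R} (hg : g ∈ N) {u v x : R}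
    (huv : u * v = 1) (hx : x * g 1 0 = (u ^ 2 - 1) * g 1 1) (z : R) :
    up ((u ^ 4 - 1) * z) ∈ N := by
  let D : SL2 R := dg u v huv
  let g1 : SL2 R := up x * (D * g * D⁻¹) * (up x)⁻¹
  have hg1 : g1 ∈ N := hN.conj_mem _ (hN.conj_mem _ hg _) _
  let n : SL2 R := g1 * g⁻¹
  have hn : n ∈ N := N.mul_mem hg1 (N.inv_mem hg)
  have hdet := det2 g
  have huv2 : u ^ 2 * v ^ 2 = 1 := by rw [← mul_pow, huv, one_pow]
  -- second row of `g1`
  have e10 : g1 1 0 = v ^ 2 * g 1 0 := by
    simp only [g1, D, up_inv, mul_10, mul_11, mul_00, mul_01, inv_00, inv_01, inv_10, inv_11, up,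
      dg, mk2_00, mk2_01, mk2_10, mk2_11]
    ring
  have e11 : g1 1 1 = v ^ 2 * g 1 1 := by
    simp only [g1, D, up_inv, mul_10, mul_11, mul_00, mul_01, inv_00, inv_01, inv_10, inv_11, up,
      dg, mk2_00, mk2_01, mk2_10, mk2_11]
    linear_combination (-(v ^ 2)) * hx + g 1 1 * huv + (-(g 1 1)) * huv2
  have n10 : n 1 0 = 0 := by
    simp only [n, mul_10, inv_00, inv_10, e10, e11]
    ring
  have n11 : n 1 1 = v ^ 2 := by
    simp only [n, mul_11, inv_01, inv_11, e10, e11]
    linear_combination (v ^ 2) * hdet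
  have n00 : n 0 0 = u ^ 2 := by
    have h := det2 n
    rw [n10, n11, mul_zero, sub_zero] at h
    linear_combination (u ^ 2) * h - (n 0 0) * huv2
  have key : n * up z * n⁻¹ * (up z)⁻¹ = up ((u ^ 4 - 1) * z) := by
    apply ext2
    · simp only [up_inv, mul_10, mul_11, mul_00, mul_01, inv_00, inv_01, inv_10, inv_11, up,
        mk2_00, mk2_01, mk2_10, mk2_11, n00, n10, n11]
      linear_combination huv2
    · simp only [up_inv, mul_10, mul_11, mul_00, mul_01, inv_00, inv_01, inv_10, inv_11, up,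
        mk2_00, mk2_01, mk2_10, mk2_11, n00, n10, n11]
      linear_combination (-z) * huv2
    · simp only [up_inv, mul_10, mul_11, mul_00, mul_01, inv_00, inv_01, inv_10, inv_11, up,
        mk2_00, mk2_01, mk2_10, mk2_11, n00, n10, n11]
      ring
    · simp only [up_inv, mul_10, mul_11, mul_00, mul_01, inv_00, inv_01, inv_10, inv_11, up,
        mk2_00, mk2_01, mk2_10, mk2_11, n00, n10, n11]
      linear_combination huv2
  rw [← key]
  have : n * up z * n⁻¹ * (up z)⁻¹ = n * (up z * n⁻¹ * (up z)⁻¹) := by group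
  rw [this]
  exact N.mul_mem hn (hN.conj_mem _ (N.inv_mem hn) _)

/-- Conjugating a non-scalar element we can make the lower left entry nonzero. -/
theorem exists_conj {N : Subgroup (SL2 R)} [hN : N.Normal] {g : SL2 R} (hg : g ∈ N)
    (h : g 1 0 ≠ 0 ∨ g 0 1 ≠ 0 ∨ g 0 0 ≠ g 1 1) : ∃ h ∈ N, h 1 0 ≠ 0 := by
  by_cases h1 : g 1 0 = 0
  · by_cases h2 : g 0 1 = 0
    · have h3 : g 0 0 ≠ g 1 1 := by
        rcases h with h | h | h
        · exact absurd h1 h
        · exact absurd h2 h
        · exact h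
      refine ⟨lo 1 * g * (lo 1)⁻¹, hN.conj_mem _ hg _, ?_⟩
      intro hc
      rw [lo_inv] at hc
      simp only [mul_10, mul_11, mul_00, mul_01, lo, mk2_00, mk2_01, mk2_10, mk2_11] at hc
      apply h3
      rw [h1, h2] at hc
      linear_combination hc
    · refine ⟨wl * g * wl⁻¹, hN.conj_mem _ hg _, ?_⟩
      intro hc
      simp only [mul_10, mul_11, mul_00, mul_01, wl, inv_00, inv_10, mk2_00, mk2_01, mk2_10,
        mk2_11] at hc
      apply h2
      linear_combination -hc
  · exact ⟨g, hg, h1⟩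

/-- If a normal subgroup contains all upper elementary matrices with entries in `t R`, then it
contains all elements which are congruent to the identity modulo `t ^ 2` and whose first entry is
a unit. -/
theorem mem_of_cong {N : Subgroup (SL2 R)} [hN : N.Normal] {t : R} (ht : ∀ z, up (t * z) ∈ N)
    (M : SL2 R) {a' α β γ : R} (ha : M 0 0 * a' = 1) (h00 : M 0 0 = 1 + t ^ 2 * α)
    (h01 : M 0 1 = t * β) (h10 : M 1 0 = t * γ) : M ∈ N := by
  have hlo : ∀ z, lo (t * z) ∈ N := by
    intro z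
    have := hN.conj_mem _ (ht (-z)) wl
    rw [wl_conj_up] at this
    rwa [show -(t * -z) = t * z by ring] at this
  have e1 : lo (t * (-α * a')) * up (t * 1) * lo (t * α) * up (t * (-a')) =
      dg (M 0 0) a' ha := by
    rw [h00] at ha
    apply ext2
    · simp only [mul_10, mul_11, mul_00, mul_01, up, lo, dg, mk2_00, mk2_01, mk2_10, mk2_11, h00]
      ring
    · simp only [mul_10, mul_11, mul_00, mul_01, up, lo, dg, mk2_00, mk2_01, mk2_10, mk2_11]
      linear_combination (-t) * ha
    · simp only [mul_10, mul_11, mul_00, mul_01, up, lo, dg, mk2_00, mk2_01, mk2_10, mk2_11]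
      linear_combination (-t * α) * ha
    · simp only [mul_10, mul_11, mul_00, mul_01, up, lo, dg, mk2_00, mk2_01, mk2_10, mk2_11]
      linear_combination (t ^ 2 * α * a' - 1) * ha
  have e : M = lo (t * (γ * a')) * (lo (t * (-α * a')) * up (t * 1) * lo (t * α) *
      up (t * (-a'))) * up (t * (β * a')) := by
    rw [e1]
    have hdet := det2 M
    rw [h01, h10] at hdet
    apply ext2
    · simp only [mul_10, mul_11, mul_00, mul_01, up, lo, dg, mk2_00, mk2_01, mk2_10, mk2_11]
      ring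
    · simp only [mul_10, mul_11, mul_00, mul_01, up, lo, dg, mk2_00, mk2_01, mk2_10, mk2_11, h01]
      linear_combination (- t * β) * ha
    · simp only [mul_10, mul_11, mul_00, mul_01, up, lo, dg, mk2_00, mk2_01, mk2_10, mk2_11, h10]
      linear_combination (- t * γ) * ha
    · simp only [mul_10, mul_11, mul_00, mul_01, up, lo, dg, mk2_00, mk2_01, mk2_10, mk2_11]
      linear_combination (a') * hdet + (-(M 1 1) - t ^ 2 * γ * β * a') * ha
  rw [e]
  exact N.mul_mem (N.mul_mem (hlo _) (N.mul_mem (N.mul_mem (N.mul_mem (hlo _) (ht _)) (hlo _))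
    (ht _))) (ht _)

end Q24.SL2
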