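import Mathlib

/-!
Certificate checked coset style enumeration for the group
`⟨a, b | a², b³, (ab)⁵⟩`: every group generated by such `a`, `b` has at most 60 elements.
Words are lists of natural numbers: `0 ↦ a`, `1 ↦ b`, everything else `↦ b⁻¹`.
-/

namespace Pool.Agent.Q24.TC

abbrev W := List ℕ

def baseR : List (W × W) := [([0,0],[]), ([1,1],[2]), ([2,2],[1]), ([1,2],[]), ([2,1],[]), ([0,1,0,1,0,1,0,1,0,1],[])]

def newR : List ((W × W) × List (ℕ × ℕ × Bool)) := [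
  (([1,0,1,0,1,0,1,0,1],[0]),[(0,0,false), (1,5,true)]),
  (([2,0,1,0,1,0,1,0,1],[1,0]),[(0,1,false), (1,6,true)]),
  (([0,1,0,1,0,1,0,1],[2,0]),[(0,3,false), (1,7,true), (0,1,true)]),
  (([1,0,1,0,1,0,1],[0,2,0]),[(0,0,false), (1,8,true)]),
  (([2,0,1,0,1,0,1],[1,0,2,0]),[(0,1,false), (1,9,true)]),
  (([0,1,0,1,0,1],[2,0,2,0]),[(0,3,false), (1,10,true), (0,1,true)]),
  (([1,0,1,0,1],[0,2,0,2,0]),[(0,0,false), (1,11,true)]),
  (([1,0,2,0,2,0],[2,0,1,0,1]),[(1,12,false), (0,1,true)]),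
  (([2,0,2,0,2,0],[0,1,0,1]),[(0,1,false), (1,13,true), (0,3,true)]),
  (([0,2,0,2,0,1],[1,0,1,0,2]),[(0,12,false), (4,1,true)]),
  (([0,1,0,1,0,2],[2,0,2,0,1]),[(1,15,false), (0,0,true)]),
  (([0,2,0,2,0,2],[1,0,1,0]),[(0,12,false), (4,3,true)]),
  (([2,0,2,0,2],[0,1,0,1,0]),[(0,0,false), (1,17,true)]),
  (([2,0,1,0,1,0],[1,0,2,0,2]),[(1,18,false), (0,2,true)]),
  (([1,0,1,0,2,0,1,0,1],[0,2,0,1,0,2,0]),[(4,13,false), (0,12,true), (4,0,true), (3,2,true)]),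
  (([2,0,1,0,2,0,1,0,1],[1,0,2,0,1,0,2,0]),[(0,1,false), (1,20,true)]),
  (([2,0,2,0,1,0,2,0],[0,1,0,2,0,1,0,1]),[(0,1,false), (1,21,false), (0,3,true)]),
  (([2,0,1,0,2,0,1,0,2],[1,0,2,0,1,0,2,0,1]),[(4,1,false), (0,13,false), (5,16,true), (4,2,true)]),
  (([1,0,1,0,2,0,1,0,2],[0,2,0,1,0,2,0,1]),[(0,2,false), (1,23,true), (0,4,true)]),
  (([1,0,2,0,1,0,2,0,2],[2,0,1,0,2,0,1,0]),[(4,19,false), (0,13,true), (4,1,true)]),
  (([1,0,1,0,2,0,1,0],[0,2,0,1,0,2,0,2]),[(0,2,false), (1,25,false), (0,4,true)]),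
  (([0,1,0,2,0,1,0,2,0,1,0],[1,0,2,0,1,0,2,0,1]),[(1,23,false), (3,21,false), (0,15,true), (2,13,true), (6,1,true)]),
  (([1,0,2,0,1,0,2,0,1,0],[0,1,0,2,0,1,0,2,0,1]),[(0,0,false), (1,27,true)])]

def NF : List W := [[], [0], [1], [2], [0,1], [0,2], [1,0], [2,0], [0,1,0], [0,2,0], [1,0,1], [1,0,2], [2,0,1], [2,0,2], [0,1,0,1], [0,1,0,2], [0,2,0,1], [0,2,0,2], [1,0,1,0], [1,0,2,0], [2,0,1,0], [2,0,2,0], [0,1,0,1,0], [0,1,0,2,0], [0,2,0,1,0], [0,2,0,2,0], [1,0,1,0,2], [1,0,2,0,1], [1,0,2,0,2], [2,0,1,0,1], [2,0,1,0,2], [2,0,2,0,1], [0,1,0,2,0,1], [0,1,0,2,0,2], [0,2,0,1,0,1], [0,2,0,1,0,2], [1,0,1,0,2,0], [1,0,2,0,1,0], [2,0,1,0,2,0], [2,0,2,0,1,0], [0,1,0,2,0,1,0], [0,2,0,1,0,2,0], [1,0,1,0,2,0,1], [1,0,1,0,2,0,2], [1,0,2,0,1,0,1], [1,0,2,0,1,0,2], [2,0,1,0,2,0,1], [2,0,1,0,2,0,2], [2,0,2,0,1,0,1], [2,0,2,0,1,0,2], [0,1,0,2,0,1,0,1], [0,1,0,2,0,1,0,2], [0,2,0,1,0,2,0,1], [0,2,0,1,0,2,0,2],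 [1,0,2,0,1,0,2,0], [2,0,1,0,2,0,1,0], [0,1,0,2,0,1,0,2,0], [0,2,0,1,0,2,0,1,0], [1,0,2,0,1,0,2,0,1], [0,1,0,2,0,1,0,2,0,1]]

def clR : List ((W × ℕ) × List (ℕ × ℕ × Bool)) := [
  (([],0),[]),
  (([],1),[]),
  (([],2),[]),
  (([0],0),[(0,0,true)]),
  (([0],1),[]),
  (([0],2),[]),
  (([1],0),[]),
  (([1],1),[(0,1,true)]),
  (([1],2),[(0,3,true)]),
  (([2],0),[]),
  (([2],1),[(0,4,true)]),
  (([2],2),[(0,2,true)]),
  (([0,1],0),[]),
  (([0,1],1),[(1,1,true)]),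
  (([0,1],2),[(1,3,true)]),
  (([0,2],0),[]),
  (([0,2],1),[(1,4,true)]),
  (([0,2],2),[(1,2,true)]),
  (([1,0],0),[(1,0,true)]),
  (([1,0],1),[]),
  (([1,0],2),[]),
  (([2,0],0),[(1,0,true)]),
  (([2,0],1),[]),
  (([2,0],2),[]),
  (([0,1,0],0),[(2,0,true)]),
  (([0,1,0],1),[]),
  (([0,1,0],2),[]),
  (([0,2,0],0),[(2,0,true)]),
  (([0,2,0],1),[]),
  (([0,2,0],2),[]),
  (([1,0,1],0),[]),
  (([1,0,1],1),[(2,1,true)]),
  (([1,0,1],2),[(2,3,true)]),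
  (([1,0,2],0),[]),
  (([1,0,2],1),[(2,4,true)]),
  (([1,0,2],2),[(2,2,true)]),
  (([2,0,1],0),[]),
  (([2,0,1],1),[(2,1,true)]),
  (([2,0,1],2),[(2,3,true)]),
  (([2,0,2],0),[]),
  (([2,0,2],1),[(2,4,true)]),
  (([2,0,2],2),[(2,2,true)]),
  (([0,1,0,1],0),[]),
  (([0,1,0,1],1),[(3,1,true)]),
  (([0,1,0,1],2),[(3,3,true)]),
  (([0,1,0,2],0),[]),
  (([0,1,0,2],1),[(3,4,true)]),
  (([0,1,0,2],2),[(3,2,true)]),
  (([0,2,0,1],0),[]),
  (([0,2,0,1],1),[(3,1,true)]),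
  (([0,2,0,1],2),[(3,3,true)]),
  (([0,2,0,2],0),[]),
  (([0,2,0,2],1),[(3,4,true)]),
  (([0,2,0,2],2),[(3,2,true)]),
  (([1,0,1,0],0),[(3,0,true)]),
  (([1,0,1,0],1),[(0,12,true)]),
  (([1,0,1,0],2),[]),
  (([1,0,2,0],0),[(3,0,true)]),
  (([1,0,2,0],1),[]),
  (([1,0,2,0],2),[]),
  (([2,0,1,0],0),[(3,0,true)]),
  (([2,0,1,0],1),[]),
  (([2,0,1,0],2),[]),
  (([2,0,2,0],0),[(3,0,true)]),
  (([2,0,2,0],1),[]),
  (([2,0,2,0],2),[(0,18,true)]),
  (([0,1,0,1,0],0),[(4,0,true)]),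
  (([0,1,0,1,0],1),[(1,12,true), (0,0,true)]),
  (([0,1,0,1,0],2),[(0,16,true)]),
  (([0,1,0,2,0],0),[(4,0,true)]),
  (([0,1,0,2,0],1),[]),
  (([0,1,0,2,0],2),[]),
  (([0,2,0,1,0],0),[(4,0,true)]),
  (([0,2,0,1,0],1),[]),
  (([0,2,0,1,0],2),[]),
  (([0,2,0,2,0],0),[(4,0,true)]),
  (([0,2,0,2,0],1),[(0,15,true)]),
  (([0,2,0,2,0],2),[(1,18,true), (0,0,true)]),
  (([1,0,1,0,2],0),[]),
  (([1,0,1,0,2],1),[(4,4,true)]),
  (([1,0,1,0,2],2),[(4,2,true), (0,12,true)]),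
  (([1,0,2,0,1],0),[]),
  (([1,0,2,0,1],1),[(4,1,true)]),
  (([1,0,2,0,1],2),[(4,3,true)]),
  (([1,0,2,0,2],0),[(0,13,true)]),
  (([1,0,2,0,2],1),[(4,4,true)]),
  (([1,0,2,0,2],2),[(4,2,true)]),
  (([2,0,1,0,1],0),[(0,19,true)]),
  (([2,0,1,0,1],1),[(4,1,true)]),
  (([2,0,1,0,1],2),[(4,3,true)]),
  (([2,0,1,0,2],0),[]),
  (([2,0,1,0,2],1),[(4,4,true)]),
  (([2,0,1,0,2],2),[(4,2,true)]),
  (([2,0,2,0,1],0),[]),
  (([2,0,2,0,1],1),[(4,1,true), (0,18,true)]),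
  (([2,0,2,0,1],2),[(4,3,true)]),
  (([0,1,0,2,0,1],0),[]),
  (([0,1,0,2,0,1],1),[(5,1,true)]),
  (([0,1,0,2,0,1],2),[(5,3,true)]),
  (([0,1,0,2,0,2],0),[(1,13,true)]),
  (([0,1,0,2,0,2],1),[(5,4,true)]),
  (([0,1,0,2,0,2],2),[(5,2,true)]),
  (([0,2,0,1,0,1],0),[(1,19,true)]),
  (([0,2,0,1,0,1],1),[(5,1,true)]),
  (([0,2,0,1,0,1],2),[(5,3,true)]),
  (([0,2,0,1,0,2],0),[]),
  (([0,2,0,1,0,2],1),[(5,4,true)]),
  (([0,2,0,1,0,2],2),[(5,2,true)]),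
  (([1,0,1,0,2,0],0),[(5,0,true)]),
  (([1,0,1,0,2,0],1),[]),
  (([1,0,1,0,2,0],2),[]),
  (([1,0,2,0,1,0],0),[(5,0,true)]),
  (([1,0,2,0,1,0],1),[]),
  (([1,0,2,0,1,0],2),[]),
  (([2,0,1,0,2,0],0),[(5,0,true)]),
  (([2,0,1,0,2,0],1),[]),
  (([2,0,1,0,2,0],2),[]),
  (([2,0,2,0,1,0],0),[(5,0,true)]),
  (([2,0,2,0,1,0],1),[]),
  (([2,0,2,0,1,0],2),[]),
  (([0,1,0,2,0,1,0],0),[(6,0,true)]),
  (([0,1,0,2,0,1,0],1),[]),
  (([0,1,0,2,0,1,0],2),[]),
  (([0,2,0,1,0,2,0],0),[(6,0,true)]),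
  (([0,2,0,1,0,2,0],1),[]),
  (([0,2,0,1,0,2,0],2),[]),
  (([1,0,1,0,2,0,1],0),[(0,26,true)]),
  (([1,0,1,0,2,0,1],1),[(6,1,true)]),
  (([1,0,1,0,2,0,1],2),[(6,3,true)]),
  (([1,0,1,0,2,0,2],0),[(2,13,true)]),
  (([1,0,1,0,2,0,2],1),[(6,4,true)]),
  (([1,0,1,0,2,0,2],2),[(6,2,true)]),
  (([1,0,2,0,1,0,1],0),[(2,19,true)]),
  (([1,0,2,0,1,0,1],1),[(6,1,true)]),
  (([1,0,2,0,1,0,1],2),[(6,3,true)]),
  (([1,0,2,0,1,0,2],0),[]),
  (([1,0,2,0,1,0,2],1),[(6,4,true)]),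
  (([1,0,2,0,1,0,2],2),[(6,2,true)]),
  (([2,0,1,0,2,0,1],0),[]),
  (([2,0,1,0,2,0,1],1),[(6,1,true)]),
  (([2,0,1,0,2,0,1],2),[(6,3,true)]),
  (([2,0,1,0,2,0,2],0),[(2,13,true)]),
  (([2,0,1,0,2,0,2],1),[(6,4,true)]),
  (([2,0,1,0,2,0,2],2),[(6,2,true)]),
  (([2,0,2,0,1,0,1],0),[(2,19,true)]),
  (([2,0,2,0,1,0,1],1),[(6,1,true)]),
  (([2,0,2,0,1,0,1],2),[(6,3,true)]),
  (([2,0,2,0,1,0,2],0),[(0,22,true)]),
  (([2,0,2,0,1,0,2],1),[(6,4,true)]),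
  (([2,0,2,0,1,0,2],2),[(6,2,true)]),
  (([0,1,0,2,0,1,0,1],0),[(3,19,true), (0,16,true)]),
  (([0,1,0,2,0,1,0,1],1),[(7,1,true)]),
  (([0,1,0,2,0,1,0,1],2),[(7,3,true)]),
  (([0,1,0,2,0,1,0,2],0),[]),
  (([0,1,0,2,0,1,0,2],1),[(7,4,true)]),
  (([0,1,0,2,0,1,0,2],2),[(7,2,true)]),
  (([0,2,0,1,0,2,0,1],0),[]),
  (([0,2,0,1,0,2,0,1],1),[(7,1,true)]),
  (([0,2,0,1,0,2,0,1],2),[(7,3,true)]),
  (([0,2,0,1,0,2,0,2],0),[(3,13,true), (0,15,true)]),
  (([0,2,0,1,0,2,0,2],1),[(7,4,true)]),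
  (([0,2,0,1,0,2,0,2],2),[(7,2,true)]),
  (([1,0,2,0,1,0,2,0],0),[(7,0,true)]),
  (([1,0,2,0,1,0,2,0],1),[]),
  (([1,0,2,0,1,0,2,0],2),[(0,25,true)]),
  (([2,0,1,0,2,0,1,0],0),[(7,0,true)]),
  (([2,0,1,0,2,0,1,0],1),[(0,21,true)]),
  (([2,0,1,0,2,0,1,0],2),[(0,23,true)]),
  (([0,1,0,2,0,1,0,2,0],0),[(8,0,true)]),
  (([0,1,0,2,0,1,0,2,0],1),[]),
  (([0,1,0,2,0,1,0,2,0],2),[(1,25,true)]),
  (([0,2,0,1,0,2,0,1,0],0),[(8,0,true)]),
  (([0,2,0,1,0,2,0,1,0],1),[(1,21,true)]),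
  (([0,2,0,1,0,2,0,1,0],2),[(1,23,true)]),
  (([1,0,2,0,1,0,2,0,1],0),[(0,28,true)]),
  (([1,0,2,0,1,0,2,0,1],1),[(8,1,true), (0,25,true)]),
  (([1,0,2,0,1,0,2,0,1],2),[(8,3,true)]),
  (([0,1,0,2,0,1,0,2,0,1],0),[(1,28,true), (0,0,true)]),
  (([0,1,0,2,0,1,0,2,0,1],1),[(9,1,true), (1,25,true)]),
  (([0,1,0,2,0,1,0,2,0,1],2),[(9,3,true)])]
def stepW (rules : List (W × W)) (w : W) (s : ℕ × ℕ × Bool) : Option W :=
  match rules[s.2.1]? with
  | none => none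
  | some q =>
    let x := if s.2.2 then q.1 else q.2
    let y := if s.2.2 then q.2 else q.1
    if (w.drop s.1).take x.length = x then
      some (w.take s.1 ++ (y ++ (w.drop s.1).drop x.length))
    else none

def runW (rules : List (W × W)) : W → List (ℕ × ℕ × Bool) → Option W
  | w, [] => some w
  | w, s :: t =>
    match stepW rules w s with
    | none => none
    | some w' => runW rules w' t

def checkNew : List (W × W) → List ((W × W) × List (ℕ × ℕ × Bool)) → Option (List (W × W))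
  | acc, [] => some acc
  | acc, q :: t => if runW acc q.1.1 q.2 = some q.1.2 then checkNew (acc ++ [q.1]) t else none

def allR : List (W × W) := baseR ++ newR.map Prod.fst

theorem checkNew_ok : checkNew baseR newR = some allR := by decide +kernel

def okCl : Bool := clR.all fun q =>
  match runW allR (q.1.1 ++ [q.1.2]) q.2 with
  | none => false
  | some w => NF.contains w

theorem okCl_true : okCl = true := by decide +kernel

theorem cover : ∀ w ∈ NF, ∀ x ∈ [0, 1, 2], ∃ q ∈ clR, q.1 = (w, x) := by decide +kernel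

section

variable {G : Type*} [Group G] (a b : G)

def ev : ℕ → G
  | 0 => a
  | 1 => b
  | _ => b⁻¹

def evw (w : W) : G := (w.map (ev a b)).prod

theorem evw_append (u v : W) : evw a b (u ++ v) = evw a b u * evw a b v := by
  simp [evw]

theorem sub_sound (w x y : W) (i : ℕ) (hxy : evw a b x = evw a b y)
    (hx : (w.drop i).take x.length = x) :
    evw a b w = evw a b (w.take i ++ (y ++ (w.drop i).drop x.length)) := by
  conv_lhs => rw [← List.take_append_drop i w]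
  rw [evw_append, evw_append, evw_append]
  congr 1
  conv_lhs => rw [← List.take_append_drop x.length (w.drop i)]
  rw [evw_append, hx, hxy]

theorem stepW_sound {rules : List (W × W)} (hr : ∀ q ∈ rules, evw a b q.1 = evw a b q.2)
    {w w' : W} {s : ℕ × ℕ × Bool} (h : stepW rules w s = some w') :
    evw a b w = evw a b w' := by
  obtain ⟨i, k, d⟩ := s
  unfold stepW at h
  split at h
  · simp at h
  · rename_i q hq
    have hq' := hr q (List.mem_of_getElem? hq)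
    cases d with
    | true =>
      simp only [if_true] at h
      split at h
      · rename_i hx
        rw [Option.some.injEq] at h
        rw [← h]
        exact sub_sound a b w q.1 q.2 i hq' hx
      · simp at h
    | false =>
      simp only [Bool.false_eq_true, if_false] at h
      split at h
      · rename_i hx
        rw [Option.some.injEq] at h
        rw [← h]
        exact sub_sound a b w q.2 q.1 i hq'.symm hx
      · simp at h

theorem runW_sound {rules : List (W × W)} (hr : ∀ q ∈ rules, evw a b q.1 = evw a b q.2) :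
    ∀ {st : List (ℕ × ℕ × Bool)} {w w' : W}, runW rules w st = some w' →
      evw a b w = evw a b w'
  | [], w, w', h => by
    simp only [runW, Option.some.injEq] at h
    rw [h]
  | s :: t, w, w', h => by
    simp only [runW] at h
    split at h
    · simp at h
    · rename_i w1 hw1
      exact (stepW_sound a b hr hw1).trans (runW_sound hr h)

theorem checkNew_sound : ∀ {L : List ((W × W) × List (ℕ × ℕ × Bool))} {acc out : List (W × W)},
    (∀ q ∈ acc, evw a b q.1 = evw a b q.2) → checkNew acc L = some out →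
      ∀ q ∈ out, evw a b q.1 = evw a b q.2
  | [], acc, out, hacc, h => by
    simp only [checkNew, Option.some.injEq] at h
    rw [← h]
    exact hacc
  | q :: t, acc, out, hacc, h => by
    simp only [checkNew] at h
    split at h
    · rename_i hq
      refine checkNew_sound ?_ h
      intro p hp
      rcases List.mem_append.1 hp with hp | hp
      · exact hacc p hp
      · rw [List.mem_singleton] at hp
        rw [hp]
        exact runW_sound a b hacc hq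
    · simp at h

theorem baseR_sound (ha : a ^ 2 = 1) (hb : b ^ 3 = 1) (hab : (a * b) ^ 5 = 1) :
    ∀ q ∈ baseR, evw a b q.1 = evw a b q.2 := by
  have ha' : a * a = 1 := by rw [← pow_two]; exact ha
  have hb' : b * b * b = 1 := by
    rw [← hb, pow_succ, pow_two]
  have hbi : b * b = b⁻¹ := by
    rw [eq_inv_iff_mul_eq_one]; exact hb'
  intro q hq
  simp only [baseR, List.mem_cons, List.not_mem_nil, or_false] at hq
  rcases hq with rfl | rfl | rfl | rfl | rfl | rfl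
  · simpa [evw, ev] using ha'
  · simpa [evw, ev] using hbi
  · have h2 : b⁻¹ * b⁻¹ = b := by
      rw [← mul_inv_rev, hbi, inv_inv]
    simpa [evw, ev] using h2
  · simp [evw, ev]
  · simp [evw, ev]
  · have h5 : (a * b) ^ 5 = a * (b * (a * (b * (a * (b * (a * (b * (a * b)))))))) := by
      simp only [pow_succ, pow_zero, one_mul, mul_assoc]
    rw [h5] at hab
    simpa [evw, ev] using hab

theorem allR_sound (ha : a ^ 2 = 1) (hb : b ^ 3 = 1) (hab : (a * b) ^ 5 = 1) :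
    ∀ q ∈ allR, evw a b q.1 = evw a b q.2 :=
  checkNew_sound a b (baseR_sound a b ha hb hab) checkNew_ok

theorem closed (ha : a ^ 2 = 1) (hb : b ^ 3 = 1) (hab : (a * b) ^ 5 = 1)
    (w : W) (hw : w ∈ NF) (x : ℕ) (hx : x ∈ [0, 1, 2]) :
    ∃ v ∈ NF, evw a b v = evw a b w * ev a b x := by
  obtain ⟨q, hq, hq1⟩ := cover w hw x hx
  have h := okCl_true
  unfold okCl at h
  rw [List.all_eq_true] at h
  have h1 := h q hq
  rw [hq1] at h1
  simp only at h1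
  split at h1
  · simp at h1
  · rename_i v hv
    refine ⟨v, by simpa using h1, ?_⟩
    rw [← runW_sound a b (allR_sound a b ha hb hab) hv, evw_append]
    simp [evw]

/-- Every element of a `(2,3,5)` triangle group quotient is one of 60 words. -/
theorem exists_word (ha : a ^ 2 = 1) (hb : b ^ 3 = 1) (hab : (a * b) ^ 5 = 1)
    (g : G) (hg : g ∈ Subgroup.closure ({a, b} : Set G)) : ∃ v ∈ NF, evw a b v = g := by
  induction hg using Subgroup.closure_induction_right with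
  | one => exact ⟨[], by decide, by simp [evw]⟩
  | mul_right x hx y hy ih =>
    obtain ⟨v, hv, rfl⟩ := ih
    rcases hy with rfl | hy
    · exact closed _ b ha hb hab v hv 0 (by simp)
    · rw [Set.mem_singleton_iff] at hy
      subst hy
      exact closed a _ ha hb hab v hv 1 (by simp)
  | mul_inv_cancel x hx y hy ih =>
    obtain ⟨v, hv, rfl⟩ := ih
    rcases hy with rfl | hy
    · have : y⁻¹ = y := by
        rw [inv_eq_iff_mul_eq_one, ← pow_two]; exact ha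
      rw [this]
      exact closed _ b ha hb hab v hv 0 (by simp)
    · rw [Set.mem_singleton_iff] at hy
      subst hy
      exact closed a _ ha hb hab v hv 2 (by simp)

/-- The spherical triangle group `(2,3,5)` has at most 60 elements. -/
theorem card_le (ha : a ^ 2 = 1) (hb : b ^ 3 = 1) (hab : (a * b) ^ 5 = 1)
    (hgen : Subgroup.closure ({a, b} : Set G) = ⊤) : Nat.card G ≤ 60 := by
  have hs : Function.Surjective (fun i : Fin NF.length => evw a b (NF.get i)) := by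
    intro g
    obtain ⟨v, hv, rfl⟩ := exists_word a b ha hb hab g (by rw [hgen]; trivial)
    obtain ⟨i, hi⟩ := List.mem_iff_get.1 hv
    exact ⟨i, by simp only; rw [hi]⟩
  have := Nat.card_le_card_of_surjective _ hs
  rw [Nat.card_fin] at this
  exact this.trans (by decide)

end

end Pool.Agent.Q24.TC
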